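import Pool.Agent.H252.EL.Iface

/-!
# Project EL (helper252), piece EMB: a product of `k` two-spheres embeds in the cube of dimension
`2k + 1`
-/

set_option autoImplicit false

namespace Pool.Agent.H415.ELEMB

open Pool.Agent.H252.EL

/-- The point `e^t x`. -/
noncomputable def uu (x : S2) (t : ℝ) : EuclideanSpace ℝ (Fin 3) :=
  Real.exp t • (x : EuclideanSpace ℝ (Fin 3))

lemma uu_norm (x : S2) (t : ℝ) : ‖uu x t‖ = Real.exp t := by
  have hx : ‖(x : EuclideanSpace ℝ (Fin 3))‖ = 1 := mem_sphere_zero_iff_norm.1 x.2
  rw [uu, norm_smul, hx, mul_one, Real.norm_of_nonneg (Real.exp_pos t).le]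

lemma uu_inj {x y : S2} {t s : ℝ} (h : uu x t = uu y s) : x = y ∧ t = s := by
  have h1 : t = s := by
    have := congrArg norm h
    rw [uu_norm, uu_norm] at this
    exact Real.exp_injective this
  subst h1
  refine ⟨?_, rfl⟩
  apply Subtype.ext
  unfold uu at h
  exact smul_right_injective _ (Real.exp_pos t).ne' h

lemma uu_continuous : Continuous fun p : S2 × ℝ => uu p.1 p.2 := by
  unfold uu
  exact (Real.continuous_exp.comp continuous_snd).smul
    (continuous_subtype_val.comp continuous_fst)

lemma uu_coord_continuous (i : Fin 3) : Continuous fun p : S2 × ℝ => uu p.1 p.2 i :=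
  (EuclideanSpace.proj (𝕜 := ℝ) i).continuous.comp uu_continuous

lemma exists_J : ∀ k : ℕ, ∃ J : (Fin k → S2) × ℝ → (Fin (2 * k + 1) → ℝ),
    Continuous J ∧ Function.Injective J := by
  intro k
  induction k with
  | zero =>
    refine ⟨fun p _ => p.2, continuous_pi fun _ => continuous_snd, ?_⟩
    rintro ⟨x, t⟩ ⟨y, s⟩ h
    have h1 : t = s := congrFun h 0
    have h2 : x = y := Subsingleton.elim _ _
    rw [h1, h2]
  | succ k ih =>
    obtain ⟨J, hJ, hinj⟩ := ih
    let J' : (Fin (k + 1) → S2) × ℝ → (Fin (2 * (k + 1) + 1) → ℝ) := fun p =>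
      (Fin.cons (uu (p.1 0) p.2 1) (Fin.cons (uu (p.1 0) p.2 2)
        (J (fun i => p.1 i.succ, uu (p.1 0) p.2 0)) : Fin (2 * k + 1 + 1) → ℝ) :
          Fin (2 * k + 1 + 1 + 1) → ℝ)
    have hp : Continuous fun p : (Fin (k + 1) → S2) × ℝ => ((p.1 0, p.2) : S2 × ℝ) :=
      ((continuous_apply 0).comp continuous_fst).prodMk continuous_snd
    have hu : ∀ i : Fin 3, Continuous fun p : (Fin (k + 1) → S2) × ℝ => uu (p.1 0) p.2 i :=
      fun i => (uu_coord_continuous i).comp hp
    have hJ0 : Continuous fun p : (Fin (k + 1) → S2) × ℝ =>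
        J (fun i => p.1 i.succ, uu (p.1 0) p.2 0) :=
      hJ.comp ((continuous_pi fun i => (continuous_apply i.succ).comp continuous_fst).prodMk (hu 0))
    refine ⟨J', ?_, ?_⟩
    · refine continuous_pi fun i => ?_
      refine Fin.cases ?_ (fun i => ?_) i
      · exact hu 1
      · refine Fin.cases ?_ (fun i => ?_) i
        · exact hu 2
        · exact (continuous_apply i).comp hJ0
    · rintro ⟨x, t⟩ ⟨y, s⟩ h
      have h1 : uu (x 0) t 1 = uu (y 0) s 1 := congrFun h 0
      have h2 : uu (x 0) t 2 = uu (y 0) s 2 := congrFun h (Fin.succ 0)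
      have h3 : J (fun i => x i.succ, uu (x 0) t 0) = J (fun i => y i.succ, uu (y 0) s 0) := by
        funext i
        exact congrFun h (Fin.succ (Fin.succ i))
      have h4 := hinj h3
      have h5 : (fun i => x (Fin.succ i)) = fun i => y (Fin.succ i) := congrArg Prod.fst h4
      have h6 : uu (x 0) t 0 = uu (y 0) s 0 := congrArg Prod.snd h4
      have h7 : uu (x 0) t = uu (y 0) s := by
        ext i
        fin_cases i
        · exact h6
        · exact h1
        · exact h2
      obtain ⟨h8, h9⟩ := uu_inj h7
      have h10 : x = y := by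
        funext i
        refine Fin.cases h8 (fun i => ?_) i
        exact congrFun h5 i
      rw [h9, h10]

/-- An injective continuous map from the line to the interval. -/
noncomputable def ar (r : ℝ) : unitInterval :=
  ⟨Real.arctan r / Real.pi + 1 / 2, by
    have h1 := Real.neg_pi_div_two_lt_arctan r
    have h2 := Real.arctan_lt_pi_div_two r
    have h3 := Real.pi_pos
    have h4 : -(1 / 2) < Real.arctan r / Real.pi := by
      rw [lt_div_iff₀ h3]
      linarith
    have h5 : Real.arctan r / Real.pi < 1 / 2 := by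
      rw [div_lt_iff₀ h3]
      linarith
    constructor <;> linarith⟩

lemma ar_continuous : Continuous ar :=
  ((Real.continuous_arctan.div_const _).add continuous_const).subtype_mk _

lemma ar_injective : Function.Injective ar := by
  intro r s h
  have h1 : Real.arctan r / Real.pi + 1 / 2 = Real.arctan s / Real.pi + 1 / 2 :=
    congrArg Subtype.val h
  have h2 : Real.arctan r / Real.pi = Real.arctan s / Real.pi := by linarith
  exact Real.arctan_injective ((div_left_inj' Real.pi_pos.ne').1 h2)

/-- **EMB**. -/
theorem s_EMB : Pool.Agent.H252.EL.S_EMB := by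
  intro k d hd
  obtain ⟨J, hJ, hinj⟩ := exists_J k
  refine ⟨fun x i => if h : i.1 < 2 * k + 1 then ar (J (x, 0) ⟨i.1, h⟩) else 0, ?_, ?_⟩
  · refine continuous_pi fun i => ?_
    by_cases h : i.1 < 2 * k + 1
    · simp only [dif_pos h]
      exact ar_continuous.comp ((continuous_apply _).comp
        (hJ.comp (continuous_id.prodMk continuous_const)))
    · simp only [dif_neg h]
      exact continuous_const
  · intro x y h
    have h1 : J (x, 0) = J (y, 0) := by
      funext i
      have h2 := congrFun h ⟨i.1, lt_of_lt_of_le i.2 hd⟩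
      simp only [dif_pos i.2] at h2
      exact ar_injective h2
    exact congrArg Prod.fst (hinj h1)

end Pool.Agent.H415.ELEMB
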