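import Pool.Agent.H283.HT.Stm

/-! MP_eba1ef_gt, project HT, task PAR: polar parametrisation with the gauge. -/

set_option autoImplicit false

namespace Pool.Agent.H415.HTX

open Pool.Agent.H283.HT Topology

/-- the unit vector -/
noncomputable def e (θ : ℝ) : P2 := (Real.cos θ, Real.sin θ)

lemma e_cont : Continuous e := by unfold e; fun_prop

lemma e_ne (θ : ℝ) : e θ ≠ 0 := by
  intro h
  have h1 : Real.cos θ = 0 := congrArg Prod.fst h
  have h2 : Real.sin θ = 0 := congrArg Prod.snd h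
  have := Real.sin_sq_add_cos_sq θ
  rw [h1, h2] at this
  norm_num at this

lemma e_anti (θ : ℝ) : e (θ + Real.pi) = -e θ := by
  unfold e
  rw [Real.cos_add_pi, Real.sin_add_pi]
  rfl

theorem PAR_done : S_PAR := by
  intro Q hQ
  have hnhds : Q ∈ 𝓝 (0 : P2) := mem_interior_iff_mem_nhds.1 hQ.zero
  have hcl : IsClosed Q := hQ.comp.isClosed
  have hcont : Continuous (gauge Q) := continuous_gauge hQ.conv hnhds
  have habs : Absorbent ℝ Q := absorbent_nhds_zero hnhds
  have hbd : Bornology.IsVonNBounded ℝ Q := NormedSpace.isVonNBounded_of_isBounded ℝ hQ.comp.isBounded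
  have hpos : ∀ x : P2, x ≠ 0 → 0 < gauge Q x := fun x hx => (gauge_pos habs hbd).2 hx
  have hg : ∀ θ, 0 < gauge Q (e θ) := fun θ => hpos _ (e_ne θ)
  have hgq : ∀ θ, gauge Q ((gauge Q (e θ))⁻¹ • e θ) = 1 := fun θ => by
    rw [gauge_smul_of_nonneg (inv_nonneg.2 (hg θ).le), smul_eq_mul, inv_mul_cancel₀ (hg θ).ne']
  refine ⟨fun θ => (gauge Q (e θ))⁻¹ • e θ, ?_, ?_, ?_, ?_, ?_, ?_⟩
  · exact ((hcont.comp e_cont).inv₀ fun θ => (hg θ).ne').smul e_cont
  · intro θ
    exact ⟨(gauge Q (e θ))⁻¹, inv_pos.2 (hg θ), rfl⟩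
  · intro θ
    have h1 := (gauge_le_one_iff_mem_closure hQ.conv hnhds).1 (hgq θ).le
    rwa [hcl.closure_eq] at h1
  · intro θ c hc hmem
    have h1 := gauge_le_one_of_mem hmem
    rw [gauge_smul_of_nonneg (by linarith : (0 : ℝ) ≤ c), hgq θ, smul_eq_mul, mul_one] at h1
    linarith
  · intro θ
    change (gauge Q (e (θ + Real.pi)))⁻¹ • e (θ + Real.pi) = -((gauge Q (e θ))⁻¹ • e θ)
    rw [e_anti, gauge_neg hQ.sym, smul_neg]
  · intro p hp hpi
    have h1 : gauge Q p = 1 := by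
      apply le_antisymm (gauge_le_one_of_mem hp)
      by_contra h
      exact hpi ((gauge_lt_one_iff_mem_interior hQ.conv hnhds).1 (not_le.1 h))
    obtain ⟨w, hw⟩ : ∃ w : ℂ, w = ⟨p.1, p.2⟩ := ⟨_, rfl⟩
    refine ⟨w.arg, ?_⟩
    have h2 : p = ‖w‖ • e w.arg := by
      have h3 := Complex.norm_mul_cos_arg w
      have h4 := Complex.norm_mul_sin_arg w
      have h5 : w.re = p.1 := by rw [hw]
      have h6 : w.im = p.2 := by rw [hw]
      ext
      · change p.1 = ‖w‖ * Real.cos w.arg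
        rw [h3, h5]
      · change p.2 = ‖w‖ * Real.sin w.arg
        rw [h4, h6]
    have h3 : ‖w‖ * gauge Q (e w.arg) = 1 := by
      rw [← smul_eq_mul, ← gauge_smul_of_nonneg (norm_nonneg w), ← h2, h1]
    have h4 : ‖w‖ = (gauge Q (e w.arg))⁻¹ := eq_inv_of_mul_eq_one_left h3
    change (gauge Q (e w.arg))⁻¹ • e w.arg = p
    rw [← h4, ← h2]

end Pool.Agent.H415.HTX
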