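import Pool.Agent.H402.HD.Stm

/-!
# Project HD (helper402), piece SEL: families of bilinear forms of large rank take prescribed values
-/

set_option autoImplicit false

open Finset

namespace Pool.Agent.H415.HD_SEL

open Pool.Agent.H402.HD

universe u

/-! ### Linear algebra -/

lemma av' (h : S_av.{u}) {F : Type u} [Field F] {ι κ E M : Type} [Fintype ι] [Fintype κ]
    [Fintype E] [Fintype M] (w : ℕ) (φ : E → (ι → F) →ₗ[F] (κ → F)) (Φ : Submodule F (κ → F))
    (ψ : M → (ι → F) →ₗ[F] F) (c₀ : M → F) (u₀ : ι → F) (hΦ : Module.finrank F Φ ≤ w)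
    (h0 : ∀ i, ψ i u₀ = c₀ i)
    (h1 : ∀ u, (∀ i, ψ i u = c₀ i) → ∃ c : E → F, c ≠ 0 ∧ ∑ j, c j • φ j u ∈ Φ) :
    ∃ c : E → F, c ≠ 0 ∧ Module.finrank F (LinearMap.range (∑ j, c j • φ j)) ≤
      Fintype.card E + w + Fintype.card M := by
  classical
  obtain ⟨eE⟩ : Nonempty (E ≃ Fin (Fintype.card E)) := ⟨Fintype.equivFin E⟩
  obtain ⟨eM⟩ : Nonempty (M ≃ Fin (Fintype.card M)) := ⟨Fintype.equivFin M⟩
  obtain ⟨c, hc, hr⟩ := h F ι κ (Fintype.card E) w (Fintype.card M) (fun j => φ (eE.symm j)) Φ
    (fun i => ψ (eM.symm i)) (fun i => c₀ (eM.symm i)) u₀ hΦ (fun i => h0 _) (by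
      intro u hu
      obtain ⟨c, hc, hm⟩ := h1 u (fun i => by simpa using hu (eM i))
      refine ⟨fun j => c (eE.symm j), ?_, ?_⟩
      · intro h'
        apply hc
        funext j
        have := congrFun h' (eE j)
        simpa using this
      · have e1 : ∑ j, c (eE.symm j) • φ (eE.symm j) u = ∑ j, c j • φ j u :=
          Equiv.sum_comp eE.symm (fun j => c j • φ j u)
        rw [e1]
        exact hm)
  refine ⟨fun j => c (eE j), ?_, ?_⟩
  · intro h'
    apply hc
    funext j
    have := congrFun h' (eE.symm j)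
    simpa using this
  · have e1 : ∑ j, c (eE j) • φ j = ∑ j, c j • φ (eE.symm j) := by
      rw [← Equiv.sum_comp eE.symm (fun j => c (eE j) • φ j)]
      simp
    rw [e1]
    exact hr

lemma sum_ext {F : Type u} [Field F] {V I : Type*} [Fintype I] [AddCommGroup V] [Module F V]
    (P : I → Prop) [DecidablePred P] (c : {i // P i} → F) (v : I → V) :
    ∑ i, (if hi : P i then c ⟨i, hi⟩ else 0) • v i = ∑ i : {i // P i}, c i • v i := by
  calc ∑ i, (if hi : P i then c ⟨i, hi⟩ else 0) • v i
      = ∑ i ∈ univ.filter P, (if hi : P i then c ⟨i, hi⟩ else 0) • v i := by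
        rw [Finset.sum_filter]
        refine Finset.sum_congr rfl fun i _ => ?_
        by_cases hi : P i
        · rw [if_pos hi]
        · rw [if_neg hi, dif_neg hi, zero_smul]
    _ = ∑ i : {i // P i}, (if hi : P i.1 then c ⟨i.1, hi⟩ else 0) • v i.1 :=
        Finset.sum_subtype (univ.filter P) (by simp) _
    _ = ∑ i : {i // P i}, c i • v i :=
        Finset.sum_congr rfl fun i _ => by rw [dif_pos i.2]

/-- Vectors independent modulo `Λ` take prescribed values at some vector orthogonal to `Λ`. -/
lemma dual {F : Type u} [Field F] {X I : Type} [Fintype X] [Fintype I] (P : I → Prop)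
    (v : I → X → F) (Λ : Submodule F (X → F))
    (h : ∀ c : I → F, (∀ i, c i ≠ 0 → P i) → ∑ i, c i • v i ∈ Λ → c = 0) (τ : I → F) :
    ∃ u : X → F, (∀ l ∈ Λ, ∑ x, l x * u x = 0) ∧ ∀ i, P i → ∑ x, v i x * u x = τ i := by
  classical
  let T : ({i // P i} → F) →ₗ[F] ((X → F) ⧸ Λ) :=
    ∑ i, (LinearMap.proj i).smulRight (Λ.mkQ (v i))
  have hT : ∀ c, T c = Λ.mkQ (∑ i : {i // P i}, c i • v i) := by
    intro c
    rw [map_sum]
    simp only [T, LinearMap.sum_apply, LinearMap.smulRight_apply, LinearMap.proj_apply, map_smul]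
  have hker : LinearMap.ker T = ⊥ := by
    rw [LinearMap.ker_eq_bot']
    intro c hc
    rw [hT, Submodule.mkQ_apply, Submodule.Quotient.mk_eq_zero] at hc
    have hext := h (fun i => if hi : P i then c ⟨i, hi⟩ else 0) (by
      intro i hi
      by_contra hP
      exact hi (by simp [hP])) (by
      have e1 := sum_ext P c v
      rw [e1]
      exact hc)
    funext i
    have := congrFun hext i.1
    simpa [i.2] using this
  obtain ⟨g, hg⟩ := T.exists_leftInverse_of_injective hker
  let G : (X → F) →ₗ[F] F :=
    (∑ i : {i // P i}, τ i • (LinearMap.proj i : ({i // P i} → F) →ₗ[F] F)) ∘ₗ g ∘ₗ Λ.mkQ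
  have hG1 : ∀ l ∈ Λ, G l = 0 := by
    intro l hl
    have : Λ.mkQ l = 0 := by rwa [Submodule.mkQ_apply, Submodule.Quotient.mk_eq_zero]
    simp only [G, LinearMap.comp_apply, this, map_zero]
  have hG2 : ∀ i, P i → G (v i) = τ i := by
    intro i hi
    have e1 : Λ.mkQ (v i) = T (Pi.single ⟨i, hi⟩ 1) := by
      rw [hT]
      congr 1
      rw [Finset.sum_eq_single (⟨i, hi⟩ : {i // P i})]
      · simp
      · intro j _ hj
        rw [Pi.single_eq_of_ne hj, zero_smul]
      · intro h'
        exact absurd (mem_univ _) h'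
    have e2 : g (T (Pi.single ⟨i, hi⟩ 1)) = Pi.single ⟨i, hi⟩ 1 := by
      have := LinearMap.congr_fun hg (Pi.single ⟨i, hi⟩ 1)
      simpa using this
    simp only [G, LinearMap.comp_apply, e1, e2, LinearMap.sum_apply, LinearMap.smul_apply,
      LinearMap.proj_apply, smul_eq_mul]
    rw [Finset.sum_eq_single (⟨i, hi⟩ : {i // P i})]
    · simp
    · intro j _ hj
      rw [Pi.single_eq_of_ne hj, mul_zero]
    · intro h'
      exact absurd (mem_univ _) h'
  have hG3 : ∀ l, G l = ∑ x, l x * G (Pi.single x 1) := by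
    intro l
    have e1 : l = ∑ x, l x • (Pi.single x (1 : F) : X → F) := by
      funext y
      rw [Finset.sum_apply, Finset.sum_eq_single y]
      · simp
      · intro j _ hj
        simp [Pi.single_eq_of_ne (Ne.symm hj)]
      · intro h'
        exact absurd (mem_univ _) h'
    conv_lhs => rw [e1]
    rw [map_sum]
    exact Finset.sum_congr rfl fun x _ => by rw [map_smul, smul_eq_mul]
  exact ⟨fun x => G (Pi.single x 1), fun l hl => (hG3 l).symm.trans (hG1 l hl),
    fun i hi => (hG3 (v i)).symm.trans (hG2 i hi)⟩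

lemma rk_mono {F : Type u} {X : Type} [Field F] {A : X → X → F} {r N : ℕ} (h : Rk A r)
    (hr : r ≤ N) : Rk A N := by
  obtain ⟨f, g, hfg⟩ := h
  obtain ⟨d, rfl⟩ := Nat.exists_eq_add_of_le hr
  refine ⟨Fin.append f 0, Fin.append g 0, ?_⟩
  intro x y
  rw [hfg, Fin.sum_univ_add]
  simp [Fin.append_left, Fin.append_right]

lemma rk_swap {F : Type u} {X : Type} [Field F] {A : X → X → F} {N : ℕ} (h : Rk A N) :
    Rk (fun x y => A y x) N := by
  obtain ⟨f, g, hfg⟩ := h
  exact ⟨g, f, fun x y => (hfg y x).trans (Finset.sum_congr rfl fun i _ => mul_comm _ _)⟩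

lemma rk_of_range {F : Type u} {X : Type} [Field F] [Fintype X] [DecidableEq X]
    (L : (X → F) →ₗ[F] (X → F)) (N : ℕ) (h : Module.finrank F (LinearMap.range L) ≤ N) :
    Rk (fun x y => L (Pi.single x 1) y) N := by
  refine rk_mono ?_ h
  refine ⟨fun i x => (Module.finBasis F (LinearMap.range L)).repr
    ⟨L (Pi.single x 1), LinearMap.mem_range_self _ _⟩ i,
    fun i y => ((Module.finBasis F (LinearMap.range L)) i : X → F) y, ?_⟩
  intro x y
  have h1 := (Module.finBasis F (LinearMap.range L)).sum_repr
    ⟨L (Pi.single x 1), LinearMap.mem_range_self _ _⟩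
  have h2 := congrArg (fun z : LinearMap.range L => (z : X → F) y) h1
  refine h2.symm.trans ?_
  rw [Submodule.coe_sum, Finset.sum_apply]
  exact Finset.sum_congr rfl fun i _ => rfl

/-! ### The forms -/

section forms

variable {F : Type u} [Field F] {X : Type} [Fintype X] {D t s k : ℕ}

/-- The other direction of the form `j`. -/
def pt (p q : Fin t → Fin D) (j : Fin t) (α : Fin D) : Fin D := if p j = α then q j else p j

/-- The functional obtained from the form `j` by plugging in `u` in the direction `α`. -/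
noncomputable def ev (p : Fin t → Fin D) (β : Fin t → X → X → F) (j : Fin t) (α : Fin D) :
    (X → F) →ₗ[F] (X → F) where
  toFun u := if p j = α then (fun y => ∑ x, u x * β j x y) else (fun x => ∑ y, β j x y * u y)
  map_add' u v := by
    split_ifs
    · funext y
      simp only [Pi.add_apply, add_mul, Finset.sum_add_distrib]
    · funext x
      simp only [Pi.add_apply, mul_add, Finset.sum_add_distrib]
  map_smul' c u := by
    split_ifs
    · funext y
      simp only [Pi.smul_apply, smul_eq_mul, RingHom.id_apply, Finset.mul_sum, mul_assoc]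
    · funext x
      simp only [Pi.smul_apply, smul_eq_mul, RingHom.id_apply, Finset.mul_sum]
      exact Finset.sum_congr rfl fun y _ => by ring

lemma ev_pos {p : Fin t → Fin D} (β : Fin t → X → X → F) {j : Fin t} {α : Fin D} (h : p j = α)
    (u : X → F) : ev p β j α u = fun y => ∑ x, u x * β j x y := if_pos h

lemma ev_neg {p : Fin t → Fin D} (β : Fin t → X → X → F) {j : Fin t} {α : Fin D} (h : p j ≠ α)
    (u : X → F) : ev p β j α u = fun x => ∑ y, β j x y * u y := if_neg h

/-- The supports of the invariant. -/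
def Pc (p q : Fin t → Fin D) (C : Finset (Fin D × Fin k)) (α : Fin D) (i : Fin t × Fin k) : Prop :=
  (p i.1 = α ∨ q i.1 = α) ∧ (pt p q i.1 α, i.2) ∈ C

/-- The invariant. -/
def Inv (p q : Fin t → Fin D) (β : Fin t → X → X → F) (lam : Fin D → Fin s → X → F)
    (tg : Fin t → Fin k → Fin k → F) (C : Finset (Fin D × Fin k)) (u : Fin D → Fin k → X → F) :
    Prop :=
  (∀ j a b, (p j, a) ∈ C → (q j, b) ∈ C →
    ∑ x, ∑ y, u (p j) a x * u (q j) b y * β j x y = tg j a b) ∧
  (∀ α i a, (α, a) ∈ C → ∑ x, lam α i x * u α a x = 0) ∧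
  (∀ α (c : Fin t × Fin k → F), (∀ i, c i ≠ 0 → Pc p q C α i) →
    ∑ i, c i • ev p β i.1 (pt p q i.1 α) (u (pt p q i.1 α) i.2) ∈
      Submodule.span F (Set.range (lam α)) → c = 0)

lemma Inv_empty (p q : Fin t → Fin D) (β : Fin t → X → X → F) (lam : Fin D → Fin s → X → F)
    (tg : Fin t → Fin k → Fin k → F) (u : Fin D → Fin k → X → F) :
    Inv p q β lam tg ∅ u := by
  refine ⟨fun j a b h => absurd h (Finset.notMem_empty _),
    fun α i a h => absurd h (Finset.notMem_empty _), fun α c hc _ => ?_⟩
  funext i
  by_contra h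
  exact Finset.notMem_empty _ (hc i h).2

open Classical in
/-- The vectors spanning the forbidden space in the direction `α`. -/
noncomputable def gens (p q : Fin t → Fin D) (β : Fin t → X → X → F) (lam : Fin D → Fin s → X → F)
    (C : Finset (Fin D × Fin k)) (u : Fin D → Fin k → X → F) (α : Fin D) :
    Fin s ⊕ (Fin t × Fin k) → X → F
  | Sum.inl i => lam α i
  | Sum.inr i => if Pc p q C α i then ev p β i.1 (pt p q i.1 α) (u (pt p q i.1 α) i.2) else 0

/-- The forbidden space in the direction `α`. -/
noncomputable def Wd (p q : Fin t → Fin D) (β : Fin t → X → X → F) (lam : Fin D → Fin s → X → F)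
    (C : Finset (Fin D × Fin k)) (u : Fin D → Fin k → X → F) (α : Fin D) :
    Submodule F (X → F) := Submodule.span F (Set.range (gens p q β lam C u α))

lemma Wd_finrank (p q : Fin t → Fin D) (β : Fin t → X → X → F) (lam : Fin D → Fin s → X → F)
    (C : Finset (Fin D × Fin k)) (u : Fin D → Fin k → X → F) (α : Fin D) :
    Module.finrank F (Wd p q β lam C u α) ≤ s + t * k := by
  have h := finrank_range_le_card (R := F) (gens p q β lam C u α)
  rw [Fintype.card_sum, Fintype.card_prod, Fintype.card_fin, Fintype.card_fin,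
    Fintype.card_fin] at h
  exact h

lemma span_le_Wd (p q : Fin t → Fin D) (β : Fin t → X → X → F) (lam : Fin D → Fin s → X → F)
    (C : Finset (Fin D × Fin k)) (u : Fin D → Fin k → X → F) (α : Fin D) :
    Submodule.span F (Set.range (lam α)) ≤ Wd p q β lam C u α := by
  refine Submodule.span_mono ?_
  rintro _ ⟨i, rfl⟩
  exact ⟨Sum.inl i, rfl⟩

lemma mem_Wd (p q : Fin t → Fin D) (β : Fin t → X → X → F) (lam : Fin D → Fin s → X → F)
    (C : Finset (Fin D × Fin k)) (u : Fin D → Fin k → X → F) (α : Fin D) (i : Fin t × Fin k)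
    (h : Pc p q C α i) :
    ev p β i.1 (pt p q i.1 α) (u (pt p q i.1 α) i.2) ∈ Wd p q β lam C u α := by
  refine Submodule.subset_span ⟨Sum.inr i, ?_⟩
  exact if_pos h

/-- The forbidden space. -/
noncomputable def Ph (W : Fin D → Submodule F (X → F)) : Submodule F (Fin D × X → F) where
  carrier := {v | ∀ α, (fun x => v (α, x)) ∈ W α}
  add_mem' ha hb α := (W α).add_mem (ha α) (hb α)
  zero_mem' α := (W α).zero_mem
  smul_mem' c _ ha α := (W α).smul_mem c (ha α)

lemma Ph_finrank (W : Fin D → Submodule F (X → F)) (n : ℕ)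
    (h : ∀ α, Module.finrank F (W α) ≤ n) : Module.finrank F (Ph W) ≤ D * n := by
  let f : Ph W →ₗ[F] (∀ α, W α) :=
    { toFun := fun v α => ⟨fun x => v.1 (α, x), v.2 α⟩
      map_add' := fun _ _ => rfl
      map_smul' := fun _ _ => rfl }
  have hf : Function.Injective f := by
    intro v v' hv
    apply Subtype.ext
    funext ⟨α, x⟩
    have h1 := congrArg Subtype.val (congrFun hv α)
    exact congrFun h1 x
  calc Module.finrank F (Ph W) ≤ Module.finrank F (∀ α, W α) :=
        LinearMap.finrank_le_finrank_of_injective hf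
    _ = ∑ α, Module.finrank F (W α) := Module.finrank_pi_fintype F
    _ ≤ ∑ _α : Fin D, n := Finset.sum_le_sum fun α _ => h α
    _ = D * n := by simp

/-- The maps `φ j`. -/
noncomputable def ph (p q : Fin t → Fin D) (β : Fin t → X → X → F) (α : Fin D) (j : Fin t) :
    (X → F) →ₗ[F] (Fin D × X → F) where
  toFun u := fun z => if z.1 = pt p q j α then ev p β j α u z.2 else 0
  map_add' u v := by
    funext z
    simp only [Pi.add_apply, map_add]
    split_ifs <;> simp
  map_smul' c u := by
    funext z
    simp only [Pi.smul_apply, map_smul, smul_eq_mul, RingHom.id_apply]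
    split_ifs <;> simp

lemma ph_apply (p q : Fin t → Fin D) (β : Fin t → X → X → F) (α : Fin D) (j : Fin t)
    (u : X → F) (z : Fin D × X) :
    ph p q β α j u z = if z.1 = pt p q j α then ev p β j α u z.2 else 0 := rfl

/-- The functional of a vector. -/
def dot (l : X → F) : (X → F) →ₗ[F] F where
  toFun u := ∑ x, l x * u x
  map_add' u v := by simp only [Pi.add_apply, mul_add, Finset.sum_add_distrib]
  map_smul' c u := by
    simp only [Pi.smul_apply, smul_eq_mul, RingHom.id_apply, Finset.mul_sum]
    exact Finset.sum_congr rfl fun y _ => by ring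

/-- The projection to a direction. -/
def prj (α : Fin D) : (Fin D × X → F) →ₗ[F] (X → F) where
  toFun v := fun x => v (α, x)
  map_add' _ _ := rfl
  map_smul' _ _ := rfl

omit [Fintype X] in
lemma prj_apply (α : Fin D) (v : Fin D × X → F) (x : X) : prj α v x = v (α, x) := rfl

/-- The rank of the component in a direction. -/
lemma comp_rank {p q : Fin t → Fin D} (hpq : ∀ j, p j < q j) (β : Fin t → X → X → F) (N : ℕ)
    (hrk : ∀ (α α' : Fin D) (c : Fin t → F), c ≠ 0 → (∀ j, c j ≠ 0 → p j = α ∧ q j = α') →
      ¬ Rk (fun x y => ∑ j, c j * β j x y) N) (α : Fin D)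
    (c : {j : Fin t // p j = α ∨ q j = α} → F) (hc : c ≠ 0)
    (hr : Module.finrank F (LinearMap.range (∑ j, c j • ph p q β α j.1)) ≤ N) : False := by
  classical
  obtain ⟨j0, hj0⟩ : ∃ j0, c j0 ≠ 0 := by
    by_contra h
    push Not at h
    exact hc (funext h)
  obtain ⟨α', hα'⟩ : ∃ α', α' = pt p q j0.1 α := ⟨_, rfl⟩
  let L : (X → F) →ₗ[F] (X → F) := prj α' ∘ₗ (∑ j, c j • ph p q β α j.1)
  have hL : Module.finrank F (LinearMap.range L) ≤ N := by
    refine le_trans ?_ hr
    rw [LinearMap.range_comp]
    exact Submodule.finrank_map_le _ _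
  let c' : Fin t → F := fun j =>
    if hj : p j = α ∨ q j = α then (if pt p q j α = α' then c ⟨j, hj⟩ else 0) else 0
  have hc' : ∀ j, c' j ≠ 0 → (p j = α ∨ q j = α) ∧ pt p q j α = α' := by
    intro j hj
    simp only [c'] at hj
    split_ifs at hj with h1 h2
    · exact ⟨h1, h2⟩
    · exact absurd rfl hj
    · exact absurd rfl hj
  have hc'0 : c' ≠ 0 := by
    intro h
    have := congrFun h j0.1
    simp only [c', dif_pos j0.2, ← hα', if_true] at this
    exact hj0 this
  have hLx : ∀ u x, L u x = ∑ j, c' j * ev p β j α u x := by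
    intro u x
    have e1 : L u x = ∑ j : {j : Fin t // p j = α ∨ q j = α},
        c j * (if α' = pt p q j.1 α then ev p β j.1 α u x else 0) := by
      simp only [L, LinearMap.comp_apply, LinearMap.sum_apply, LinearMap.smul_apply, prj_apply,
        Finset.sum_apply, Pi.smul_apply, smul_eq_mul, ph_apply]
    have e2 := sum_ext (fun j : Fin t => p j = α ∨ q j = α) c
      (fun j => if α' = pt p q j α then ev p β j α u x else 0)
    simp only [smul_eq_mul] at e2
    rw [e1, ← e2]
    refine Finset.sum_congr rfl fun j _ => ?_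
    simp only [c']
    by_cases h1 : p j = α ∨ q j = α
    · rw [dif_pos h1, dif_pos h1]
      by_cases h2 : pt p q j α = α'
      · rw [if_pos h2, if_pos h2.symm]
      · rw [if_neg h2, if_neg (fun h => h2 h.symm), mul_zero, zero_mul]
    · rw [dif_neg h1, dif_neg h1, zero_mul, zero_mul]
  have hR := rk_of_range L N hL
  by_cases hp : p j0.1 = α
  · have ha : α' = q j0.1 := by rw [hα', pt, if_pos hp]
    have hdir : ∀ j, c' j ≠ 0 → p j = α ∧ q j = α' := by
      intro j hj
      obtain ⟨h1, h2⟩ := hc' j hj
      unfold pt at h2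
      split_ifs at h2 with h3
      · exact ⟨h3, h2⟩
      · exfalso
        have h4 := h1.resolve_left h3
        have h5 := hpq j
        have h6 := hpq j0.1
        rw [h4, h2, ha] at h5
        rw [hp] at h6
        exact lt_asymm h5 h6
    refine hrk α α' c' hc'0 hdir ?_
    have : (fun x y => ∑ j, c' j * β j x y) = fun x y => L (Pi.single x 1) y := by
      funext x y
      rw [hLx]
      refine Finset.sum_congr rfl fun j _ => ?_
      by_cases hj : c' j = 0
      · rw [hj, zero_mul, zero_mul]
      · rw [ev_pos β (hdir j hj).1]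
        congr 1
        beta_reduce
        rw [Finset.sum_eq_single x]
        · simp
        · intro x' _ hx'
          rw [Pi.single_eq_of_ne hx', zero_mul]
        · intro h'
          exact absurd (mem_univ _) h'
    rw [this]
    exact hR
  · have hq := j0.2.resolve_left hp
    have ha : α' = p j0.1 := by rw [hα', pt, if_neg hp]
    have hdir : ∀ j, c' j ≠ 0 → p j = α' ∧ q j = α := by
      intro j hj
      obtain ⟨h1, h2⟩ := hc' j hj
      unfold pt at h2
      split_ifs at h2 with h3
      · exfalso
        have h5 := hpq j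
        have h6 := hpq j0.1
        rw [h3, h2, ha] at h5
        rw [hq] at h6
        exact lt_asymm h5 h6
      · exact ⟨h2, h1.resolve_left h3⟩
    refine hrk α' α c' hc'0 hdir ?_
    have : (fun x y => ∑ j, c' j * β j x y) = fun x y => (fun y x => L (Pi.single y 1) x) y x := by
      funext x y
      simp only
      rw [hLx]
      refine Finset.sum_congr rfl fun j _ => ?_
      by_cases hj : c' j = 0
      · rw [hj, zero_mul, zero_mul]
      · have hne : p j ≠ α := by
          have := hdir j hj
          have h5 := hpq j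
          rw [this.2] at h5
          exact h5.ne
        rw [ev_neg β hne]
        congr 1
        beta_reduce
        rw [Finset.sum_eq_single y]
        · simp
        · intro x' _ hx'
          rw [Pi.single_eq_of_ne hx', mul_zero]
        · intro h'
          exact absurd (mem_univ _) h'
    rw [this]
    exact rk_swap hR

/-- Existence of the new vector. -/
lemma exists_good (h : S_av.{u}) {p q : Fin t → Fin D} (hpq : ∀ j, p j < q j)
    (β : Fin t → X → X → F) (lam : Fin D → Fin s → X → F) (N : ℕ)
    (hN : t + D * (s + t * k) + (s + t * k) ≤ N)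
    (hrk : ∀ (α α' : Fin D) (c : Fin t → F), c ≠ 0 → (∀ j, c j ≠ 0 → p j = α ∧ q j = α') →
      ¬ Rk (fun x y => ∑ j, c j * β j x y) N)
    (C : Finset (Fin D × Fin k)) (u : Fin D → Fin k → X → F) (α : Fin D)
    (h3 : ∀ (c : Fin t × Fin k → F), (∀ i, c i ≠ 0 → Pc p q C α i) →
      ∑ i, c i • ev p β i.1 (pt p q i.1 α) (u (pt p q i.1 α) i.2) ∈
        Submodule.span F (Set.range (lam α)) → c = 0)
    (τ : Fin t × Fin k → F) :
    ∃ v : X → F, (∀ i, ∑ x, lam α i x * v x = 0) ∧
      (∀ i, Pc p q C α i →
        ∑ x, ev p β i.1 (pt p q i.1 α) (u (pt p q i.1 α) i.2) x * v x = τ i) ∧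
      ∀ c : {j : Fin t // p j = α ∨ q j = α} → F,
        ∑ j, c j • ph p q β α j.1 v ∈ Ph (Wd p q β lam C u) → c = 0 := by
  classical
  by_contra hcon
  push Not at hcon
  obtain ⟨u₀, hu1, hu2⟩ := dual (Pc p q C α)
    (fun i => ev p β i.1 (pt p q i.1 α) (u (pt p q i.1 α) i.2))
    (Submodule.span F (Set.range (lam α))) h3 τ
  let ψ : Fin s ⊕ (Fin t × Fin k) → (X → F) →ₗ[F] F := fun m => dot (gens p q β lam C u α m)
  let c₀ : Fin s ⊕ (Fin t × Fin k) → F :=
    Sum.elim (fun _ => 0) (fun i => if Pc p q C α i then τ i else 0)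
  have hψ : ∀ v : X → F, (∀ m, ψ m v = c₀ m) ↔ (∀ i, ∑ x, lam α i x * v x = 0) ∧
      (∀ i, Pc p q C α i →
        ∑ x, ev p β i.1 (pt p q i.1 α) (u (pt p q i.1 α) i.2) x * v x = τ i) := by
    intro v
    constructor
    · intro hv
      refine ⟨fun i => hv (Sum.inl i), fun i hi => ?_⟩
      have h4 := hv (Sum.inr i)
      have h5 : c₀ (Sum.inr i) = τ i := if_pos hi
      have h6 : gens p q β lam C u α (Sum.inr i) =
        ev p β i.1 (pt p q i.1 α) (u (pt p q i.1 α) i.2) := if_pos hi
      rw [h5] at h4
      simp only [ψ, h6] at h4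
      exact h4
    · rintro ⟨hv1, hv2⟩ m
      rcases m with i | i
      · exact hv1 i
      · by_cases hi : Pc p q C α i
        · have h5 : c₀ (Sum.inr i) = τ i := if_pos hi
          have h6 : gens p q β lam C u α (Sum.inr i) =
            ev p β i.1 (pt p q i.1 α) (u (pt p q i.1 α) i.2) := if_pos hi
          rw [h5]
          simp only [ψ, h6]
          exact hv2 i hi
        · have h5 : c₀ (Sum.inr i) = 0 := if_neg hi
          have h6 : gens p q β lam C u α (Sum.inr i) = 0 := if_neg hi
          rw [h5]
          simp only [ψ, h6]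
          show ∑ x, (0 : X → F) x * v x = 0
          simp
  obtain ⟨c, hc, hr⟩ := av' h (D * (s + t * k))
    (fun j : {j : Fin t // p j = α ∨ q j = α} => ph p q β α j.1) (Ph (Wd p q β lam C u)) ψ c₀ u₀
    (Ph_finrank _ _ fun α' => Wd_finrank p q β lam C u α')
    ((hψ u₀).2 ⟨fun i => hu1 _ (Submodule.subset_span ⟨i, rfl⟩), hu2⟩)
    (by
      intro v hv
      obtain ⟨hv1, hv2⟩ := (hψ v).1 hv
      obtain ⟨c, hc1, hc2⟩ := hcon v hv1 hv2
      exact ⟨c, hc2, hc1⟩)
  refine comp_rank hpq β N hrk α c hc (hr.trans (le_trans ?_ hN))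
  have h7 : Fintype.card {j : Fin t // p j = α ∨ q j = α} ≤ t := by
    have := Fintype.card_subtype_le (fun j : Fin t => p j = α ∨ q j = α)
    rwa [Fintype.card_fin] at this
  have h8 : Fintype.card (Fin s ⊕ (Fin t × Fin k)) = s + t * k := by simp
  rw [h8]
  omega

/-- The updated family. -/
def upd (u : Fin D → Fin k → X → F) (α : Fin D) (a : Fin k) (v : X → F) : Fin D → Fin k → X → F :=
  fun α' b => if α' = α ∧ b = a then v else u α' b

omit [Fintype X] [Field F] in
lemma upd_self (u : Fin D → Fin k → X → F) (α : Fin D) (a : Fin k) (v : X → F) :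
    upd u α a v α a = v := if_pos ⟨rfl, rfl⟩

omit [Fintype X] [Field F] in
lemma upd_of_mem (u : Fin D → Fin k → X → F) (α : Fin D) (a : Fin k) (v : X → F)
    {C : Finset (Fin D × Fin k)} (hC : (α, a) ∉ C) {α' : Fin D} {b : Fin k} (h : (α', b) ∈ C) :
    upd u α a v α' b = u α' b := by
  refine if_neg ?_
  rintro ⟨rfl, rfl⟩
  exact hC h

/-- The step. -/
lemma step (h : S_av.{u}) {p q : Fin t → Fin D} (hpq : ∀ j, p j < q j)
    (β : Fin t → X → X → F) (lam : Fin D → Fin s → X → F) (tg : Fin t → Fin k → Fin k → F) (N : ℕ)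
    (hN : t + D * (s + t * k) + (s + t * k) ≤ N)
    (hrk : ∀ (α α' : Fin D) (c : Fin t → F), c ≠ 0 → (∀ j, c j ≠ 0 → p j = α ∧ q j = α') →
      ¬ Rk (fun x y => ∑ j, c j * β j x y) N)
    (C : Finset (Fin D × Fin k)) (u : Fin D → Fin k → X → F) (hI : Inv p q β lam tg C u)
    (α : Fin D) (a : Fin k) (hC : (α, a) ∉ C) :
    ∃ u', Inv p q β lam tg (insert (α, a) C) u' := by
  classical
  obtain ⟨h1, h2, h3⟩ := hI
  obtain ⟨v, v1, v2, v3⟩ := exists_good h hpq β lam N hN hrk C u α (h3 α)
    (fun i => if p i.1 = α then tg i.1 a i.2 else tg i.1 i.2 a)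
  refine ⟨upd u α a v, ?_, ?_, ?_⟩
  · intro j a' b hj hj'
    rw [Finset.mem_insert] at hj hj'
    have hne : p j ≠ q j := (hpq j).ne
    rcases hj with hj | hj
    · have e1 : p j = α := congrArg Prod.fst hj
      have e2 : a' = a := congrArg Prod.snd hj
      have hj'' : (q j, b) ∈ C := by
        rcases hj' with hj' | hj'
        · exact absurd (e1.trans (congrArg Prod.fst hj').symm) hne
        · exact hj'
      subst e2
      have hP : Pc p q C α (j, b) := by
        refine ⟨Or.inl e1, ?_⟩
        show (pt p q j α, b) ∈ C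
        rw [pt, if_pos e1]
        exact hj''
      have h4 := v2 (j, b) hP
      have e3 : pt p q j α = q j := if_pos e1
      simp only [e3, if_pos e1] at h4
      rw [ev_neg β hne] at h4
      rw [upd_of_mem u α a' v hC hj'', e1, upd_self]
      rw [← h4]
      refine Finset.sum_congr rfl fun x _ => ?_
      rw [Finset.sum_mul]
      exact Finset.sum_congr rfl fun y _ => by ring
    · rcases hj' with hj' | hj'
      · have e1 : q j = α := congrArg Prod.fst hj'
        have e2 : b = a := congrArg Prod.snd hj'
        subst e2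
        have hpa : p j ≠ α := fun h' => hne (h'.trans e1.symm)
        have e3 : pt p q j α = p j := if_neg hpa
        have hP : Pc p q C α (j, a') := by
          refine ⟨Or.inr e1, ?_⟩
          show (pt p q j α, a') ∈ C
          rw [e3]
          exact hj
        have h4 := v2 (j, a') hP
        simp only [e3, if_neg hpa] at h4
        rw [ev_pos β rfl] at h4
        rw [upd_of_mem u α b v hC hj, e1, upd_self]
        rw [← h4, Finset.sum_comm]
        refine Finset.sum_congr rfl fun x _ => ?_
        rw [Finset.sum_mul]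
        exact Finset.sum_congr rfl fun y _ => by ring
      · rw [upd_of_mem u α a v hC hj, upd_of_mem u α a v hC hj']
        exact h1 j a' b hj hj'
  · intro α' i b hb
    rw [Finset.mem_insert] at hb
    rcases hb with hb | hb
    · have e1 : α' = α := congrArg Prod.fst hb
      have e2 : b = a := congrArg Prod.snd hb
      subst e1 e2
      rw [upd_self]
      exact v1 i
    · rw [upd_of_mem u α a v hC hb]
      exact h2 α' i b hb
  · intro α' c hc hm
    -- the new and the old part
    have hnew : ∀ i : Fin t × Fin k, c i ≠ 0 → ¬ (pt p q i.1 α' = α ∧ i.2 = a) →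
        Pc p q C α' i := by
      intro i hi hn
      obtain ⟨h4, h5⟩ := hc i hi
      rw [Finset.mem_insert] at h5
      rcases h5 with h5 | h5
      · exact absurd ⟨congrArg Prod.fst h5, congrArg Prod.snd h5⟩ hn
      · exact ⟨h4, h5⟩
    have hsplit : ∑ i : Fin t × Fin k, c i •
          ev p β i.1 (pt p q i.1 α') (upd u α a v (pt p q i.1 α') i.2) =
        ∑ i : Fin t × Fin k, (if pt p q i.1 α' = α ∧ i.2 = a then c i • ev p β i.1 α v else 0) +
        ∑ i : Fin t × Fin k, (if pt p q i.1 α' = α ∧ i.2 = a then 0 else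
          c i • ev p β i.1 (pt p q i.1 α') (u (pt p q i.1 α') i.2)) := by
      rw [← Finset.sum_add_distrib]
      refine Finset.sum_congr rfl fun i _ => ?_
      by_cases hi : pt p q i.1 α' = α ∧ i.2 = a
      · rw [if_pos hi, if_pos hi, add_zero, hi.1, hi.2, upd_self]
      · rw [if_neg hi, if_neg hi, zero_add]
        have : upd u α a v (pt p q i.1 α') i.2 = u (pt p q i.1 α') i.2 := if_neg hi
        rw [this]
    have hold : ∑ i : Fin t × Fin k, (if pt p q i.1 α' = α ∧ i.2 = a then 0 else
          c i • ev p β i.1 (pt p q i.1 α') (u (pt p q i.1 α') i.2)) ∈ Wd p q β lam C u α' := by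
      refine Submodule.sum_mem _ fun i _ => ?_
      by_cases hi : pt p q i.1 α' = α ∧ i.2 = a
      · rw [if_pos hi]
        exact Submodule.zero_mem _
      · rw [if_neg hi]
        by_cases hci : c i = 0
        · rw [hci, zero_smul]
          exact Submodule.zero_mem _
        · exact Submodule.smul_mem _ _ (mem_Wd p q β lam C u α' i (hnew i hci hi))
    have hnewm : ∑ i : Fin t × Fin k,
        (if pt p q i.1 α' = α ∧ i.2 = a then c i • ev p β i.1 α v else 0) ∈
        Wd p q β lam C u α' := by
      have h4 := span_le_Wd p q β lam C u α' hm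
      rw [hsplit] at h4
      exact (Submodule.add_mem_iff_left _ hold).1 h4
    -- directions: `pt j α' = α` and `j` at `α'` iff `pt j α = α'` and `j` at `α`
    have hdir : ∀ j, (p j = α' ∨ q j = α') → pt p q j α' = α →
        (p j = α ∨ q j = α) ∧ pt p q j α = α' := by
      intro j h4 h5
      have hne : p j ≠ q j := (hpq j).ne
      unfold pt at h5 ⊢
      split_ifs at h5 with h6
      · have h7 : p j ≠ α := fun h' => hne (h'.trans h5.symm)
        rw [if_neg h7]
        exact ⟨Or.inr h5, h6⟩
      · rw [if_pos h5]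
        exact ⟨Or.inl h5, h4.resolve_left h6⟩
    have hz := v3 (fun j => if pt p q j.1 α = α' ∧ (p j.1 = α' ∨ q j.1 = α') ∧
        pt p q j.1 α' = α then c (j.1, a) else 0) (by
      intro α''
      have e1 : (fun x => (∑ j : {j : Fin t // p j = α ∨ q j = α},
          (if pt p q j.1 α = α' ∧ (p j.1 = α' ∨ q j.1 = α') ∧ pt p q j.1 α' = α
            then c (j.1, a) else 0) • ph p q β α j.1 v) (α'', x)) =
          if α'' = α' then ∑ i : Fin t × Fin k,
            (if pt p q i.1 α' = α ∧ i.2 = a then c i • ev p β i.1 α v else 0) else 0 := by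
        funext x
        rw [Finset.sum_apply]
        simp only [Pi.smul_apply, smul_eq_mul, ph_apply]
        have e2 := sum_ext (fun j : Fin t => p j = α ∨ q j = α)
          (fun j => if pt p q j.1 α = α' ∧ (p j.1 = α' ∨ q j.1 = α') ∧ pt p q j.1 α' = α
            then c (j.1, a) else 0)
          (fun j => if α'' = pt p q j α then ev p β j α v x else 0)
        simp only [smul_eq_mul] at e2
        rw [← e2]
        by_cases hα : α'' = α'
        · rw [if_pos hα, Finset.sum_apply, Fintype.sum_prod_type]
          refine Finset.sum_congr rfl fun j _ => ?_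
          simp only
          rw [Finset.sum_eq_single a]
          · by_cases h5 : pt p q j α' = α
            · have r1 : (if pt p q j α' = α ∧ a = a then c (j, a) • ev p β j α v
                  else (0 : X → F)) = c (j, a) • ev p β j α v := if_pos ⟨h5, rfl⟩
              rw [r1]
              by_cases h4 : c (j, a) = 0
              · rw [h4]
                simp
              · have h6 := (hc (j, a) h4).1
                have h7 := hdir j h6 h5
                rw [dif_pos h7.1, if_pos ⟨h7.2, h6, h5⟩, if_pos (hα.trans h7.2.symm)]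
                rfl
            · have r1 : (if pt p q j α' = α ∧ a = a then c (j, a) • ev p β j α v
                  else (0 : X → F)) = 0 := if_neg (fun h' => h5 h'.1)
              rw [r1]
              by_cases h4 : p j = α ∨ q j = α
              · rw [dif_pos h4, if_neg (fun h' => h5 h'.2.2), zero_mul]
                rfl
              · rw [dif_neg h4, zero_mul]
                rfl
          · intro b _ hb
            rw [if_neg (fun h' => hb h'.2)]
            rfl
          · intro h'
            exact absurd (mem_univ _) h'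
        · rw [if_neg hα]
          refine (Finset.sum_eq_zero fun j _ => ?_)
          by_cases h4 : p j = α ∨ q j = α
          · rw [dif_pos h4]
            by_cases h5 : pt p q j α = α'
            · have r2 : (if α'' = pt p q j α then ev p β j α v x else 0) = 0 :=
                if_neg (fun h' => hα (h'.trans h5))
              rw [r2, mul_zero]
            · rw [if_neg (fun h' => h5 h'.1), zero_mul]
          · rw [dif_neg h4, zero_mul]
      rw [e1]
      by_cases hα : α'' = α'
      · rw [if_pos hα, hα]
        exact hnewm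
      · rw [if_neg hα]
        exact Submodule.zero_mem _)
    have hzero : ∀ i : Fin t × Fin k, (pt p q i.1 α' = α ∧ i.2 = a) → c i = 0 := by
      rintro ⟨j, b⟩ ⟨h5, h6⟩
      simp only at h5 h6
      subst h6
      by_contra h4
      have h6 := (hc (j, b) h4).1
      have h7 := hdir j h6 h5
      have h8 := congrFun hz ⟨j, h7.1⟩
      simp only at h8
      rw [if_pos ⟨h7.2, h6, h5⟩] at h8
      exact h4 h8
    refine h3 α' c ?_ ?_
    · intro i hi
      exact hnew i hi fun h' => hi (hzero i h')
    · have e1 : ∑ i : Fin t × Fin k, c i •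
            ev p β i.1 (pt p q i.1 α') (upd u α a v (pt p q i.1 α') i.2) =
          ∑ i : Fin t × Fin k, c i • ev p β i.1 (pt p q i.1 α') (u (pt p q i.1 α') i.2) := by
        refine Finset.sum_congr rfl fun i _ => ?_
        by_cases hi : pt p q i.1 α' = α ∧ i.2 = a
        · rw [hzero i hi, zero_smul, zero_smul]
        · have : upd u α a v (pt p q i.1 α') i.2 = u (pt p q i.1 α') i.2 := if_neg hi
          rw [this]
      rw [e1] at hm
      exact hm

end forms

/-- **SEL.** -/
theorem holds (h : S_av.{u}) : S_sel.{u} := by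
  intro D t s k
  refine ⟨t + D * (s + t * k) + (s + t * k), ?_⟩
  intro F _ X _ p q β lam tg hpq hrk
  have key : ∀ C : Finset (Fin D × Fin k), ∃ u : Fin D → Fin k → X → F,
      Inv p q β lam tg C u := by
    classical
    intro C
    induction C using Finset.induction_on with
    | empty => exact ⟨fun _ _ _ => 0, Inv_empty p q β lam tg _⟩
    | insert i C hi ih =>
      obtain ⟨u, hu⟩ := ih
      exact step h hpq β lam tg _ le_rfl hrk C u hu i.1 i.2 hi
  obtain ⟨u, hu1, hu2, _⟩ := key univ
  exact ⟨u, fun j a b => hu1 j a b (mem_univ _) (mem_univ _),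
    fun α i a => hu2 α i a (mem_univ _)⟩

end Pool.Agent.H415.HD_SEL
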