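import Pool.Agent.H979.FC.Stm

set_option autoImplicit false

open MeasureTheory ProbabilityTheory
open scoped ENNReal NNReal

/-!
# FC UNI: union of two independent product fields
-/

namespace Pool.Agent.H415

open Pool.Agent.H979.FR Pool.Agent.H979.FC

theorem fc_uni_prob {I : Type} (μ : I → ℝ≥0) : IsProbabilityMeasure (PF μ) := by
  unfold PF
  infer_instance

theorem fc_uni_measVoid {I : Type} (F : Finset I) :
    MeasurableSet {A : I → Bool | ∀ i ∈ F, A i = false} := by
  have h : {A : I → Bool | ∀ i ∈ F, A i = false} =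
      ⋂ i ∈ F, (fun A : I → Bool => A i) ⁻¹' {false} := by
    ext A
    simp
  rw [h]
  exact Finset.measurableSet_biInter F fun i _ =>
    (measurable_pi_apply i) (measurableSet_singleton false)

theorem fc_uni_measOr {I : Type} :
    Measurable (fun (p : (I → Bool) × (I → Bool)) (i : I) => p.1 i || p.2 i) := by
  refine measurable_pi_lambda _ fun i => ?_
  have h1 : Measurable fun p : (I → Bool) × (I → Bool) => (p.1 i, p.2 i) :=
    ((measurable_pi_apply i).comp measurable_fst).prodMk
      ((measurable_pi_apply i).comp measurable_snd)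
  exact (measurable_of_countable (fun b : Bool × Bool => b.1 || b.2)).comp h1

theorem fc_uni (h1 : S_VOID) (h2 : S_PFV) : S_UNI := by
  intro I _ μ ν
  have := fc_uni_prob μ
  have := fc_uni_prob ν
  have := fc_uni_prob (fun i => μ i + ν i)
  have : IsProbabilityMeasure
      (((PF μ).prod (PF ν)).map (fun p i => p.1 i || p.2 i)) :=
    Measure.isProbabilityMeasure_map fc_uni_measOr.aemeasurable
  refine h1 I _ _ fun F => ?_
  rw [Measure.map_apply fc_uni_measOr (fc_uni_measVoid F)]
  have hpre : (fun (p : (I → Bool) × (I → Bool)) (i : I) => p.1 i || p.2 i) ⁻¹'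
      {A : I → Bool | ∀ i ∈ F, A i = false} =
      {A : I → Bool | ∀ i ∈ F, A i = false} ×ˢ {A : I → Bool | ∀ i ∈ F, A i = false} := by
    ext p
    simp only [Set.mem_preimage, Set.mem_setOf_eq, Set.mem_prod, Bool.or_eq_false_iff]
    exact ⟨fun h => ⟨fun i hi => (h i hi).1, fun i hi => (h i hi).2⟩,
      fun h i hi => ⟨h.1 i hi, h.2 i hi⟩⟩
  rw [hpre, Measure.prod_prod, h2 I μ F, h2 I ν F, h2 I (fun i => μ i + ν i) F,
    ← ENNReal.ofReal_mul (Real.exp_pos _).le, ← Real.exp_add]
  congr 2
  push_cast
  rw [Finset.sum_add_distrib]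
  ring

end Pool.Agent.H415
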