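import Pool.Agent.H867.FT.Gen2

/-! MP_7dd379_ag, task FRE: a finite module on which the generators of the maximal ideal form a
regular sequence is free. -/

set_option autoImplicit false
set_option linter.unusedSectionVars false

namespace Pool.Agent.H415.FRE

open IsLocalRing

section

variable {P M : Type} [CommRing P] [IsLocalRing P] [IsNoetherianRing P] [AddCommGroup M]
  [Module P M] [Module.Finite P M]

/-- the ideal generated by the first `k` elements -/
def JJ {d : ℕ} (x : Fin d → P) (k : ℕ) : Ideal P := Ideal.span {y | ∃ j : Fin d, (j : ℕ) < k ∧ y = x j}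

lemma JJ_zero {d : ℕ} (x : Fin d → P) : JJ x 0 = ⊥ := by
  unfold JJ
  rw [Ideal.span_eq_bot]
  rintro y ⟨j, hj, _⟩
  exact absurd hj (Nat.not_lt_zero _)

lemma JJ_top {d : ℕ} (x : Fin d → P) : JJ x d = Ideal.span (Set.range x) := by
  unfold JJ
  congr 1
  ext y
  constructor
  · rintro ⟨j, _, rfl⟩
    exact ⟨j, rfl⟩
  · rintro ⟨j, rfl⟩
    exact ⟨j, j.2, rfl⟩

lemma JJ_mono {d : ℕ} (x : Fin d → P) {k l : ℕ} (h : k ≤ l) : JJ x k ≤ JJ x l := by
  unfold JJ
  apply Ideal.span_mono
  rintro y ⟨j, hj, rfl⟩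
  exact ⟨j, lt_of_lt_of_le hj h, rfl⟩

lemma JJ_succ {d : ℕ} (x : Fin d → P) {k : ℕ} (hk : k < d) :
    JJ x (k + 1) ≤ JJ x k ⊔ Ideal.span {x ⟨k, hk⟩} := by
  conv_lhs => unfold JJ
  rw [Ideal.span_le]
  rintro y ⟨j, hj, rfl⟩
  rcases Nat.lt_succ_iff_lt_or_eq.1 hj with h | h
  · exact Ideal.mem_sup_left (Ideal.subset_span ⟨j, h, rfl⟩)
  · have : j = ⟨k, hk⟩ := Fin.ext h
    rw [this]
    exact Ideal.mem_sup_right (Ideal.subset_span rfl)

/-- a minimal system of generators is independent modulo the maximal ideal -/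
lemma indep_max {n : ℕ} (m : Fin n → M) (hm : Submodule.span P (Set.range m) = ⊤)
    (hmin : ∀ l < n, ¬ ∃ m' : Fin l → M, Submodule.span P (Set.range m') = ⊤)
    (p : Fin n → P) (hp : ∑ i, p i • m i ∈ maximalIdeal P • (⊤ : Submodule P M)) (i : Fin n) :
    p i ∈ maximalIdeal P := by
  by_contra hi
  have hu : IsUnit (p i) := by
    by_contra h
    exact hi ((mem_maximalIdeal _).2 h)
  obtain ⟨u, hu⟩ := hu
  cases n with
  | zero => exact i.elim0
  | succ n =>
    apply hmin n (Nat.lt_succ_self n)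
    refine ⟨m ∘ i.succAbove, ?_⟩
    set N := Submodule.span P (Set.range (m ∘ i.succAbove)) with hN
    have hmem : ∀ j, m (i.succAbove j) ∈ N := fun j => Submodule.subset_span ⟨j, rfl⟩
    have hmi : m i ∈ N ⊔ maximalIdeal P • (⊤ : Submodule P M) := by
      have h1 : p i • m i ∈ N ⊔ maximalIdeal P • (⊤ : Submodule P M) := by
        have h2 : p i • m i = (∑ i, p i • m i) - ∑ j, p (i.succAbove j) • m (i.succAbove j) := by
          rw [Fin.sum_univ_succAbove _ i, add_sub_cancel_right]
        rw [h2]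
        exact Submodule.sub_mem _ (Submodule.mem_sup_right hp) (Submodule.mem_sup_left
          (Submodule.sum_mem _ fun j _ => Submodule.smul_mem _ _ (hmem j)))
      have h3 : m i = (↑(u⁻¹) : P) • (p i • m i) := by
        rw [← hu, smul_smul, Units.inv_mul, one_smul]
      rw [h3]
      exact Submodule.smul_mem _ _ h1
    have hle : (⊤ : Submodule P M) ≤ N ⊔ maximalIdeal P • (⊤ : Submodule P M) := by
      rw [← hm, Submodule.span_le]
      rintro y ⟨j, rfl⟩
      rw [hm]
      refine Fin.succAboveCases i hmi (fun k => ?_) j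
      exact Submodule.mem_sup_left (hmem k)
    have := Submodule.le_of_le_smul_of_le_jacobson_bot (Module.Finite.fg_top)
      (IsLocalRing.maximalIdeal_le_jacobson ⊥) hle
    exact top_le_iff.1 this

lemma step {d n : ℕ} (x : Fin d → P) (hx : maximalIdeal P = Ideal.span (Set.range x))
    (m : Fin n → M) (k : ℕ) (hk : k < d)
    (hreg : ∀ y : M, x ⟨k, hk⟩ • y ∈ JJ x k • (⊤ : Submodule P M) →
      y ∈ JJ x k • (⊤ : Submodule P M))
    (H : ∀ p : Fin n → P, ∑ i, p i • m i ∈ JJ x (k + 1) • (⊤ : Submodule P M) →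
      ∀ i, p i ∈ JJ x (k + 1)) :
    ∀ p : Fin n → P, ∑ i, p i • m i ∈ JJ x k • (⊤ : Submodule P M) → ∀ i, p i ∈ JJ x k := by
  classical
  let f : (Fin n → P) →ₗ[P] M := ∑ i, (LinearMap.proj i : (Fin n → P) →ₗ[P] P).smulRight (m i)
  have hf : ∀ p, f p = ∑ i, p i • m i := by
    intro p
    simp [f, LinearMap.sum_apply]
  let L : Submodule P (Fin n → P) := (JJ x k • (⊤ : Submodule P M)).comap f
  let K : Submodule P (Fin n → P) := Submodule.pi Set.univ (fun _ => (JJ x k : Submodule P P))
  have hxm : x ⟨k, hk⟩ ∈ maximalIdeal P := by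
    rw [hx]; exact Ideal.subset_span ⟨_, rfl⟩
  have hL : L ≤ K := by
    apply Submodule.le_of_le_smul_of_le_jacobson_bot (I := maximalIdeal P)
      (IsNoetherian.noetherian L) (IsLocalRing.maximalIdeal_le_jacobson ⊥)
    intro p hp
    have hp1 : f p ∈ JJ x k • (⊤ : Submodule P M) := hp
    have hp2 : ∀ i, p i ∈ JJ x (k + 1) := by
      apply H p
      rw [← hf]
      exact Submodule.smul_mono_left (JJ_mono x (Nat.le_succ k)) hp1
    have hp3 : ∀ i, ∃ a ∈ JJ x k, ∃ q : P, p i = a + x ⟨k, hk⟩ * q := by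
      intro i
      obtain ⟨a, ha, b, hb, hab⟩ := Submodule.mem_sup.1 (JJ_succ x hk (hp2 i))
      obtain ⟨q, hq⟩ := Ideal.mem_span_singleton'.1 hb
      exact ⟨a, ha, q, by rw [← hab, ← hq, mul_comm]⟩
    choose a ha q hq using hp3
    have hpe : p = a + x ⟨k, hk⟩ • q := by
      funext i
      rw [Pi.add_apply, Pi.smul_apply, smul_eq_mul]
      exact hq i
    have haK : a ∈ K := by
      rw [Submodule.mem_pi]
      intro i _
      exact ha i
    have hfa : f a ∈ JJ x k • (⊤ : Submodule P M) := by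
      rw [hf]
      exact Submodule.sum_mem _ fun i _ => Submodule.smul_mem_smul (ha i) Submodule.mem_top
    have hqL : q ∈ L := by
      change f q ∈ JJ x k • (⊤ : Submodule P M)
      apply hreg
      have : x ⟨k, hk⟩ • f q = f p - f a := by
        conv_rhs => rw [hpe]
        rw [map_add, map_smul, add_sub_cancel_left]
      rw [this]
      exact Submodule.sub_mem _ hp1 hfa
    rw [hpe]
    exact Submodule.add_mem_sup haK (Submodule.smul_mem_smul hxm hqL)
  intro p hp i
  have h1 : p ∈ L := by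
    change f p ∈ JJ x k • (⊤ : Submodule P M)
    rw [hf]; exact hp
  have h2 := hL h1
  rw [Submodule.mem_pi] at h2
  exact h2 i (Set.mem_univ i)

end

theorem fre : Pool.Agent.H867.FT.S_FRE := by
  intro d P M _ _ _ _ _ _ x hx hreg
  classical
  have hex : ∃ n : ℕ, ∃ m : Fin n → M, Submodule.span P (Set.range m) = ⊤ :=
    Module.Finite.exists_fin
  obtain ⟨m, hm⟩ := Nat.find_spec hex
  have hmin : ∀ l < Nat.find hex, ¬ ∃ m' : Fin l → M, Submodule.span P (Set.range m') = ⊤ :=
    fun l hl => Nat.find_min hex hl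
  have key : ∀ c : ℕ, c ≤ d → ∀ p : Fin (Nat.find hex) → P,
      ∑ i, p i • m i ∈ JJ x (d - c) • (⊤ : Submodule P M) → ∀ i, p i ∈ JJ x (d - c) := by
    intro c
    induction c with
    | zero =>
      intro _ p hp i
      rw [Nat.sub_zero, JJ_top, ← hx] at hp ⊢
      exact indep_max m hm hmin p hp i
    | succ c ih =>
      intro hc
      have hk : d - (c + 1) < d := by omega
      have hk1 : d - (c + 1) + 1 = d - c := by omega
      apply step x hx m (d - (c + 1)) hk
      · intro y hy
        exact hreg ⟨d - (c + 1), hk⟩ y hy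
      · rw [hk1]
        exact ih (by omega)
  have hli : LinearIndependent P m := by
    rw [Fintype.linearIndependent_iff]
    intro p hp i
    have := key d le_rfl p (by rw [hp]; exact Submodule.zero_mem _) i
    rw [Nat.sub_self, JJ_zero] at this
    exact (Submodule.mem_bot P).1 this
  exact Module.Free.of_basis (Module.Basis.mk hli (by rw [hm]))

end Pool.Agent.H415.FRE
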