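import Pool.Agent.H867.FT.Stm

/-! Project FT (helper867), part NRM: the coordinate ring is an integrally closed domain
(helper415). -/

set_option autoImplicit false

namespace Pool.Agent.H415.FT867NRM

open Pool.Agent.H867.FT
open scoped nonZeroDivisors

section Laurent

variable (K : Type) [Field K] (d : ℕ)

/-- Laurent polynomials -/
abbrev La : Type := AddMonoidAlgebra K (Fin d → ℤ)

/-- polynomials -/
abbrev Po : Type := AddMonoidAlgebra K (Fin d →₀ ℕ)

/-- the exponents -/
def ex : (Fin d →₀ ℕ) →+ (Fin d → ℤ) where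
  toFun n := fun i => (n i : ℤ)
  map_zero' := by
    funext i
    simp
  map_add' a b := by
    funext i
    simp

/-- the inclusion of polynomials in Laurent polynomials -/
noncomputable def inc : Po K d →+* La K d := AddMonoidAlgebra.mapDomainRingHom K (ex d)

theorem inc_single (n : Fin d →₀ ℕ) (c : K) :
    inc K d (AddMonoidAlgebra.single n c) = AddMonoidAlgebra.single (ex d n) c :=
  AddMonoidAlgebra.mapDomain_single

theorem inc_inj : Function.Injective (inc K d) := by
  refine AddMonoidAlgebra.mapDomain_injective fun a b h => ?_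
  ext i
  have h1 : (a i : ℤ) = (b i : ℤ) := congrFun h i
  exact_mod_cast h1

/-- the product of the variables -/
noncomputable def tt : La K d := AddMonoidAlgebra.single (fun _ => 1) 1

theorem tt_pow (k : ℕ) : tt K d ^ k = AddMonoidAlgebra.single (fun _ => (k : ℤ)) 1 := by
  rw [tt, AddMonoidAlgebra.single_pow, one_pow]
  congr 1
  funext i
  simp

theorem tt_unit : IsUnit (tt K d) := by
  refine IsUnit.of_mul_eq_one (AddMonoidAlgebra.single (fun _ => -1) 1) ?_
  rw [tt, AddMonoidAlgebra.single_mul_single, AddMonoidAlgebra.one_def, mul_one]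
  congr 1

theorem tt_mem (k : ℕ) : tt K d ^ k ∈ (inc K d).range := by
  have h : tt K d ∈ (inc K d).range := by
    refine RingHom.mem_range.2
      ⟨AddMonoidAlgebra.single (Finsupp.equivFunOnFinite.symm fun _ => 1) 1, ?_⟩
    rw [inc_single, tt]
    congr 1
  exact Subring.pow_mem _ h k

theorem surj (z : La K d) : ∃ k : ℕ, z * tt K d ^ k ∈ (inc K d).range := by
  induction z using AddMonoidAlgebra.induction_linear with
  | zero => exact ⟨0, by rw [zero_mul]; exact Subring.zero_mem _⟩
  | add x y hx hy =>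
    obtain ⟨k, hk⟩ := hx
    obtain ⟨l, hl⟩ := hy
    refine ⟨k + l, ?_⟩
    have e : (x + y) * tt K d ^ (k + l) = (x * tt K d ^ k) * tt K d ^ l +
        (y * tt K d ^ l) * tt K d ^ k := by ring
    rw [e]
    exact Subring.add_mem _ (Subring.mul_mem _ hk (tt_mem K d l))
      (Subring.mul_mem _ hl (tt_mem K d k))
  | single u c =>
    refine ⟨∑ i, (u i).natAbs, AddMonoidAlgebra.single (Finsupp.equivFunOnFinite.symm fun i =>
      (u i + ((∑ i, (u i).natAbs : ℕ) : ℤ)).toNat) c, ?_⟩
    rw [inc_single, tt_pow, AddMonoidAlgebra.single_mul_single, mul_one]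
    congr 1
    funext i
    show (((u i + ((∑ i, (u i).natAbs : ℕ) : ℤ)).toNat : ℕ) : ℤ) =
      u i + ((∑ i, (u i).natAbs : ℕ) : ℤ)
    rw [Int.toNat_of_nonneg]
    have h1 : (u i).natAbs ≤ ∑ i, (u i).natAbs :=
      Finset.single_le_sum (f := fun i => (u i).natAbs) (fun _ _ => Nat.zero_le _)
        (Finset.mem_univ i)
    omega

/-- Laurent polynomials are integrally closed -/
theorem la_closed : IsIntegrallyClosed (La K d) := by
  have h1 : IsDomain (Po K d) := (inc_inj K d).isDomain (inc K d)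
  have h2 : IsIntegrallyClosed (Po K d) :=
    inferInstanceAs (IsIntegrallyClosed (MvPolynomial (Fin d) K))
  let _ : Algebra (Po K d) (La K d) := (inc K d).toAlgebra
  have hal : ∀ x, algebraMap (Po K d) (La K d) x = inc K d x := fun x => rfl
  let M : Submonoid (Po K d) := (IsUnit.submonoid (La K d)).comap (inc K d)
  have hM : M ≤ (Po K d)⁰ := by
    intro x hx
    rw [mem_nonZeroDivisors_iff_ne_zero]
    rintro rfl
    have h3 : IsUnit (inc K d 0) := hx
    rw [map_zero] at h3
    exact not_isUnit_zero h3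
  have hloc : IsLocalization M (La K d) := by
    rw [isLocalization_iff]
    refine ⟨fun y => y.2, fun z => ?_, fun {x y} h => ⟨1, ?_⟩⟩
    · obtain ⟨k, p, hp⟩ := surj K d z
      obtain ⟨t, ht⟩ := tt_mem K d k
      refine ⟨(p, ⟨t, ?_⟩), ?_⟩
      · show IsUnit (inc K d t)
        rw [ht]
        exact (tt_unit K d).pow k
      · rw [hal, hal, hp, ht]
    · rw [hal, hal] at h
      rw [inc_inj K d h]
  exact isIntegrallyClosed_of_isLocalization (R := Po K d) (La K d) M hM

end Laurent

section lead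

variable {K : Type} [Field K] {d : ℕ}

/-- all exponents have `l`-value at least `c` -/
def Bd (l : (Fin d → ℤ) →+ ℤ) (c : ℤ) (z : La K d) : Prop := ∀ u, z.coeff u ≠ 0 → c ≤ l u

theorem Bd.add {l : (Fin d → ℤ) →+ ℤ} {c : ℤ} {z w : La K d} (hz : Bd l c z) (hw : Bd l c w) :
    Bd l c (z + w) := by
  intro u hu
  by_cases h : z.coeff u = 0
  · refine hw u fun h2 => hu ?_
    rw [AddMonoidAlgebra.coeff_add, Finsupp.add_apply, h, h2, add_zero]
  · exact hz u h

theorem Bd.sum {l : (Fin d → ℤ) →+ ℤ} {c : ℤ} {ι : Type} (s : Finset ι) (f : ι → La K d)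
    (h : ∀ i ∈ s, Bd l c (f i)) : Bd l c (∑ i ∈ s, f i) := by
  classical
  induction s using Finset.induction_on with
  | empty =>
    intro u hu
    simp at hu
  | insert a s ha ih =>
    rw [Finset.sum_insert ha]
    exact (h a (Finset.mem_insert_self a s)).add (ih fun i hi => h i (Finset.mem_insert_of_mem hi))

theorem mem_mul {z w : La K d} {u : Fin d → ℤ} (hu : (z * w).coeff u ≠ 0) :
    ∃ a b, z.coeff a ≠ 0 ∧ w.coeff b ≠ 0 ∧ a + b = u := by
  classical
  by_contra h
  apply hu
  rw [AddMonoidAlgebra.coeff_mul]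
  refine Finset.sum_eq_zero fun a ha => Finset.sum_eq_zero fun b hb => ?_
  refine if_neg fun h1 => h ⟨a, b, Finsupp.mem_support_iff.1 ha, Finsupp.mem_support_iff.1 hb, h1⟩

theorem Bd.mul {l : (Fin d → ℤ) →+ ℤ} {c c' : ℤ} {z w : La K d} (hz : Bd l c z)
    (hw : Bd l c' w) : Bd l (c + c') (z * w) := by
  intro u hu
  obtain ⟨a, b, ha, hb, rfl⟩ := mem_mul hu
  rw [map_add]
  exact add_le_add (hz a ha) (hw b hb)

theorem Bd.pow {l : (Fin d → ℤ) →+ ℤ} {c : ℤ} {z : La K d} (hz : Bd l c z) (k : ℕ) :
    Bd l (k * c) (z ^ k) := by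
  induction k with
  | zero =>
    intro u hu
    rw [pow_zero, AddMonoidAlgebra.one_def, AddMonoidAlgebra.coeff_single] at hu
    have h : u = 0 := by
      by_contra h2
      exact hu (Finsupp.single_eq_of_ne h2)
    rw [h, map_zero]
    simp
  | succ k ih =>
    rw [pow_succ]
    have := ih.mul hz
    push_cast
    rwa [show ((k : ℤ) + 1) * c = k * c + c by ring]

/-- the order used to find extreme exponents -/
noncomputable def Dl (l : (Fin d → ℤ) →+ ℤ) (u : Fin d → ℤ) : ℤ ×ₗ Lex (Fin d → ℤ) :=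
  toLex (l u, toLex u)

theorem Dl_add (l : (Fin d → ℤ) →+ ℤ) (u w : Fin d → ℤ) : Dl l (u + w) = Dl l u + Dl l w := by
  rw [Dl, map_add]
  rfl

theorem Dl_inj (l : (Fin d → ℤ) →+ ℤ) {u w : Fin d → ℤ} (h : Dl l u = Dl l w) : u = w :=
  congrArg (fun x : ℤ ×ₗ Lex (Fin d → ℤ) => ofLex (ofLex x).2) h

theorem Dl_le (l : (Fin d → ℤ) →+ ℤ) {u w : Fin d → ℤ} (h : Dl l u ≤ Dl l w) : l u ≤ l w := by
  rw [Dl, Dl, Prod.Lex.toLex_le_toLex] at h
  rcases h with h | h
  · exact h.le
  · exact h.1.le

/-- the extreme coefficient of a power -/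
theorem lead_pow (l : (Fin d → ℤ) →+ ℤ) (z : La K d) (u₀ : Fin d → ℤ)
    (hmin : ∀ u, z.coeff u ≠ 0 → Dl l u₀ ≤ Dl l u) (k : ℕ) :
    (z ^ k).coeff (k • u₀) = z.coeff u₀ ^ k ∧
      ∀ u, (z ^ k).coeff u ≠ 0 → Dl l (k • u₀) ≤ Dl l u := by
  induction k with
  | zero =>
    refine ⟨by simp [AddMonoidAlgebra.one_def], fun u hu => ?_⟩
    rw [pow_zero, AddMonoidAlgebra.one_def, AddMonoidAlgebra.coeff_single] at hu
    have h : u = 0 := by
      by_contra h2
      exact hu (Finsupp.single_eq_of_ne h2)
    rw [h, zero_smul]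
  | succ k ih =>
    obtain ⟨ih1, ih2⟩ := ih
    refine ⟨?_, fun u hu => ?_⟩
    · rw [pow_succ, pow_succ, ← ih1, add_smul, one_smul]
      refine AddMonoidAlgebra.coeff_mul_add_of_uniqueAdd ?_
      intro a b ha hb hab
      have h1 := ih2 a (Finsupp.mem_support_iff.1 ha)
      have h2 := hmin b (Finsupp.mem_support_iff.1 hb)
      have h3 : Dl l a + Dl l b = Dl l (k • u₀) + Dl l u₀ := by
        rw [← Dl_add, ← Dl_add, hab]
      have h4 : Dl l a = Dl l (k • u₀) := by
        refine le_antisymm ?_ h1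
        by_contra h5
        rw [not_le] at h5
        have h6 := add_lt_add_of_lt_of_le h5 h2
        rw [h3] at h6
        exact lt_irrefl _ h6
      have h5 : a = k • u₀ := Dl_inj l h4
      refine ⟨h5, ?_⟩
      rw [h5] at hab
      exact add_left_cancel hab
    · rw [pow_succ] at hu
      obtain ⟨a, b, ha, hb, rfl⟩ := mem_mul hu
      rw [add_smul, one_smul, Dl_add, Dl_add]
      exact add_le_add (ih2 a ha) (hmin b hb)

/-- integral elements have no negative exponents -/
theorem integral_bd (l : (Fin d → ℤ) →+ ℤ) (z : La K d) (p : Polynomial (La K d)) (hp : p.Monic)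
    (hc : ∀ j, Bd l 0 (p.coeff j)) (h0 : p.eval z = 0) : Bd l 0 z := by
  by_cases hz : z = 0
  · intro u hu
    rw [hz] at hu
    simp at hu
  have hne : z.coeff.support.Nonempty := by
    rw [Finsupp.support_nonempty_iff]
    intro h
    exact hz (AddMonoidAlgebra.coeff_eq_zero.1 h)
  obtain ⟨u₀, hu₀, hmin⟩ := Finset.exists_min_image z.coeff.support (Dl l) hne
  have hmin' : ∀ u, z.coeff u ≠ 0 → Dl l u₀ ≤ Dl l u := fun u hu =>
    hmin u (Finsupp.mem_support_iff.2 hu)
  have hbd : Bd l (l u₀) z := fun u hu => Dl_le l (hmin' u hu)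
  by_contra hneg
  have hm : l u₀ < 0 := by
    by_contra h
    rw [not_lt] at h
    exact hneg fun u hu => h.trans (hbd u hu)
  have hk := (lead_pow l z u₀ hmin' p.natDegree).1
  have hsum : z ^ p.natDegree = -∑ j ∈ Finset.range p.natDegree, p.coeff j * z ^ j := by
    have h1 := Polynomial.eval_eq_sum_range (p := p) z
    rw [h0, Finset.sum_range_succ, hp.coeff_natDegree, one_mul] at h1
    linear_combination -h1
  have hbs : Bd l ((p.natDegree : ℤ) * l u₀ + 1) (∑ j ∈ Finset.range p.natDegree, p.coeff j * z ^ j) := by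
    refine Bd.sum _ _ fun j hj u hu => ?_
    have h1 := ((hc j).mul (hbd.pow j)) u hu
    have h2 : j + 1 ≤ p.natDegree := Finset.mem_range.1 hj
    have h3 : ((j : ℤ) + 1) ≤ p.natDegree := by exact_mod_cast h2
    nlinarith
  have hcoef : z.coeff u₀ ^ p.natDegree ≠ 0 :=
    pow_ne_zero _ (Finsupp.mem_support_iff.1 hu₀)
  have h5 : (∑ j ∈ Finset.range p.natDegree, p.coeff j * z ^ j).coeff (p.natDegree • u₀) ≠ 0 := by
    intro h6
    apply hcoef
    rw [← hk, hsum, AddMonoidAlgebra.coeff_neg, Finsupp.neg_apply, h6, neg_zero]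
  have h6 := hbs _ h5
  rw [map_nsmul, nsmul_eq_mul] at h6
  linarith

end lead

section cone

variable {d n : ℕ} (C : Cone d n) (K : Type) [Field K]

/-- the inclusion of the coordinate ring in the Laurent polynomials -/
noncomputable def jj : C.Ring K →+* La K d := AddMonoidAlgebra.mapDomainRingHom K C.S.subtype

theorem jj_single (u : C.S) (c : K) :
    jj C K (AddMonoidAlgebra.single u c) = AddMonoidAlgebra.single (u : Fin d → ℤ) c :=
  AddMonoidAlgebra.mapDomain_single

theorem jj_inj : Function.Injective (jj C K) :=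
  AddMonoidAlgebra.mapDomain_injective Subtype.val_injective

/-- the pairing with a ray -/
def pr (i : Fin n) : (Fin d → ℤ) →+ ℤ where
  toFun u := C.v i ⬝ᵥ u
  map_zero' := dotProduct_zero _
  map_add' := dotProduct_add _

theorem jj_bd (i : Fin n) (z : C.Ring K) : Bd (pr C i) 0 (jj C K z) := by
  induction z using AddMonoidAlgebra.induction_linear with
  | zero =>
    intro u hu
    rw [map_zero] at hu
    simp at hu
  | add x y hx hy =>
    rw [map_add]
    exact hx.add hy
  | single u c =>
    intro w hw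
    rw [jj_single, AddMonoidAlgebra.coeff_single] at hw
    have h : w = u := by
      by_contra h2
      exact hw (Finsupp.single_eq_of_ne h2)
    rw [h]
    exact u.2 i

theorem mem_range (z : La K d) (h : ∀ i, Bd (pr C i) 0 z) : z ∈ (jj C K).range := by
  have h1 : z.coeff.sum AddMonoidAlgebra.single = z := AddMonoidAlgebra.sum_coeff_single z
  rw [← h1]
  refine Subring.sum_mem _ fun u hu => ?_
  refine RingHom.mem_range.2 ⟨AddMonoidAlgebra.single ⟨u, fun i => ?_⟩ (z.coeff u), jj_single C K _ _⟩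
  exact h i u (Finsupp.mem_support_iff.1 hu)

theorem dom : IsDomain (C.Ring K) := (jj_inj C K).isDomain (jj C K)

theorem closed : IsIntegrallyClosed (C.Ring K) := by
  have hdom := dom C K
  have hla := la_closed K d
  rw [isIntegrallyClosed_iff (FractionRing (C.Ring K))]
  intro x hx
  obtain ⟨p, hp, hpx⟩ := hx
  have hg : Function.Injective ((algebraMap (La K d) (FractionRing (La K d))).comp (jj C K)) :=
    (IsFractionRing.injective (La K d) (FractionRing (La K d))).comp (jj_inj C K)
  let φ : FractionRing (C.Ring K) →+* FractionRing (La K d) := IsFractionRing.lift hg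
  have hφ : ∀ a, φ (algebraMap (C.Ring K) (FractionRing (C.Ring K)) a) =
      algebraMap (La K d) (FractionRing (La K d)) (jj C K a) := fun a =>
    IsFractionRing.lift_algebraMap hg a
  have hcomp : φ.comp (algebraMap (C.Ring K) (FractionRing (C.Ring K))) =
      (algebraMap (La K d) (FractionRing (La K d))).comp (jj C K) := RingHom.ext hφ
  have h1 : Polynomial.eval₂ ((algebraMap (La K d) (FractionRing (La K d))).comp (jj C K))
      (φ x) p = 0 := by
    rw [← hcomp, ← Polynomial.hom_eval₂, hpx, map_zero]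
  have h2 : IsIntegral (La K d) (φ x) := by
    refine ⟨p.map (jj C K), hp.map _, ?_⟩
    rw [Polynomial.eval₂_map]
    exact h1
  obtain ⟨z, hz⟩ := (isIntegrallyClosed_iff (FractionRing (La K d))).1 hla h2
  have h3 : (p.map (jj C K)).eval z = 0 := by
    apply IsFractionRing.injective (La K d) (FractionRing (La K d))
    rw [map_zero, Polynomial.eval_map, Polynomial.hom_eval₂, hz]
    exact h1
  obtain ⟨a, ha⟩ := RingHom.mem_range.1 (mem_range C K z fun i =>
    integral_bd (pr C i) z (p.map (jj C K)) (hp.map _) (fun j => by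
      rw [Polynomial.coeff_map]
      exact jj_bd C K i _) h3)
  refine ⟨a, φ.injective ?_⟩
  rw [hφ, ha, hz]

end cone

/-- NRM -/
theorem nrm : Pool.Agent.H867.FT.S_NRM := fun K _ _ _ C => ⟨dom C K, closed C K⟩

end Pool.Agent.H415.FT867NRM
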