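import Pool.Agent.H867.FT.Gen10
import Pool.Agent.H738.FT867KRU

/-!
# Second step for the normality of the completion: denominators in `R` are harmless (helper415)
-/

set_option autoImplicit false

namespace Pool.Agent.H415.FT867STB

open Pool.Agent.H867.FT

/-- **STB.** -/
theorem stb : Pool.Agent.H867.FT.S_STB := by
  intro p _ R S _ _ _ _ _ _ _ hyp r a' M hr hw
  -- the ideal of the `x` with `a' x ∈ r S`
  obtain ⟨J, hJm⟩ : ∃ J : Ideal R,
      ∀ x, x ∈ J ↔ ∃ s, a' * algebraMap R S x = algebraMap R S r * s := by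
    refine ⟨{ carrier := {x | ∃ s, a' * algebraMap R S x = algebraMap R S r * s}
              add_mem' := ?_
              zero_mem' := ?_
              smul_mem' := ?_ }, fun x => Iff.rfl⟩
    · rintro x y ⟨s, hs⟩ ⟨t, ht⟩
      exact ⟨s + t, by rw [map_add, mul_add, hs, ht, mul_add]⟩
    · exact ⟨0, by rw [map_zero, mul_zero, mul_zero]⟩
    · rintro c x ⟨s, hs⟩
      refine ⟨algebraMap R S c * s, ?_⟩
      rw [smul_eq_mul, map_mul]
      linear_combination algebraMap R S c * hs
  have hJ : ∀ 𝔭 : Ideal R, 𝔭.IsPrime → 𝔭.height = 1 → ∃ x ∈ J, x ∉ 𝔭 := by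
    intro 𝔭 h1 h2
    obtain ⟨e, φ, ψ, hφ, hψ, hc, hn⟩ := hyp 𝔭 h1 h2 (r ^ M) (pow_ne_zero _ hr)
    obtain ⟨w, hw⟩ := hw (p ^ e)
    refine ⟨φ (r ^ M), (hJm _).2 ⟨ψ w, ?_⟩, hn⟩
    have e1 : ψ (a' ^ p ^ e * algebraMap R S r ^ M) = a' * ψ (algebraMap R S r ^ M) := hψ _ _
    have e2 : ψ (algebraMap R S r ^ p ^ e * w) = algebraMap R S r * ψ w := hψ _ _
    rw [← hc, map_pow, ← e1, mul_comm, hw, e2]
  obtain ⟨n, x, hx⟩ := Submodule.fg_iff_exists_fin_generating_family.mp
    (IsNoetherian.noetherian J)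
  have hxm : ∀ i, x i ∈ J := fun i => by
    rw [← hx]
    exact Submodule.subset_span ⟨i, rfl⟩
  have hs : ∀ i, ∃ s, a' * algebraMap R S (x i) = algebraMap R S r * s := fun i =>
    (hJm _).1 (hxm i)
  choose s hs using hs
  -- the relations
  let f : (Fin n → R) →ₗ[R] (Fin n → R) × R :=
    LinearMap.prod (r • LinearMap.id) (-(Fintype.linearCombination R x))
  let g : (Fin n → R) × R →ₗ[R] S :=
    LinearMap.coprod (Fintype.linearCombination R s) (LinearMap.toSpanSingleton R S a')
  have hf1 : ∀ i, f (Pi.single i 1) = (r • (Pi.single i 1 : Fin n → R), -x i) := by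
    intro i
    show (r • (Pi.single i 1 : Fin n → R),
      -(Fintype.linearCombination R x (Pi.single i 1 : Fin n → R))) = _
    rw [Fintype.linearCombination_apply_single, one_smul]
  have hg1 : ∀ i, g (Pi.single i 1, 0) = s i := by
    intro i
    show Fintype.linearCombination R s (Pi.single i 1 : Fin n → R) +
      LinearMap.toSpanSingleton R S a' 0 = s i
    rw [Fintype.linearCombination_apply_single, one_smul, map_zero, add_zero]
  have hg2 : g (0, 1) = a' := by
    show Fintype.linearCombination R s 0 + LinearMap.toSpanSingleton R S a' 1 = a'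
    rw [map_zero, zero_add, LinearMap.toSpanSingleton_apply, one_smul]
  have hgf : g ∘ₗ f = 0 := by
    refine LinearMap.pi_ext' fun i => ?_
    refine LinearMap.ext_ring ?_
    change g (f (Pi.single i 1)) = 0
    have e1 : ((r • (Pi.single i 1 : Fin n → R), -x i) : (Fin n → R) × R) =
        r • (Pi.single i 1, 0) - x i • (0, 1) := by
      ext <;> simp
    rw [hf1, e1, map_sub, map_smul, map_smul, hg1, hg2, Algebra.smul_def, Algebra.smul_def,
      ← hs i]
    ring
  obtain ⟨k, A, Y, hgYA, hAf⟩ := Module.Flat.exists_factorization_of_comp_eq_zero_of_free hgf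
  have hA : ∀ i l, r * A (Pi.single i 1, 0) l = x i * A (0, 1) l := by
    intro i l
    have h1 : A (f (Pi.single i 1)) = 0 := by
      have := LinearMap.congr_fun hAf (Pi.single i 1)
      simpa using this
    have e1 : ((r • (Pi.single i 1 : Fin n → R), -x i) : (Fin n → R) × R) =
        r • (Pi.single i 1, 0) - x i • (0, 1) := by
      ext <;> simp
    rw [hf1, e1, map_sub, map_smul, map_smul, sub_eq_zero] at h1
    have := DFunLike.congr_fun h1 l
    simpa using this
  have hY : ∀ v : Fin k →₀ R, Y v = ∑ l, v l • Y (Finsupp.single l 1) := by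
    intro v
    conv_lhs => rw [← Finsupp.univ_sum_single v]
    rw [map_sum]
    refine Finset.sum_congr rfl fun l _ => ?_
    rw [← map_smul, Finsupp.smul_single, smul_eq_mul, mul_one]
  -- the quotients are in `R`
  have injK : Function.Injective (algebraMap R (FractionRing R)) := IsFractionRing.injective R _
  have hr' : algebraMap R (FractionRing R) r ≠ 0 := by
    rw [Ne, map_eq_zero_iff _ injK]
    exact hr
  have hJq : ∀ l, ∀ y ∈ J, ∃ g, r * g = y * A (0, 1) l := by
    intro l y hy
    rw [← hx] at hy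
    induction hy using Submodule.span_induction with
    | mem v hv =>
      obtain ⟨i, rfl⟩ := hv
      exact ⟨_, hA i l⟩
    | zero => exact ⟨0, by rw [mul_zero, zero_mul]⟩
    | add a b _ _ ha hb =>
      obtain ⟨g1, h1⟩ := ha
      obtain ⟨g2, h2⟩ := hb
      exact ⟨g1 + g2, by rw [mul_add, h1, h2, add_mul]⟩
    | smul c a _ ha =>
      obtain ⟨g1, h1⟩ := ha
      exact ⟨c * g1, by rw [smul_eq_mul]; linear_combination c * h1⟩
  have hq : ∀ l, ∃ c, A (0, 1) l = r * c := by
    intro l
    obtain ⟨c, hc⟩ := Pool.Agent.H738.FT867KRU.kru R (FractionRing R)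
      (algebraMap R (FractionRing R) (A (0, 1) l) / algebraMap R (FractionRing R) r) (by
        intro 𝔭 h1 h2
        obtain ⟨y, hy, hy'⟩ := hJ 𝔭 h1 h2
        obtain ⟨g1, h3⟩ := hJq l y hy
        exact ⟨y, hy', g1, by
          rw [mul_div_assoc', div_eq_iff hr', ← map_mul, ← map_mul, ← h3, mul_comm]⟩)
    refine ⟨c, injK ?_⟩
    rw [map_mul, ← hc, mul_div_cancel₀ _ hr']
  choose c hc using hq
  refine ⟨∑ l, c l • Y (Finsupp.single l 1), ?_⟩
  rw [← hg2, hgYA, LinearMap.comp_apply, hY, Finset.mul_sum]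
  refine Finset.sum_congr rfl fun l _ => ?_
  rw [hc l, Algebra.smul_def, Algebra.smul_def, map_mul, mul_assoc]

end Pool.Agent.H415.FT867STB
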