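import Pool.Agent.H867.FT.Gen6
import Pool.Agent.H404.FT867TRO

/-!
# FTV TR3: `S_TRO` without assumption on the residue field
(a modification of `Pool.Agent.H404.FT867TRO`)
-/

set_option autoImplicit false

namespace Pool.Agent.H415.FT867TR3

open Pool.Agent.H867.FT Pool.Agent.H404.FTTro
open Polynomial IsLocalRing

/-- a common root in a dominating valuation ring gives a common factor modulo the maximal ideal -/
theorem lift_poly {P K : Type} [CommRing P] [IsLocalRing P] [Field K] [Algebra P K]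
    (V : ValuationSubring K)
    (hP : ∀ p : P, algebraMap P K p ∈ V)
    (hm : ∀ p ∈ maximalIdeal P, algebraMap P K p ∈ V.nonunits)
    (a₁ b₁ a₂ b₂ : P) (x : K) (hx : x ∈ V)
    (hA : algebraMap P K a₁ * x ^ 2 + algebraMap P K b₁ * x + 1 ∈ V.nonunits)
    (hB : algebraMap P K a₂ * x ^ 2 + algebraMap P K b₂ * x ∈ V.nonunits) :
    ∃ G Q₁ Q₂ : P[X], G.Monic ∧ 1 ≤ G.natDegree ∧
      (∀ n, (C a₁ * X ^ 2 + C b₁ * X + 1 - G * Q₁ : P[X]).coeff n ∈ maximalIdeal P) ∧
      ∀ n, (C a₂ * X ^ 2 + C b₂ * X - G * Q₂ : P[X]).coeff n ∈ maximalIdeal P := by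
  let f : P →+* V := (algebraMap P K).codRestrict V hP
  have hker : ∀ p ∈ maximalIdeal P, ((residue V).comp f) p = 0 := by
    intro p hp
    have h1 : f p ∈ maximalIdeal V := by
      have h2 := hm p hp
      rw [ValuationSubring.mem_nonunits_iff_exists_mem_maximalIdeal] at h2
      obtain ⟨h3, h4⟩ := h2
      exact h4
    rw [RingHom.comp_apply]
    exact (residue_eq_zero_iff _).2 h1
  let φ : ResidueField P →+* ResidueField V := Ideal.Quotient.lift (maximalIdeal P)
    ((residue V).comp f) hker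
  have hφ : ∀ p : P, φ (residue P p) = residue V (f p) := fun p => rfl
  let _ : Algebra (ResidueField P) (ResidueField V) := φ.toAlgebra
  set xb : ResidueField V := residue V ⟨x, hx⟩ with hxb
  let G1 : (ResidueField P)[X] := C (residue P a₁) * X ^ 2 + C (residue P b₁) * X + 1
  let G2 : (ResidueField P)[X] := C (residue P a₂) * X ^ 2 + C (residue P b₂) * X
  have hG0 : G1 ≠ 0 := by
    intro h0
    have h1 : G1.coeff 0 = 1 := by simp [G1]
    rw [h0, coeff_zero] at h1
    exact zero_ne_one h1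
  have hG1x : aeval xb G1 = 0 := by
    have h1 : aeval xb G1 = residue V (f a₁ * ⟨x, hx⟩ ^ 2 + f b₁ * ⟨x, hx⟩ + 1) := by
      simp only [G1, map_add, map_mul, map_pow, aeval_C, aeval_X, map_one]
      rfl
    rw [h1, residue_eq_zero_iff]
    rw [ValuationSubring.mem_nonunits_iff_exists_mem_maximalIdeal] at hA
    obtain ⟨h3, h4⟩ := hA
    exact h4
  have hG2x : aeval xb G2 = 0 := by
    have h1 : aeval xb G2 = residue V (f a₂ * ⟨x, hx⟩ ^ 2 + f b₂ * ⟨x, hx⟩) := by
      simp only [G2, map_add, map_mul, map_pow, aeval_C, aeval_X]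
      rfl
    rw [h1, residue_eq_zero_iff]
    rw [ValuationSubring.mem_nonunits_iff_exists_mem_maximalIdeal] at hB
    obtain ⟨h3, h4⟩ := hB
    exact h4
  have halg : IsAlgebraic (ResidueField P) xb := ⟨G1, hG0, hG1x⟩
  have hint : IsIntegral (ResidueField P) xb := halg.isIntegral
  have hsurj : Function.Surjective (residue P) := residue_surjective
  obtain ⟨G, hG, hGd, hGm⟩ := Polynomial.lifts_and_natDegree_eq_and_monic
    ((Polynomial.mem_lifts _).2 (Polynomial.map_surjective (residue P) hsurj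
      (minpoly (ResidueField P) xb))) (minpoly.monic hint)
  obtain ⟨q1, hq1⟩ := minpoly.dvd (ResidueField P) xb hG1x
  obtain ⟨q2, hq2⟩ := minpoly.dvd (ResidueField P) xb hG2x
  obtain ⟨Q1, hQ1⟩ := Polynomial.map_surjective (residue P) hsurj q1
  obtain ⟨Q2, hQ2⟩ := Polynomial.map_surjective (residue P) hsurj q2
  refine ⟨G, Q1, Q2, hGm, ?_, fun n => ?_, fun n => ?_⟩
  · rw [hGd]
    exact minpoly.natDegree_pos hint
  · rw [← residue_eq_zero_iff, ← Polynomial.coeff_map]
    have e : Polynomial.map (residue P) (C a₁ * X ^ 2 + C b₁ * X + 1 - G * Q1) = 0 := by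
      rw [Polynomial.map_sub, Polynomial.map_mul, hG, hQ1, ← hq1]
      simp only [Polynomial.map_add, Polynomial.map_mul, Polynomial.map_pow, Polynomial.map_C,
        Polynomial.map_X, Polynomial.map_one, G1]
      ring
    rw [e, coeff_zero]
  · rw [← residue_eq_zero_iff, ← Polynomial.coeff_map]
    have e : Polynomial.map (residue P) (C a₂ * X ^ 2 + C b₂ * X - G * Q2) = 0 := by
      rw [Polynomial.map_sub, Polynomial.map_mul, hG, hQ2, ← hq2]
      simp only [Polynomial.map_add, Polynomial.map_mul, Polynomial.map_pow, Polynomial.map_C,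
        Polynomial.map_X, G2]
      ring
    rw [e, coeff_zero]

/-- coprimality of the two quadratic forms at a valuation ring dominating `P` -/
theorem coprime_forms2 {P K : Type} [CommRing P] [IsLocalRing P] [Field K] [Algebra P K]
    (V : ValuationSubring K)
    (hP : ∀ p : P, algebraMap P K p ∈ V)
    (hm : ∀ p ∈ maximalIdeal P, algebraMap P K p ∈ V.nonunits)
    (c z a₁ b₁ a₂ b₂ : P) (x : K)
    (hc : c ∈ maximalIdeal P) (hz : z ∈ maximalIdeal P)
    (hunit : IsUnit a₁ ∨ IsUnit a₂)
    (hl : ∀ G : P[X], G.Monic → 1 ≤ G.natDegree →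
      ¬ DvdSq G (Polynomial.C (a₁ * c + a₂ * z) * X ^ 2 + Polynomial.C (b₁ * c + b₂ * z) * X +
        Polynomial.C c : P[X]))
    (hx : 1 ≤ V.valuation x) :
    V.valuation x ^ 2 ≤ V.valuation (algebraMap P K a₁ * x ^ 2 + algebraMap P K b₁ * x + 1) ∨
    V.valuation x ^ 2 ≤ V.valuation (algebraMap P K a₂ * x ^ 2 + algebraMap P K b₂ * x) := by
  have hv1 : ∀ p : P, V.valuation (algebraMap P K p) ≤ 1 := fun p =>
    (V.valuation_le_one_iff _).2 (hP p)
  have hvu : ∀ p : P, IsUnit p → V.valuation (algebraMap P K p) = 1 := by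
    intro p hp
    obtain ⟨p', hp'⟩ := hp.exists_right_inv
    have h1 : V.valuation (algebraMap P K p) * V.valuation (algebraMap P K p') = 1 := by
      rw [← map_mul, ← map_mul, hp', map_one, map_one]
    refine le_antisymm (hv1 p) ?_
    rw [← h1]
    exact mul_le_of_le_one_right' (hv1 p')
  rcases lt_or_eq_of_le hx with hx1 | hx1
  · -- `v(x) > 1`
    have hx2 : V.valuation x < V.valuation x ^ 2 := by
      have h0 : 0 < V.valuation x := lt_of_lt_of_le zero_lt_one hx1.le
      calc V.valuation x = V.valuation x * 1 := (mul_one _).symm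
        _ < V.valuation x * V.valuation x := mul_lt_mul_of_pos_left hx1 h0
        _ = V.valuation x ^ 2 := (sq _).symm
    rcases hunit with h | h
    · left
      have e1 : V.valuation (algebraMap P K a₁ * x ^ 2) = V.valuation x ^ 2 := by
        rw [map_mul, hvu _ h, one_mul, map_pow]
      have e2 : V.valuation (algebraMap P K b₁ * x + 1) < V.valuation (algebraMap P K a₁ * x ^ 2) := by
        rw [e1]
        refine V.valuation.map_add_lt ?_ ?_
        · rw [map_mul]
          exact lt_of_le_of_lt (mul_le_of_le_one_left' (hv1 b₁)) hx2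
        · rw [map_one]
          exact lt_of_le_of_lt hx hx2
      rw [add_assoc, Valuation.map_add_eq_of_lt_left _ e2, e1]
    · right
      have e1 : V.valuation (algebraMap P K a₂ * x ^ 2) = V.valuation x ^ 2 := by
        rw [map_mul, hvu _ h, one_mul, map_pow]
      have e2 : V.valuation (algebraMap P K b₂ * x) < V.valuation (algebraMap P K a₂ * x ^ 2) := by
        rw [e1, map_mul]
        exact lt_of_le_of_lt (mul_le_of_le_one_left' (hv1 b₂)) hx2
      rw [Valuation.map_add_eq_of_lt_left _ e2, e1]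
  · -- `v(x) = 1`
    rw [← hx1, one_pow]
    by_contra hcon
    push Not at hcon
    obtain ⟨hA, hB⟩ := hcon
    have hxV : x ∈ V := (V.valuation_le_one_iff _).1 hx1.symm.le
    have hA' : algebraMap P K a₁ * x ^ 2 + algebraMap P K b₁ * x + 1 ∈ V.nonunits :=
      (ValuationSubring.mem_nonunits_iff V).2 hA
    have hB' : algebraMap P K a₂ * x ^ 2 + algebraMap P K b₂ * x ∈ V.nonunits :=
      (ValuationSubring.mem_nonunits_iff V).2 hB
    obtain ⟨G, Q₁, Q₂, hG1, hG2, hQ1, hQ2⟩ := lift_poly V hP hm a₁ b₁ a₂ b₂ x hxV hA' hB'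
    refine hl G hG1 hG2 ⟨C c * Q₁ + C z * Q₂, fun n => ?_⟩
    have e : (C (a₁ * c + a₂ * z) * X ^ 2 + C (b₁ * c + b₂ * z) * X + C c : P[X]) -
        G * (C c * Q₁ + C z * Q₂) =
        C c * (C a₁ * X ^ 2 + C b₁ * X + 1 - G * Q₁) + C z * (C a₂ * X ^ 2 + C b₂ * X - G * Q₂) := by
      simp only [map_add, map_mul]
      ring
    rw [e, coeff_add, coeff_C_mul, coeff_C_mul, sq]
    exact Ideal.add_mem _ (Ideal.mul_mem_mul hc (hQ1 n)) (Ideal.mul_mem_mul hz (hQ2 n))

/-- the valuation estimate for `x ^ i / t₀` -/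
theorem val_est2 {P K : Type} [CommRing P] [IsLocalRing P] [Field K] [Algebra P K]
    (V : ValuationSubring K)
    (hP : ∀ p : P, algebraMap P K p ∈ V)
    (hm : ∀ p ∈ maximalIdeal P, algebraMap P K p ∈ V.nonunits)
    (c z a₁ b₁ a₂ b₂ ρ : P) (x A B H : K) (k : ℕ) (hk : 2 ≤ k)
    (hc : c ∈ maximalIdeal P) (hz : z ∈ maximalIdeal P)
    (hunit : IsUnit a₁ ∨ IsUnit a₂) (hρ : IsUnit ρ)
    (hl : ∀ G : P[X], G.Monic → 1 ≤ G.natDegree →
      ¬ DvdSq G (Polynomial.C (a₁ * c + a₂ * z) * X ^ 2 + Polynomial.C (b₁ * c + b₂ * z) * X +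
        Polynomial.C c : P[X]))
    (hA : A = algebraMap P K a₁ * x ^ 2 + algebraMap P K b₁ * x + 1)
    (hB : B = algebraMap P K a₂ * x ^ 2 + algebraMap P K b₂ * x)
    (hH : H = algebraMap P K c * A + algebraMap P K z * B)
    (hxH : x * H = - (algebraMap P K z ^ k * algebraMap P K ρ))
    (hz0 : algebraMap P K z ≠ 0) (hx0 : x ≠ 0) (hA0 : A ≠ 0)
    (i : ℕ) (hi : i ≤ 2 * k + 1) :
    x ^ i / (x * (A / algebraMap P K z) ^ k) ∈ V := by
  have hv1 : ∀ p : P, V.valuation (algebraMap P K p) ≤ 1 := fun p =>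
    (V.valuation_le_one_iff _).2 (hP p)
  have hvu : ∀ p : P, IsUnit p → V.valuation (algebraMap P K p) = 1 := by
    intro p hp
    obtain ⟨p', hp'⟩ := hp.exists_right_inv
    have h1 : V.valuation (algebraMap P K p) * V.valuation (algebraMap P K p') = 1 := by
      rw [← map_mul, ← map_mul, hp', map_one, map_one]
    refine le_antisymm (hv1 p) ?_
    rw [← h1]
    exact mul_le_of_le_one_right' (hv1 p')
  have hvm : ∀ p ∈ maximalIdeal P, V.valuation (algebraMap P K p) < 1 := fun p hp =>
    (ValuationSubring.mem_nonunits_iff V).1 (hm p hp)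
  have hζ0 : V.valuation (algebraMap P K z) ≠ 0 := by
    rw [Ne, map_eq_zero]
    exact hz0
  have hζ1 : V.valuation (algebraMap P K z) < 1 := hvm z hz
  have h1 : V.valuation x * V.valuation H = V.valuation (algebraMap P K z) ^ k := by
    rw [← map_mul, hxH, Valuation.map_neg, map_mul, hvu ρ hρ, mul_one, map_pow]
  have hI : V.valuation x < 1 → V.valuation A = 1 ∧ V.valuation H ≤ 1 := by
    intro hx
    have hax : V.valuation (algebraMap P K a₁ * x ^ 2) < 1 := by
      rw [map_mul, map_pow]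
      have h2 : V.valuation x ^ 2 < 1 := pow_lt_one₀ (by simp) hx (by norm_num)
      exact lt_of_le_of_lt (mul_le_of_le_one_left' (hv1 a₁)) h2
    have hbx : V.valuation (algebraMap P K b₁ * x) < 1 := by
      rw [map_mul]
      exact lt_of_le_of_lt (mul_le_of_le_one_left' (hv1 b₁)) hx
    have hA1 : V.valuation A = 1 := by
      rw [hA, Valuation.map_add_eq_of_lt_right, map_one]
      rw [map_one]
      exact V.valuation.map_add_lt hax hbx
    refine ⟨hA1, ?_⟩
    have hB1 : V.valuation B ≤ 1 := by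
      rw [hB]
      refine V.valuation.map_add_le ?_ ?_
      · rw [map_mul, map_pow]
        exact mul_le_one' (hv1 a₂) (pow_le_one' hx.le 2)
      · rw [map_mul]
        exact mul_le_one' (hv1 b₂) hx.le
    rw [hH]
    refine V.valuation.map_add_le ?_ ?_
    · rw [map_mul]
      exact mul_le_one' (hv1 c) hA1.le
    · rw [map_mul]
      exact mul_le_one' (hv1 z) hB1
  have hII : 1 ≤ V.valuation x →
      V.valuation A < V.valuation (algebraMap P K z) * V.valuation x ^ 2 →
      V.valuation (algebraMap P K z) * V.valuation x ^ 2 ≤ V.valuation H := by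
    intro hx hAx
    rcases coprime_forms2 V hP hm c z a₁ b₁ a₂ b₂ x hc hz hunit hl hx with h | h
    · exfalso
      rw [← hA] at h
      have h2 : V.valuation (algebraMap P K z) * V.valuation x ^ 2 ≤ V.valuation x ^ 2 :=
        mul_le_of_le_one_left' hζ1.le
      exact absurd (lt_of_lt_of_le hAx (h2.trans h)) (lt_irrefl _)
    · rw [← hB] at h
      have h2 : V.valuation (algebraMap P K z) * V.valuation x ^ 2 ≤
          V.valuation (algebraMap P K z * B) := by
        rw [map_mul]
        gcongr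
      have h3 : V.valuation (algebraMap P K c * A) < V.valuation (algebraMap P K z * B) := by
        refine lt_of_le_of_lt ?_ (lt_of_lt_of_le hAx h2)
        rw [map_mul]
        exact mul_le_of_le_one_left' (hv1 c)
      rw [hH, Valuation.map_add_eq_of_lt_right _ h3]
      exact h2
  have hest := estimate (V.valuation x) (V.valuation A) (V.valuation (algebraMap P K z))
    (V.valuation H) k hk hζ0 hζ1 h1 hI hII i hi
  rw [← V.valuation_le_one_iff]
  have hx0' : V.valuation x ≠ 0 := by
    rw [Ne, map_eq_zero]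
    exact hx0
  have hA0' : V.valuation A ≠ 0 := by
    rw [Ne, map_eq_zero]
    exact hA0
  have e : x ^ i / (x * (A / algebraMap P K z) ^ k) =
      (x ^ i * algebraMap P K z ^ k) / (x * A ^ k) := by
    rw [div_pow]
    field_simp
  rw [e, map_div₀, map_mul, map_mul, map_pow, map_pow, map_pow]
  have hpos : 0 < V.valuation x * V.valuation A ^ k :=
    zero_lt_iff.2 (mul_ne_zero hx0' (pow_ne_zero _ hA0'))
  rw [div_le_one₀ hpos]
  exact hest

/-- Task TR3. -/
theorem tr3 : S_TR3 := by
  intro P R L K _ _ _ _ _ _ _ _ _ _ _ _ _ _ _ _ _ _ _ C a b c z ρ k x y₀ ω θ hcub hk hρ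
    hz0 hc0 hc hz ha hb ha2 hl
  obtain ⟨a₁, a₂, rfl⟩ := Ideal.mem_span_pair.1 ha
  obtain ⟨b₁, b₂, rfl⟩ := Ideal.mem_span_pair.1 hb
  have hunit : IsUnit a₁ ∨ IsUnit a₂ := by
    by_contra hcon
    push Not at hcon
    obtain ⟨h1, h2⟩ := hcon
    apply ha2
    rw [sq]
    exact Ideal.add_mem _ (Ideal.mul_mem_mul h1 hc) (Ideal.mul_mem_mul h2 hz)
  have hinj : Function.Injective (algebraMap P K) := by
    rw [IsScalarTower.algebraMap_eq P L K]
    exact (algebraMap L K).injective.comp (IsFractionRing.injective P L)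
  have hzK : algebraMap P K z ≠ 0 := by
    rw [Ne, map_eq_zero_iff _ hinj]
    exact hz0
  have hPL : ∀ p : P, algebraMap L K (algebraMap P L p) = algebraMap P K p := fun p =>
    (IsScalarTower.algebraMap_apply P L K p).symm
  have hx0 : x ≠ 0 := by
    intro h0
    have h1 := hcub.ind 0 1 0 (by rw [h0]; simp)
    exact one_ne_zero h1.2.1
  obtain ⟨A, hA⟩ : ∃ A : K, A = algebraMap P K a₁ * x ^ 2 + algebraMap P K b₁ * x + 1 := ⟨_, rfl⟩
  obtain ⟨B, hB⟩ : ∃ B : K, B = algebraMap P K a₂ * x ^ 2 + algebraMap P K b₂ * x := ⟨_, rfl⟩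
  obtain ⟨H, hH⟩ : ∃ H : K, H = algebraMap P K c * A + algebraMap P K z * B := ⟨_, rfl⟩
  have hA0 : A ≠ 0 := by
    intro h0
    have h1 := hcub.ind 1 (algebraMap P L b₁) (algebraMap P L a₁) (by
      rw [map_one, hPL, hPL, ← h0, hA]
      ring)
    exact one_ne_zero h1.1
  have hxH : x * H = - (algebraMap P K z ^ k * algebraMap P K ρ) := by
    have h1 := hcub.root
    simp only [map_add, map_mul, map_pow] at h1
    rw [hH, hA, hB]
    linear_combination h1
  have hAM : A ∈ Mn P x 2 := by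
    have := Mn_quad x a₁ b₁ 1
    rwa [map_one, ← hA] at this
  have hBM : B ∈ Mn P x 2 := by
    have := Mn_quad x a₂ b₂ 0
    rwa [map_zero, add_zero, ← hB] at this
  have hHM : H ∈ Mn P x 2 := by
    rw [hH]
    exact Submodule.add_mem _ (Mn_coe_mul x c hAM) (Mn_coe_mul x z hBM)
  have ht0 : x * (A / algebraMap P K z) ^ k ≠ 0 :=
    mul_ne_zero hx0 (pow_ne_zero _ (div_ne_zero hA0 hzK))
  have hpow := Pool.Agent.H975.FTPow.pow P R K C (a₁ * c + a₂ * z) (b₁ * c + b₂ * z) c (z ^ k * ρ)
    x y₀ ω θ hcub.hy hcub.root hcub.hω hcub.hθ hcub.gen hcub.hC (2 * k + 1) (by omega)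
  -- elements of `M_{2k+1}` are multiples of `t₀`
  have hgen : ∀ i ≤ 2 * k + 1, ∃ r : R, algebraMap R K r =
      x ^ i / (x * (A / algebraMap P K z) ^ k) := by
    intro i hi
    have h1 : IsIntegral P (x ^ i / (x * (A / algebraMap P K z) ^ k)) := by
      apply dom_int
      intro V hP hm
      exact val_est2 V hP hm c z a₁ b₁ a₂ b₂ ρ x A B H k hk hc hz hunit hρ hl hA hB hH hxH hzK
        hx0 hA0 i hi
    have h2 : IsIntegral R (x ^ i / (x * (A / algebraMap P K z) ^ k)) := h1.tower_top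
    exact IsIntegrallyClosed.isIntegral_iff.1 h2
  have hmul : ∀ m ∈ Mn P x (2 * k + 1), ∃ r : R, m =
      algebraMap R K r * (x * (A / algebraMap P K z) ^ k) := by
    intro m hm
    induction hm using Submodule.span_induction with
    | mem m hm =>
      obtain ⟨i, rfl⟩ := hm
      obtain ⟨r, hr⟩ := hgen i (by omega)
      refine ⟨r, ?_⟩
      rw [hr]
      exact (div_mul_cancel₀ _ ht0).symm
    | zero => exact ⟨0, by simp⟩
    | add m m' _ _ h1 h2 =>
      obtain ⟨r, hr⟩ := h1
      obtain ⟨r', hr'⟩ := h2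
      exact ⟨r + r', by rw [hr, hr', map_add, add_mul]⟩
    | smul p m _ h1 =>
      obtain ⟨r, hr⟩ := h1
      refine ⟨algebraMap P R p * r, ?_⟩
      rw [hr, map_mul, ← IsScalarTower.algebraMap_apply, Algebra.smul_def, mul_assoc]
  refine ⟨y₀ ^ (2 * k + 1) * (x * (A / algebraMap P K z) ^ k),
    mul_ne_zero (pow_ne_zero _ hcub.hy) ht0, ?_, ?_, ?_⟩
  · intro y hy
    obtain ⟨m, hm, rfl⟩ := (hpow y).1 hy
    obtain ⟨r, hr⟩ := hmul m hm
    refine ⟨r, ?_⟩
    rw [hr]
    ring
  · rw [hpow]
    refine ⟨x * A ^ k, ?_, ?_⟩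
    · have h1 : x ∈ Mn P x 1 := by
        have := Mn_pow_mem (P := P) x (le_refl 1)
        rwa [pow_one] at this
      exact Mn_mono x (by omega) (Mn_mul x h1 (Mn_pow x hAM k))
    · rw [map_pow, div_pow]
      field_simp
  · rw [hpow]
    obtain ⟨s, hs, he⟩ := expand x H B z ρ k hzK hHM hBM hxH k le_rfl
    rw [Nat.sub_self, pow_zero, one_mul] at he
    refine ⟨x * (-B) ^ k + s, ?_, ?_⟩
    · refine Submodule.add_mem _ ?_ (Mn_mono x (by omega) hs)
      have h1 : x ∈ Mn P x 1 := by
        have := Mn_pow_mem (P := P) x (le_refl 1)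
        rwa [pow_one] at this
      exact Mn_mono x (by omega) (Mn_mul x h1 (Mn_pow x (Submodule.neg_mem _ hBM) k))
    · rw [← he]
      have h2 : H / algebraMap P K z - B = algebraMap P K c * (A / algebraMap P K z) := by
        rw [hH]
        field_simp
        ring
      rw [h2, map_pow, mul_pow]
      ring

end Pool.Agent.H415.FT867TR3

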