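import Mathlib

/-! Wedderburn's factorisation and the sum of the roots, modulo additive commutators. -/

set_option autoImplicit false

namespace Pool.Agent.H415

open Polynomial

universe u

/-- The additive subgroup generated by the additive commutators `a b - b a`. -/
def CC (D : Type u) [Ring D] : AddSubgroup D :=
  AddSubgroup.closure {c | ∃ a b : D, c = a * b - b * a}

theorem cc_mem {D : Type u} [Ring D] (a b : D) : a * b - b * a ∈ CC D :=
  AddSubgroup.subset_closure ⟨a, b, rfl⟩

theorem cc_mul {D : Type u} [Ring D] {f d : D} (hf : f ∈ Subring.center D) (hd : d ∈ CC D) :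
    f * d ∈ CC D := by
  have hc : ∀ g : D, g * f = f * g := Subring.mem_center_iff.1 hf
  refine AddSubgroup.closure_induction (p := fun d _ => f * d ∈ CC D) ?_ ?_ ?_ ?_ hd
  · rintro x ⟨a, b, rfl⟩
    have : f * (a * b - b * a) = (f * a) * b - b * (f * a) := by
      rw [mul_sub, ← mul_assoc, ← mul_assoc, ← mul_assoc, hc b]
    rw [this]
    exact cc_mem _ _
  · rw [mul_zero]; exact (CC D).zero_mem
  · intro x y _ _ hx hy
    rw [mul_add]; exact (CC D).add_mem hx hy
  · intro x _ hx
    rw [mul_neg]; exact (CC D).neg_mem hx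

theorem cc_conj {D : Type u} [DivisionRing D] (a x : D) (hx : x ≠ 0) :
    x * a * x⁻¹ - a ∈ CC D := by
  have h := cc_mem (x * a) x⁻¹
  rwa [← mul_assoc, inv_mul_cancel₀ hx, one_mul] at h

theorem eval_mul_conj {D : Type u} [DivisionRing D] (p q : D[X]) (a : D) (h : q.eval a ≠ 0) :
    (p * q).eval a = p.eval (q.eval a * a * (q.eval a)⁻¹) * q.eval a := by
  induction p using Polynomial.induction_on' with
  | add p r hp hr => rw [add_mul, eval_add, hp, hr, eval_add, add_mul]
  | monomial n c =>
    have hXp : ∀ b : D, (X ^ n : D[X]).eval b = b ^ n := by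
      intro b
      have := eval_mul_X_pow (p := (1 : D[X])) (x := b) (k := n)
      rw [one_mul, eval_one, one_mul] at this
      exact this
    rw [← C_mul_X_pow_eq_monomial, mul_assoc, X_pow_mul, eval_C_mul, eval_mul_X_pow, eval_C_mul,
      hXp]
    have hcp : ∀ m : ℕ, (q.eval a * a * (q.eval a)⁻¹) ^ m = q.eval a * a ^ m * (q.eval a)⁻¹ := by
      intro m
      induction m with
      | zero => simp [mul_inv_cancel₀ h]
      | succ m ih =>
        rw [pow_succ, ih, pow_succ]
        simp only [mul_assoc]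
        rw [inv_mul_cancel_left₀ h]
    rw [hcp]
    simp only [mul_assoc]
    rw [inv_mul_cancel₀ h, mul_one]

theorem aeval_conj {D : Type u} [DivisionRing D] (f : (Subring.center D)[X]) (a x : D)
    (hx : x ≠ 0) : aeval (x * a * x⁻¹) f = x * aeval a f * x⁻¹ := by
  have hp : ∀ n : ℕ, (x * a * x⁻¹) ^ n = x * a ^ n * x⁻¹ := by
    intro n
    induction n with
    | zero => simp [mul_inv_cancel₀ hx]
    | succ n ih =>
      rw [pow_succ, ih, pow_succ]
      simp only [mul_assoc]
      rw [inv_mul_cancel_left₀ hx]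
  induction f using Polynomial.induction_on' with
  | add p q hp hq => rw [map_add, map_add, hp, hq]; noncomm_ring
  | monomial n c =>
    rw [aeval_monomial, aeval_monomial, hp]
    have h1 : x * (algebraMap (Subring.center D) D c) = (algebraMap (Subring.center D) D c) * x :=
      Subring.mem_center_iff.1 c.2 x
    rw [← mul_assoc x, h1]
    simp only [mul_assoc]

theorem right_div {D : Type u} [DivisionRing D] (c : D) (p : D[X]) :
    ∃ q : D[X], p = q * (X - C c) + C (p.eval c) := by
  induction p using Polynomial.induction_on' with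
  | add p r hp hr =>
    obtain ⟨q1, h1⟩ := hp
    obtain ⟨q2, h2⟩ := hr
    refine ⟨q1 + q2, ?_⟩
    rw [eval_add, C_add, add_mul]
    nth_rewrite 1 [h1, h2]
    abel
  | monomial n d =>
    have hc : Commute (X : D[X]) (C c) := by
      rw [Commute, SemiconjBy, X_mul_C]
    refine ⟨C d * ∑ i ∈ Finset.range n, X ^ i * (C c) ^ (n - 1 - i), ?_⟩
    rw [mul_assoc, hc.geom_sum₂_mul, ← C_mul_X_pow_eq_monomial, mul_sub, eval_C_mul]
    have hXp : (X ^ n : D[X]).eval c = c ^ n := by
      have := eval_mul_X_pow (p := (1 : D[X])) (x := c) (k := n)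
      rw [one_mul, eval_one, one_mul] at this
      exact this
    rw [hXp, C_mul, C_pow]
    abel

/-- A monic polynomial (coefficients on the left) which vanishes on the conjugacy class of `a` has
at least the degree of the minimal polynomial of `a` over the centre. -/
theorem vanish_deg {D : Type u} [DivisionRing D] (a : D)
    (n : ℕ) (hn : ∀ g : (Subring.center D)[X], g.Monic → aeval a g = 0 → n ≤ g.natDegree)
    (k : ℕ) (hk : ∃ h : D[X], h.Monic ∧ h.natDegree = k ∧ ∀ x : D, x ≠ 0 → h.eval (x * a * x⁻¹) = 0) :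
    n ≤ k := by
  classical
  have hex : ∃ k : ℕ, ∃ h : D[X], h.Monic ∧ h.natDegree = k ∧
      ∀ x : D, x ≠ 0 → h.eval (x * a * x⁻¹) = 0 := ⟨k, hk⟩
  refine le_trans ?_ (Nat.find_min' hex hk)
  obtain ⟨h, hm, hd, hv⟩ := Nat.find_spec hex
  -- coefficients are central
  have hcen : ∀ (x : D) (i : ℕ), x * h.coeff i = h.coeff i * x := by
    intro x i
    by_cases hx : x = 0
    · rw [hx, zero_mul, mul_zero]
    by_contra hne
    -- conjugate polynomial
    let hx' : D[X] := C x * h * C x⁻¹
    have hcoef : ∀ i, hx'.coeff i = x * h.coeff i * x⁻¹ := by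
      intro i
      simp only [hx', coeff_mul_C, coeff_C_mul]
    have hev : ∀ y : D, y ≠ 0 → hx'.eval (y * a * y⁻¹) = 0 := by
      intro y hy
      have h1 : hx'.eval (y * a * y⁻¹) = x * h.eval (x⁻¹ * (y * a * y⁻¹) * x) * x⁻¹ := by
        rw [show hx' = (C x * h) * C x⁻¹ from rfl]
        have h2 : (C x⁻¹ : D[X]).eval (y * a * y⁻¹) ≠ 0 := by
          rw [eval_C]; exact inv_ne_zero hx
        rw [eval_mul_conj _ _ _ h2, eval_C, inv_inv, eval_C_mul]
      rw [h1]
      have h3 : x⁻¹ * (y * a * y⁻¹) * x = (x⁻¹ * y) * a * (x⁻¹ * y)⁻¹ := by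
        rw [mul_inv_rev, inv_inv]; simp only [mul_assoc]
      rw [h3, hv _ (mul_ne_zero (inv_ne_zero hx) hy), mul_zero, zero_mul]
    set r : D[X] := h - hx' with hr
    have hr0 : r ≠ 0 := by
      intro h0
      apply hne
      have h1 : r.coeff i = 0 := by rw [h0, coeff_zero]
      rw [hr, coeff_sub, hcoef, sub_eq_zero] at h1
      have h2 : h.coeff i * x = x * h.coeff i * x⁻¹ * x := by rw [← h1]
      rw [mul_assoc (x * h.coeff i), inv_mul_cancel₀ hx, mul_one] at h2
      exact h2.symm
    have hlc : r.leadingCoeff ≠ 0 := leadingCoeff_ne_zero.2 hr0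
    have hrdeg : r.natDegree < h.natDegree := by
      by_contra hcon
      apply hlc
      rw [leadingCoeff, hr, coeff_sub, hcoef, ← hr]
      rcases Nat.lt_or_ge h.natDegree r.natDegree with h1 | h1
      · rw [coeff_eq_zero_of_natDegree_lt h1]; simp
      · have h2 : r.natDegree = h.natDegree := le_antisymm h1 (not_lt.1 hcon)
        rw [h2]
        have h3 : h.coeff h.natDegree = 1 := hm
        rw [h3, mul_one, mul_inv_cancel₀ hx, sub_self]
    apply Nat.find_min hex (m := r.natDegree) (by rw [← hd]; exact hrdeg)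
    have hcd : (C (r.leadingCoeff)⁻¹ * r).natDegree = r.natDegree := by
      rw [natDegree_C_mul]
      exact inv_ne_zero hlc
    refine ⟨C (r.leadingCoeff)⁻¹ * r, ?_, hcd, ?_⟩
    · rw [Monic, leadingCoeff, hcd, coeff_C_mul]
      exact inv_mul_cancel₀ hlc
    · intro y hy
      rw [eval_C_mul, hr, eval_sub, hv y hy, hev y hy, sub_zero, mul_zero]
  -- descend to the centre
  have hmem : ∀ i, h.coeff i ∈ Subring.center D := fun i =>
    Subring.mem_center_iff.2 fun x => hcen x i
  have hlift : h ∈ Polynomial.lifts (Subring.center D).subtype := by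
    rw [Polynomial.lifts_iff_coeff_lifts]
    intro i
    exact ⟨⟨h.coeff i, hmem i⟩, rfl⟩
  obtain ⟨g, hg, hgd, hgm⟩ := lifts_and_natDegree_eq_and_monic hlift hm
  rw [← hd, ← hgd]
  apply hn g hgm
  have h1 := hv 1 one_ne_zero
  rw [one_mul, inv_one, mul_one, ← hg, eval_map] at h1
  rw [aeval_def]
  exact h1

/-- Wedderburn: the sum of the roots. -/
theorem wedd {D : Type u} [DivisionRing D] (a : D) (f : (Subring.center D)[X]) (hf : f.Monic)
    (hfa : aeval a f = 0)
    (hn : ∀ g : (Subring.center D)[X], g.Monic → aeval a g = 0 → f.natDegree ≤ g.natDegree) :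
    (f.natDegree : D) * a + (f.nextCoeff : D) ∈ CC D := by
  classical
  set φ : Subring.center D →+* D := (Subring.center D).subtype with hφ
  set F : D[X] := f.map φ with hF
  have hFm : F.Monic := hf.map _
  have hFd : F.natDegree = f.natDegree := natDegree_map_eq_of_injective Subtype.val_injective _
  have hFconj : ∀ x : D, x ≠ 0 → F.eval (x * a * x⁻¹) = 0 := by
    intro x hx
    have h1 : F.eval (x * a * x⁻¹) = aeval (x * a * x⁻¹) f := by
      rw [hF, eval_map, aeval_def]; rfl
    rw [h1, aeval_conj f a x hx, hfa, mul_zero, zero_mul]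
  have key : ∀ k : ℕ, k ≤ f.natDegree → ∃ g h : D[X], F = g * h ∧ g.Monic ∧ h.Monic ∧
      h.natDegree = k ∧ (k : D) * a + h.nextCoeff ∈ CC D := by
    intro k
    induction k with
    | zero =>
      intro _
      refine ⟨F, 1, by rw [mul_one], hFm, monic_one, natDegree_one, ?_⟩
      simp [nextCoeff, (CC D).zero_mem]
    | succ k ih =>
      intro hk
      obtain ⟨g, h, hgh, hgm, hhm, hhd, hs⟩ := ih (by omega)
      have hex : ∃ x : D, x ≠ 0 ∧ h.eval (x * a * x⁻¹) ≠ 0 := by
        by_contra hcon
        push Not at hcon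
        have := vanish_deg a f.natDegree hn k ⟨h, hhm, hhd, hcon⟩
        omega
      obtain ⟨x, hx, hu⟩ := hex
      set b := x * a * x⁻¹ with hb
      set u := h.eval b with hu'
      set c := u * b * u⁻¹ with hc
      have hgc : g.eval c = 0 := by
        have h1 := eval_mul_conj g h b hu
        rw [← hgh, hFconj x hx] at h1
        rcases mul_eq_zero.1 h1.symm with h2 | h2
        · exact h2
        · exact absurd h2 hu
      obtain ⟨g', hg'⟩ : ∃ g' : D[X], g = g' * (X - C c) := by
        obtain ⟨q, hq⟩ := right_div c g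
        refine ⟨q, ?_⟩
        rwa [hgc, C_0, add_zero] at hq
      refine ⟨g', (X - C c) * h, ?_, ?_, ?_, ?_, ?_⟩
      · rw [hgh, hg', mul_assoc]
      · rw [hg'] at hgm
        exact Monic.of_mul_monic_right (monic_X_sub_C c) hgm
      · exact (monic_X_sub_C c).mul hhm
      · rw [(monic_X_sub_C c).natDegree_mul hhm, natDegree_X_sub_C, hhd, add_comm]
      · rw [(monic_X_sub_C c).nextCoeff_mul hhm, nextCoeff_X_sub_C]
        have h1 : ((k + 1 : ℕ) : D) * a + (-c + h.nextCoeff) =
            ((k : D) * a + h.nextCoeff) - (x * a * x⁻¹ - a) - (u * b * u⁻¹ - b) := by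
          push_cast
          rw [add_mul, one_mul, ← hb, ← hc]
          abel
        rw [h1]
        exact (CC D).sub_mem ((CC D).sub_mem hs (cc_conj a x hx)) (cc_conj b u hu)
  obtain ⟨g, h, hgh, hgm, hhm, hhd, hs⟩ := key f.natDegree le_rfl
  have hg1 : g = 1 := by
    have h1 : F.natDegree = g.natDegree + h.natDegree := by rw [hgh, hgm.natDegree_mul hhm]
    have h2 : g.natDegree = 0 := by omega
    exact hgm.natDegree_eq_zero.1 h2
  rw [hg1, one_mul] at hgh
  rw [← hgh, hF, nextCoeff_map Subtype.val_injective] at hs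
  exact hs

end Pool.Agent.H415
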