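import Pool.Graph.R_seed8.Helper656.Her.Normal
import Pool.Agent.H415.Wedd

/-! Radical normal subgroups and additive commutators. -/

set_option autoImplicit false

namespace Pool.Agent.H415

open Polynomial Pool.Agent.Helper656.Her

universe u

theorem inv_center {D : Type u} [DivisionRing D] {a : D} (ha : a ∈ Subring.center D) :
    a⁻¹ ∈ Subring.center D := by
  rw [Subring.mem_center_iff] at ha ⊢
  intro g
  exact ((show Commute g a from ha g).inv_right₀)

theorem rad_mem {D : Type u} [DivisionRing D] {P : D → Prop} (H : NS D P) (R : RN D P)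
    {a : D} (ha : P a) (hnc : a ∉ Subring.center D) : a ∈ CC D := by
  classical
  obtain ⟨N, hN, haN⟩ := H.rad a ha
  have hint : IsIntegral (Subring.center D) a := by
    have h1 : IsIntegral (Subring.center D) (a ^ N) :=
      isIntegral_algebraMap (x := (⟨a ^ N, haN⟩ : Subring.center D))
    exact IsIntegral.of_pow hN h1
  have hex := exactN D P H R a a N hN haN (Algebra.self_mem_adjoin_singleton _ _) ha
  set d := (minpoly (Subring.center D) a).natDegree with hd
  have hd0 : 0 < d := minpoly.natDegree_pos hint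
  have hmin : ∀ g : (Subring.center D)[X], g.Monic → aeval a g = 0 → d ≤ g.natDegree := by
    intro g hg hg0
    exact natDegree_le_natDegree (minpoly.min _ _ hg hg0)
  have hmono : X ^ d - C (⟨a ^ d, hex⟩ : Subring.center D) = minpoly (Subring.center D) a :=
    monomN_minpoly a _ hint rfl
  have hd1 : d ≠ 1 := by
    intro h1
    rw [h1, pow_one] at hex
    exact hnc hex
  have hsm : ∀ e : ℕ, 0 < e → e < d → a ^ e ∉ Subring.center D := by
    intro e he hed hmem
    have h1 : aeval a (X ^ e - C (⟨a ^ e, hmem⟩ : Subring.center D)) = 0 := by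
      simp only [map_sub, map_pow, aeval_X, aeval_C]
      exact sub_self _
    have h2 := hmin _ (monic_X_pow_sub_C _ he.ne') h1
    rw [natDegree_X_pow_sub_C] at h2
    omega
  have hdD : (d : D) ≠ 0 := by
    intro hdz
    obtain ⟨q, hq⟩ := CharP.exists D
    have hqd : q ∣ d := (CharP.cast_eq_zero_iff D q d).1 hdz
    rcases CharP.char_is_prime_or_zero D q with hp | h0
    · obtain ⟨e, he⟩ := hqd
      have hq0 : (q : D) = 0 := CharP.cast_eq_zero D q
      have he0 : 0 < e := by
        rcases Nat.eq_zero_or_pos e with h | h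
        · rw [h, mul_zero] at he; omega
        · exact h
      have hed : e < d := by
        rw [he]; have := hp.two_le; nlinarith
      apply hsm e he0 hed
      apply hMpN D P H R q hp hq0 (a ^ e) (H.pow ha e)
      rw [← pow_mul, mul_comm, ← he]
      exact hex
    · rw [h0, zero_dvd_iff] at hqd
      omega
  have hw := wedd a (minpoly (Subring.center D) a) (minpoly.monic hint) (minpoly.aeval _ _) hmin
  have hnext : (minpoly (Subring.center D) a).nextCoeff = 0 := by
    rw [nextCoeff_of_natDegree_pos hd0, ← hd, ← hmono, coeff_sub, coeff_X_pow, coeff_C,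
      if_neg (by omega), if_neg (by omega), sub_zero]
  rw [hnext, ← hd] at hw
  have h0 : ((0 : Subring.center D) : D) = 0 := rfl
  rw [h0, add_zero] at hw
  have hdc : (d : D) ∈ Subring.center D := natCast_mem _ d
  have := cc_mul (inv_center hdc) hw
  rwa [← mul_assoc, inv_mul_cancel₀ hdD, one_mul] at this

/-- the commutator of `v` and `x` does not commute with `v` -/
theorem comm_ne {D : Type u} [DivisionRing D] {P : D → Prop} (H : NS D P) (R : RN D P)
    {v x : D} (hv : P v) (hvx : v * x ≠ x * v) :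
    P (v * x * v⁻¹ * x⁻¹) ∧ v * (v * x * v⁻¹ * x⁻¹) ≠ (v * x * v⁻¹ * x⁻¹) * v := by
  have hv0 := H.ne v hv
  have hx0 : x ≠ 0 := by
    rintro rfl; exact hvx (by simp)
  have hP : P (v * x * v⁻¹ * x⁻¹) := by
    have h1 := H.mul _ _ hv (H.conj _ _ (H.inv _ hv) hx0)
    have h2 : v * (x * v⁻¹ * x⁻¹) = v * x * v⁻¹ * x⁻¹ := by simp only [mul_assoc]
    rwa [h2] at h1
  refine ⟨hP, ?_⟩
  obtain ⟨y, hy⟩ : ∃ y, y = v * x * v⁻¹ * x⁻¹ := ⟨_, rfl⟩
  rw [← hy] at hP ⊢
  have hvy : v * x = y * x * v := by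
    rw [hy, inv_mul_cancel_right₀ hx0, inv_mul_cancel_right₀ hv0]
  have hy1 : y ≠ 1 := by
    rintro rfl
    rw [one_mul] at hvy
    exact hvx hvy
  have hync : y ∉ Subring.center D := fun hc =>
    eigFalseN D P H R v x y hv hx0 hc (H.ne y hP) hy1 hvy
  intro hcom
  obtain ⟨d, hd, hdc⟩ := H.rad v hv
  have hpow : ∀ k : ℕ, v ^ k * x = y ^ k * x * v ^ k := by
    intro k
    induction k with
    | zero => simp
    | succ k ih =>
      have hc : Commute v (y ^ k) := (show Commute v y from hcom).pow_right k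
      rw [pow_succ' v, mul_assoc, ih, ← mul_assoc, ← mul_assoc, hc.eq, mul_assoc (y ^ k), hvy,
        pow_succ y, ← pow_succ' v, pow_succ' v]
      simp only [mul_assoc]
  have h1 := hpow d
  have h2 : x * v ^ d = v ^ d * x := Subring.mem_center_iff.1 hdc x
  have hvd : v ^ d ≠ 0 := pow_ne_zero _ hv0
  rw [← h2] at h1
  have h3 : (y ^ d - 1) * (x * v ^ d) = 0 := by
    rw [sub_mul, one_mul, ← mul_assoc, ← h1, sub_self]
  have h4 : y ^ d = 1 := by
    rcases mul_eq_zero.1 h3 with h | h
    · exact sub_eq_zero.1 h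
    · exact absurd h (mul_ne_zero hx0 hvd)
  exact hync (R y d hP hd h4)

theorem center_infinite {D : Type u} [DivisionRing D] {P : D → Prop} (H : NS D P) (R : RN D P)
    {v : D} (hv : P v) (hnc : v ∉ Subring.center D) : Infinite (Subring.center D) := by
  by_contra hfin
  rw [not_infinite_iff_finite] at hfin
  obtain ⟨n, hn, hc⟩ := H.rad v hv
  have hz : (⟨v ^ n, hc⟩ : Subring.center D) ≠ 0 := by
    intro h
    exact pow_ne_zero n (H.ne v hv) (congrArg Subtype.val h)
  have hu : IsOfFinOrder (Units.mk0 _ hz) := isOfFinOrder_of_finite _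
  obtain ⟨m, hm, h1⟩ := isOfFinOrder_iff_pow_eq_one.1 hu
  have h2 : (v ^ n) ^ m = 1 := by
    have := congrArg (fun t : (Subring.center D)ˣ => ((t : Subring.center D) : D)) h1
    simpa using this
  rw [← pow_mul] at h2
  exact hnc (R v (n * m) hv (Nat.mul_pos hn hm) h2)

theorem one_mem_aux {D : Type u} [DivisionRing D] {P : D → Prop} (H : NS D P) (R : RN D P)
    {v x : D} (hv : P v) (hx : P x) (hvx : v * x ≠ x * v) : (1 : D) ∈ CC D := by
  classical
  have hv0 := H.ne v hv
  have hx0 := H.ne x hx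
  have hvnc : v ∉ Subring.center D := fun h => hvx (Subring.mem_center_iff.1 h x).symm
  have hxnc : x ∉ Subring.center D := fun h => hvx (Subring.mem_center_iff.1 h v)
  have hinf := center_infinite H R hv hvnc
  set z := v * x * v⁻¹ with hz
  have hPz : P z := H.conj x v hx hv0
  have hznc : z ∉ Subring.center D := by
    intro h
    apply hxnc
    have h1 := Subring.mem_center_iff.1 h v
    have h2 : z * v = v * x := by rw [hz, inv_mul_cancel_right₀ hv0]
    rw [h2] at h1
    have h3 := mul_left_cancel₀ hv0 h1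
    rwa [h3] at h
  have hne : ∀ t ∈ Subring.center D, x + t ≠ 0 := by
    intro t ht h
    apply hxnc
    rw [eq_neg_of_add_eq_zero_left h]
    exact Subring.neg_mem _ ht
  -- the commutator y t
  let y : D → D := fun t => (z + t) * (x + t)⁻¹
  have hyt : ∀ t ∈ Subring.center D, y t * (x + t) = z + t := by
    intro t ht
    exact inv_mul_cancel_right₀ (hne t ht) _
  have hconj : ∀ t ∈ Subring.center D, v * (x + t) * v⁻¹ = z + t := by
    intro t ht
    rw [mul_add, add_mul, Subring.mem_center_iff.1 ht v, mul_inv_cancel_right₀ hv0]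
  have hPy : ∀ t ∈ Subring.center D, P (y t) := by
    intro t ht
    have h1 := H.mul _ _ hv (H.conj _ _ (H.inv _ hv) (hne t ht))
    have h2 : v * ((x + t) * v⁻¹ * (x + t)⁻¹) = y t := by
      show _ = (z + t) * (x + t)⁻¹
      rw [← hconj t ht]
      simp only [mul_assoc]
    rwa [h2] at h1
  have hync : ∀ t ∈ Subring.center D, y t ∉ Subring.center D := by
    intro t ht hc
    have h1 : v * (x + t) = y t * (x + t) * v := by
      rw [hyt t ht, ← hconj t ht, inv_mul_cancel_right₀ hv0]
    have h2 : y t ≠ 1 := by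
      intro h
      rw [h, one_mul] at h1
      apply hvx
      rw [mul_add, add_mul, Subring.mem_center_iff.1 ht v] at h1
      exact add_right_cancel h1
    exact eigFalseN D P H R v (x + t) (y t) hv (hne t ht) hc (H.ne _ (hPy t ht)) h2 h1
  have hex : ∃ t ∈ Subring.center D, t ≠ 0 ∧ y t * x ∉ Subring.center D := by
    by_contra hcon
    push Not at hcon
    have key : ∀ t ∈ Subring.center D, ∀ s ∈ Subring.center D, t ≠ 0 → s ≠ 0 → t ≠ s →
        y s * x = -t := by
      intro t ht s hs ht0 hs0 hts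
      have hf := hcon t ht ht0
      have hg := hcon s hs hs0
      obtain ⟨f, hfd⟩ : ∃ f, f = y t * x := ⟨_, rfl⟩
      obtain ⟨g, hgd⟩ : ∃ g, g = y s * x := ⟨_, rfl⟩
      rw [← hfd] at hf
      rw [← hgd] at hg ⊢
      have e1 : f + f * t * x⁻¹ = z + t := by
        rw [← hyt t ht, mul_add, ← hfd]
        congr 1
        have : f * t = t * f := (Subring.mem_center_iff.1 ht f)
        rw [this, hfd, ← mul_assoc, mul_assoc, mul_inv_cancel₀ hx0, mul_one]
        exact (Subring.mem_center_iff.1 ht _).symm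
      have e2 : g + g * s * x⁻¹ = z + s := by
        rw [← hyt s hs, mul_add, ← hgd]
        congr 1
        have : g * s = s * g := (Subring.mem_center_iff.1 hs g)
        rw [this, hgd, ← mul_assoc, mul_assoc, mul_inv_cancel₀ hx0, mul_one]
        exact (Subring.mem_center_iff.1 hs _).symm
      have e3 : (f * t - g * s) * x⁻¹ = (t - s) - (f - g) := by
        rw [sub_mul, eq_sub_of_add_eq' e1, eq_sub_of_add_eq' e2]
        abel
      have hcen : (f * t - g * s) ∈ Subring.center D :=
        Subring.sub_mem _ (Subring.mul_mem _ hf ht) (Subring.mul_mem _ hg hs)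
      have hcen2 : (t - s) - (f - g) ∈ Subring.center D :=
        Subring.sub_mem _ (Subring.sub_mem _ ht hs) (Subring.sub_mem _ hf hg)
      have e4 : f * t - g * s = 0 := by
        by_contra h0
        apply hxnc
        have h1 : x⁻¹ = (f * t - g * s)⁻¹ * ((t - s) - (f - g)) := by
          rw [← e3, inv_mul_cancel_left₀ h0]
        have h2 : x⁻¹ ∈ Subring.center D := by
          rw [h1]; exact Subring.mul_mem _ (inv_center hcen) hcen2
        have h3 := inv_center h2
        rwa [inv_inv] at h3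
      rw [e4, zero_mul] at e3
      have e5 : f = g + (t - s) := by
        have := sub_eq_zero.1 e3.symm
        rw [this]; abel
      rw [e5] at e4
      have e6 : (g + t) * (t - s) = 0 := by
        have hst : s * t = t * s := Subring.mem_center_iff.1 ht s
        calc (g + t) * (t - s) = (g + (t - s)) * t - g * s + (s * t - t * s) := by noncomm_ring
          _ = 0 := by rw [e4, hst]; simp
      rcases mul_eq_zero.1 e6 with h | h
      · exact eq_neg_of_add_eq_zero_left h
      · exact absurd (sub_eq_zero.1 h) hts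
    -- three distinct nonzero central elements
    obtain ⟨a, ha⟩ := Infinite.exists_notMem_finset ({0} : Finset (Subring.center D))
    obtain ⟨b, hb⟩ := Infinite.exists_notMem_finset ({0, a} : Finset (Subring.center D))
    obtain ⟨c, hc⟩ := Infinite.exists_notMem_finset ({0, a, b} : Finset (Subring.center D))
    simp only [Finset.mem_singleton, Finset.mem_insert, not_or] at ha hb hc
    have cne : ∀ p q : Subring.center D, p ≠ q → (p : D) ≠ q := fun p q h h' => h (Subtype.ext h')
    have ca : (a : D) ≠ 0 := cne a 0 ha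
    have cb : (b : D) ≠ 0 := cne b 0 hb.1
    have cc : (c : D) ≠ 0 := cne c 0 hc.1
    have k1 := key a a.2 c c.2 ca cc (cne _ _ (Ne.symm hc.2.1))
    have k2 := key b b.2 c c.2 cb cc (cne _ _ (Ne.symm hc.2.2))
    rw [k1] at k2
    exact cne _ _ (Ne.symm hb.2) (neg_injective k2)
  obtain ⟨t, ht, ht0, htx⟩ := hex
  have m1 : y t * x ∈ CC D := rad_mem H R (H.mul _ _ (hPy t ht) hx) htx
  have m2 : t * y t ∈ CC D := cc_mul ht (rad_mem H R (hPy t ht) (hync t ht))
  have m3 : z ∈ CC D := rad_mem H R hPz hznc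
  have e : t = y t * x + t * y t - z := by
    have h1 := hyt t ht
    rw [mul_add, Subring.mem_center_iff.1 ht (y t)] at h1
    rw [h1]; abel
  have m4 : t ∈ CC D := by
    rw [e]; exact (CC D).sub_mem ((CC D).add_mem m1 m2) m3
  have := cc_mul (inv_center ht) m4
  rwa [inv_mul_cancel₀ ht0] at this

theorem one_memN {D : Type u} [DivisionRing D] {P : D → Prop} (H : NS D P) (R : RN D P)
    {v x : D} (hv : P v) (hvx : v * x ≠ x * v) : (1 : D) ∈ CC D := by
  obtain ⟨h1, h2⟩ := comm_ne H R hv hvx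
  exact one_mem_aux H R hv h1 h2

theorem P_mem {D : Type u} [DivisionRing D] {P : D → Prop} (H : NS D P) (R : RN D P)
    (h1 : (1 : D) ∈ CC D) {a : D} (ha : P a) : a ∈ CC D := by
  by_cases h : a ∈ Subring.center D
  · have := cc_mul h h1
    rwa [mul_one] at this
  · exact rad_mem H R ha h

theorem inv_sub_mem {D : Type u} [DivisionRing D] {P : D → Prop} (H : NS D P) (R : RN D P)
    (h1 : (1 : D) ∈ CC D) {b c : D} (hb : P b) (hc : P c) : (b - 1)⁻¹ * c ∈ CC D := by
  obtain ⟨m, hm, hbm⟩ := H.rad b hb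
  by_cases hbm1 : b ^ m = 1
  · have h2 := R b m hb hm hbm1
    exact cc_mul (inv_center (Subring.sub_mem _ h2 (Subring.one_mem _))) (P_mem H R h1 hc)
  · have hne : b ^ m - 1 ≠ 0 := sub_ne_zero.2 hbm1
    have hb1 : b - 1 ≠ 0 := by
      intro h
      apply hbm1
      rw [sub_eq_zero.1 h, one_pow]
    have hgs : (b - 1) * (∑ i ∈ Finset.range m, b ^ i) = b ^ m - 1 := mul_geom_sum b m
    have hcc : b ^ m - 1 ∈ Subring.center D := Subring.sub_mem _ hbm (Subring.one_mem _)
    have h2 : (b - 1)⁻¹ = (b ^ m - 1)⁻¹ * ∑ i ∈ Finset.range m, b ^ i := by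
      have h3 : (∑ i ∈ Finset.range m, b ^ i) = (b - 1)⁻¹ * (b ^ m - 1) := by
        rw [← hgs, inv_mul_cancel_left₀ hb1]
      rw [h3]
      have h4 := Subring.mem_center_iff.1 (inv_center hcc) ((b - 1)⁻¹ * (b ^ m - 1))
      rw [← h4, mul_assoc, mul_inv_cancel₀ hne, mul_one]
    rw [h2, mul_assoc]
    apply cc_mul (inv_center hcc)
    rw [Finset.sum_mul]
    exact (CC D).sum_mem fun i _ => P_mem H R h1 (H.mul _ _ (H.pow hb i) hc)

theorem cbh {D : Type u} [DivisionRing D] {P : D → Prop} (H : NS D P)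
    {v : D} (hv : P v) (hvnc : v ∉ Subring.center D) {d : D} (hd : d ∉ Subring.center D) :
    ∃ a, P a ∧ a * d ≠ d * a := by
  by_contra hcon
  push Not at hcon
  -- `A` is the centraliser of `P`
  let A : D → Prop := fun e => ∀ a, P a → a * e = e * a
  have hAd : A d := hcon
  have hAconj : ∀ e x, A e → x ≠ 0 → A (x * e * x⁻¹) := by
    intro e x he hx a ha
    have h1 := he (x⁻¹ * a * x) (by
      have := H.conj a x⁻¹ ha (inv_ne_zero hx)
      rwa [inv_inv] at this)
    have h2 : a * (x * e * x⁻¹) = x * ((x⁻¹ * a * x) * e) * x⁻¹ := by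
      simp only [mul_assoc]
      rw [mul_inv_cancel_left₀ hx]
    rw [h2, h1]
    simp only [mul_assoc]
    rw [mul_inv_cancel₀ hx, mul_one]
  have hAsub : ∀ e f, A e → A f → A (e - f) := by
    intro e f he hf a ha
    rw [mul_sub, sub_mul, he a ha, hf a ha]
  have hAinv : ∀ e, A e → A e⁻¹ := by
    intro e he a ha
    exact ((show Commute a e from he a ha).inv_right₀).eq
  have hAmul : ∀ e f, A e → A f → A (e * f) := by
    intro e f he hf a ha
    rw [← mul_assoc, he a ha, mul_assoc, hf a ha, mul_assoc]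
  have hd0 : d ≠ 0 := by
    rintro rfl; exact hd (Subring.zero_mem _)
  have hnot : ∀ x, x * d ≠ d * x → A x := by
    intro x hx
    have hx0 : x ≠ 0 := by rintro rfl; exact hx (by simp)
    have hx1 : 1 + x ≠ 0 := by
      intro h
      apply hx
      rw [eq_neg_of_add_eq_zero_right h]; simp
    have k1 := hAconj d (1 + x) hAd hx1
    have k2 := hAconj d x hAd hx0
    obtain ⟨d1, hd1⟩ : ∃ d1, d1 = (1 + x) * d * (1 + x)⁻¹ := ⟨_, rfl⟩
    obtain ⟨d2, hd2⟩ : ∃ d2, d2 = x * d * x⁻¹ := ⟨_, rfl⟩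
    rw [← hd1] at k1
    rw [← hd2] at k2
    have e1 : d1 * (1 + x) = (1 + x) * d := by rw [hd1, inv_mul_cancel_right₀ hx1]
    have e2 : d2 * x = x * d := by rw [hd2, inv_mul_cancel_right₀ hx0]
    have e3 : (d1 - d2) * x = d - d1 := by
      rw [sub_mul, e2]
      rw [mul_add, mul_one, add_mul, one_mul] at e1
      rw [sub_eq_sub_iff_add_eq_add, add_comm (d1 * x), e1]
    by_cases h12 : d1 - d2 = 0
    · rw [h12, zero_mul] at e3
      exfalso
      apply hx
      rw [← sub_eq_zero.1 e3.symm, mul_add, mul_one, add_mul, one_mul] at e1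
      exact (add_left_cancel e1).symm
    · have e4 : x = (d1 - d2)⁻¹ * (d - d1) := by
        rw [← e3, inv_mul_cancel_left₀ h12]
      rw [e4]
      exact hAmul _ _ (hAinv _ (hAsub _ _ k1 k2)) (hAsub _ _ hAd k1)
  have hex : ∃ x0, x0 * d ≠ d * x0 := by
    by_contra hc
    push Not at hc
    exact hd (Subring.mem_center_iff.2 hc)
  obtain ⟨x0, hx0⟩ := hex
  have hall : ∀ x, A x := by
    intro x
    by_cases hx : x * d = d * x
    · have h1 : A (x0 + x) := by
        apply hnot
        intro h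
        apply hx0
        rw [add_mul, mul_add, hx] at h
        exact add_right_cancel h
      have h2 : x = (x0 + x) - x0 := by abel
      rw [h2]
      exact hAsub _ _ h1 (hnot x0 hx0)
    · exact hnot x hx
  apply hvnc
  rw [Subring.mem_center_iff]
  intro g
  exact (hall g v hv).symm

theorem all_memN {D : Type u} [DivisionRing D] {P : D → Prop} (H : NS D P) (R : RN D P)
    {v x : D} (hv : P v) (hvx : v * x ≠ x * v) (d : D) : d ∈ CC D := by
  have h1 : (1 : D) ∈ CC D := one_memN H R hv hvx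
  have hvnc : v ∉ Subring.center D := fun h => hvx (Subring.mem_center_iff.1 h x).symm
  by_cases hdc : d ∈ Subring.center D
  · have := cc_mul hdc h1
    rwa [mul_one] at this
  obtain ⟨a, ha, had⟩ := cbh H hv hvnc hdc
  have hd0 : d ≠ 0 := by rintro rfl; exact had (by simp)
  have hd1 : 1 + d ≠ 0 := by
    intro h
    apply had
    rw [eq_neg_of_add_eq_zero_right h]; simp
  have k1 := H.conj a (1 + d) ha hd1
  have k2 := H.conj a d ha hd0
  obtain ⟨a1, ha1⟩ : ∃ a1, a1 = (1 + d) * a * (1 + d)⁻¹ := ⟨_, rfl⟩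
  obtain ⟨a2, ha2⟩ : ∃ a2, a2 = d * a * d⁻¹ := ⟨_, rfl⟩
  rw [← ha1] at k1
  rw [← ha2] at k2
  have e1 : a1 * (1 + d) = (1 + d) * a := by rw [ha1, inv_mul_cancel_right₀ hd1]
  have e2 : a2 * d = d * a := by rw [ha2, inv_mul_cancel_right₀ hd0]
  have e3 : (a1 - a2) * d = a - a1 := by
    rw [sub_mul, e2]
    rw [mul_add, mul_one, add_mul, one_mul] at e1
    rw [sub_eq_sub_iff_add_eq_add, add_comm (a1 * d), e1]
  have a20 := H.ne _ k2
  have h12 : a1 - a2 ≠ 0 := by
    intro h
    rw [h, zero_mul] at e3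
    apply had
    rw [← sub_eq_zero.1 e3.symm, mul_add, mul_one, add_mul, one_mul] at e1
    exact (add_left_cancel e1)
  have hP0 : P (a2⁻¹ * a1) := H.mul _ _ (H.inv _ k2) k1
  have hR0 : P (a2⁻¹ * a) := H.mul _ _ (H.inv _ k2) ha
  have e4 : (a2⁻¹ * a1 - 1) * d = a2⁻¹ * a - a2⁻¹ * a1 := by
    have : a2⁻¹ * a1 - 1 = a2⁻¹ * (a1 - a2) := by rw [mul_sub, inv_mul_cancel₀ a20]
    rw [this, mul_assoc, e3, mul_sub]
  have h3 : a2⁻¹ * a1 - 1 ≠ 0 := by
    have : a2⁻¹ * a1 - 1 = a2⁻¹ * (a1 - a2) := by rw [mul_sub, inv_mul_cancel₀ a20]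
    rw [this]
    exact mul_ne_zero (inv_ne_zero a20) h12
  have e5 : d = (a2⁻¹ * a1 - 1)⁻¹ * (a2⁻¹ * a) - (a2⁻¹ * a1 - 1)⁻¹ * (a2⁻¹ * a1) := by
    rw [← mul_sub, ← e4, inv_mul_cancel_left₀ h3]
  rw [e5]
  exact (CC D).sub_mem (inv_sub_mem H R h1 hP0 hR0) (inv_sub_mem H R h1 hP0 hP0)

/-- the predicate attached to a radical normal subgroup -/
theorem toNS {D : Type u} [DivisionRing D] (N : Subgroup Dˣ) (hN : N.Normal)
    (H : ∀ u ∈ N, ∃ n : ℕ, 0 < n ∧ (u : D) ^ n ∈ Subring.center D) :
    NS D (fun a => ∃ f : D, f ∈ Subring.center D ∧ f ≠ 0 ∧ ∃ u : Dˣ, u ∈ N ∧ a = f * u) := by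
  refine ⟨?_, ?_, ?_, ?_, ?_, ?_⟩
  · rintro a ⟨f, hf, hf0, u, hu, rfl⟩
    exact mul_ne_zero hf0 u.ne_zero
  · rintro a b ⟨f, hf, hf0, u, hu, rfl⟩ ⟨f', hf', hf0', u', hu', rfl⟩
    refine ⟨f * f', Subring.mul_mem _ hf hf', mul_ne_zero hf0 hf0', u * u',
      N.mul_mem hu hu', ?_⟩
    have := Subring.mem_center_iff.1 hf' (u : D)
    rw [Units.val_mul, mul_assoc, mul_assoc, ← mul_assoc (u : D) f', this]
    simp only [mul_assoc]
  · rintro a ⟨f, hf, hf0, u, hu, rfl⟩
    refine ⟨f⁻¹, inv_center hf, inv_ne_zero hf0, u⁻¹, N.inv_mem hu, ?_⟩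
    rw [mul_inv_rev, Units.val_inv_eq_inv_val]
    exact Subring.mem_center_iff.1 (inv_center hf) _
  · rintro a x ⟨f, hf, hf0, u, hu, rfl⟩ hx
    refine ⟨f, hf, hf0, Units.mk0 x hx * u * (Units.mk0 x hx)⁻¹, hN.conj_mem u hu _, ?_⟩
    have := Subring.mem_center_iff.1 hf x
    rw [Units.val_mul, Units.val_mul, Units.val_inv_eq_inv_val, Units.val_mk0, ← mul_assoc x f,
      this]
    simp only [mul_assoc]
  · intro a ha ha0
    exact ⟨a, ha, ha0, 1, N.one_mem, by simp⟩
  · rintro a ⟨f, hf, hf0, u, hu, rfl⟩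
    obtain ⟨n, hn, h⟩ := H u hu
    refine ⟨n, hn, ?_⟩
    have hc : Commute f (u : D) := (show Commute (u : D) f from Subring.mem_center_iff.1 hf _).symm
    rw [hc.mul_pow]
    exact Subring.mul_mem _ (Subring.pow_mem _ hf n) h

theorem main_nor {D : Type u} [DivisionRing D] (N : Subgroup Dˣ) (hN : N.Normal)
    (H : ∀ u ∈ N, ∃ n : ℕ, 0 < n ∧ (u : D) ^ n ∈ Subring.center D)
    (v : Dˣ) (hv : v ∈ N) (x : D) (hvx : (v : D) * x ≠ x * v) (d : D) : d ∈ CC D :=
  all_memN (toNS N hN H) (hRN D _ (toNS N hN H)) (v := (v : D)) (x := x)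
    ⟨1, Subring.one_mem _, one_ne_zero, v, hv, by simp⟩ hvx d

end Pool.Agent.H415
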