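import Pool.Agent.H415.Nor

/-! Normal subgroups radical over a proper division subring. -/

set_option autoImplicit false

namespace Pool.Agent.H415

universe u v

/-- a power of each element of `N` commutes with a given element -/
theorem pow_comm {D : Type u} [DivisionRing D] (K : Subfield D) (hK : K ≠ ⊤)
    (N : Subgroup Dˣ) (hnor : N.Normal)
    (hrad : ∀ x ∈ N, ∃ n : ℕ, 1 ≤ n ∧ (x : D) ^ n ∈ K) (k : Dˣ) (hk : k ∈ N) (a : D) :
    ∃ n : ℕ, 0 < n ∧ Commute ((k : D) ^ n) a := by
  -- conjugates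
  have hconj : ∀ g : Dˣ, ∃ n : ℕ, 1 ≤ n ∧ (g : D) * (k : D) ^ n * (g : D)⁻¹ ∈ K := by
    intro g
    obtain ⟨n, hn, h⟩ := hrad (g * k * g⁻¹) (hnor.conj_mem k hk g)
    refine ⟨n, hn, ?_⟩
    have h1 : ((g * k * g⁻¹ : Dˣ) : D) ^ n = (g : D) * (k : D) ^ n * (g : D)⁻¹ := by
      rw [← Units.val_pow_eq_pow_val, conj_pow]
      simp
    rwa [h1] at h
  have hmul : ∀ (g : Dˣ) (n m : ℕ), (g : D) * (k : D) ^ n * (g : D)⁻¹ ∈ K →
      (g : D) * (k : D) ^ (n * m) * (g : D)⁻¹ ∈ K := by
    intro g n m h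
    have h1 : (g : D) * (k : D) ^ (n * m) * (g : D)⁻¹ = ((g : D) * (k : D) ^ n * (g : D)⁻¹) ^ m := by
      have h2 : ∀ y : D, ((g : D) * y * (g : D)⁻¹) ^ m = (g : D) * y ^ m * (g : D)⁻¹ := by
        intro y
        induction m with
        | zero => simp
        | succ m ih =>
          rw [pow_succ, ih, pow_succ]
          simp only [mul_assoc]
          rw [inv_mul_cancel_left₀ g.ne_zero]
      rw [h2, ← pow_mul]
    rw [h1]
    exact pow_mem h m
  -- the case outside `K`
  have hout : ∀ a : D, a ∉ K → ∃ n : ℕ, 0 < n ∧ Commute ((k : D) ^ n) a := by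
    intro a ha
    have ha0 : a ≠ 0 := by rintro rfl; exact ha (zero_mem K)
    have ha1 : 1 + a ≠ 0 := by
      intro h
      apply ha
      rw [eq_neg_of_add_eq_zero_right h]
      exact neg_mem (one_mem K)
    obtain ⟨n0, hn0, h0⟩ := hconj 1
    obtain ⟨n1, hn1, h1⟩ := hconj (Units.mk0 a ha0)
    obtain ⟨n2, hn2, h2⟩ := hconj (Units.mk0 (1 + a) ha1)
    have k0 := hmul 1 n0 (n1 * n2) h0
    have k1 := hmul _ n1 (n0 * n2) h1
    have k2 := hmul _ n2 (n0 * n1) h2
    obtain ⟨n, hn⟩ : ∃ n, n = n0 * (n1 * n2) := ⟨_, rfl⟩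
    have e1 : n1 * (n0 * n2) = n := by rw [hn]; ring
    have e2 : n2 * (n0 * n1) = n := by rw [hn]; ring
    rw [← hn] at k0
    rw [e1, Units.val_mk0] at k1
    rw [e2, Units.val_mk0] at k2
    simp only [Units.val_one, one_mul, inv_one, mul_one] at k0
    have hnpos : 0 < n := by rw [hn]; positivity
    refine ⟨n, hnpos, ?_⟩
    obtain ⟨κ, hκ⟩ : ∃ κ, κ = (k : D) ^ n := ⟨_, rfl⟩
    rw [← hκ] at k0 k1 k2 ⊢
    obtain ⟨p, hp⟩ : ∃ p, p = a * κ * a⁻¹ := ⟨_, rfl⟩
    obtain ⟨q, hq⟩ : ∃ q, q = (1 + a) * κ * (1 + a)⁻¹ := ⟨_, rfl⟩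
    rw [← hp] at k1
    rw [← hq] at k2
    have e3 : p * a = a * κ := by rw [hp, inv_mul_cancel_right₀ ha0]
    have e4 : q * (1 + a) = (1 + a) * κ := by rw [hq, inv_mul_cancel_right₀ ha1]
    have e5 : (q - p) * a = κ - q := by
      rw [sub_mul, e3]
      rw [mul_add, mul_one, add_mul, one_mul] at e4
      rw [sub_eq_sub_iff_add_eq_add, add_comm (q * a), e4]
    by_cases hqp : q - p = 0
    · rw [hqp, zero_mul] at e5
      have e6 := sub_eq_zero.1 e5.symm
      rw [sub_eq_zero] at hqp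
      rw [Commute, SemiconjBy, ← e3, ← hqp, ← e6]
    · exfalso
      apply ha
      have e6 : a = (q - p)⁻¹ * (κ - q) := by rw [← e5, inv_mul_cancel_left₀ hqp]
      rw [e6]
      exact mul_mem (inv_mem (sub_mem k2 k1)) (sub_mem k0 k2)
  by_cases haK : a ∈ K
  · obtain ⟨b, hb⟩ : ∃ b, b ∉ K := by
      by_contra hcon
      push Not at hcon
      exact hK (eq_top_iff.2 fun x _ => hcon x)
    have hab : a + b ∉ K := by
      intro h
      apply hb
      have := sub_mem h haK
      rwa [add_sub_cancel_left] at this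
    obtain ⟨n, hn, h1⟩ := hout b hb
    obtain ⟨m, hm, h2⟩ := hout (a + b) hab
    refine ⟨n * m, Nat.mul_pos hn hm, ?_⟩
    have k1 : Commute ((k : D) ^ (n * m)) b := by
      rw [pow_mul]; exact h1.pow_left m
    have k2 : Commute ((k : D) ^ (n * m)) (a + b) := by
      rw [mul_comm, pow_mul]; exact h2.pow_left n
    have k3 := k2.sub_right k1
    rwa [add_sub_cancel_right] at k3
  · exact hout a haK

/-- the commuting elements form a division subring -/
def cen {D : Type u} [DivisionRing D] (x : D) : Subfield D where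
  carrier := {a | Commute x a}
  mul_mem' := fun ha hb => Commute.mul_right ha hb
  one_mem' := Commute.one_right x
  add_mem' := fun ha hb => Commute.add_right ha hb
  zero_mem' := Commute.zero_right x
  neg_mem' := fun ha => Commute.neg_right ha
  inv_mem' := fun _ ha => Commute.inv_right₀ ha

theorem main_norK {D : Type u} [DivisionRing D] (K : Subfield D) (hK : K ≠ ⊤)
    (N : Subgroup Dˣ) (hnor : N.Normal)
    (hrad : ∀ x ∈ N, ∃ n : ℕ, 1 ≤ n ∧ (x : D) ^ n ∈ K)
    {E : Type v} [DivisionRing E] (φ : E →+* D)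
    (v : Eˣ) (hv : Units.map (φ : E →* D) v ∈ N) (x : E) (hvx : (v : E) * x ≠ x * v) (d : E) :
    d ∈ CC E := by
  classical
  have hinj : Function.Injective φ := φ.injective
  let L : Subfield E := Subfield.closure {(v : E), x, d}
  have hvL : (v : E) ∈ L := Subfield.subset_closure (by simp)
  have hxL : x ∈ L := Subfield.subset_closure (by simp)
  have hdL : d ∈ L := Subfield.subset_closure (by simp)
  let ψ : L →+* D := φ.comp L.subtype
  have hvL0 : (⟨v, hvL⟩ : L) ≠ 0 := by
    intro h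
    exact v.ne_zero (congrArg Subtype.val h)
  let vL : Lˣ := Units.mk0 ⟨v, hvL⟩ hvL0
  have hmap : Units.map (ψ : L →* D) vL ∈ N := by
    have : Units.map (ψ : L →* D) vL = Units.map (φ : E →* D) v := by
      ext
      rfl
    rw [this]
    exact hv
  have hNL : (N.comap (Units.map (ψ : L →* D))).Normal := hnor.comap _
  have hrL : ∀ u ∈ N.comap (Units.map (ψ : L →* D)), ∃ n : ℕ, 0 < n ∧
      (u : L) ^ n ∈ Subring.center L := by
    intro u hu
    obtain ⟨n1, hn1, h1⟩ := pow_comm K hK N hnor hrad _ (Subgroup.mem_comap.1 hu) (φ v)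
    obtain ⟨n2, hn2, h2⟩ := pow_comm K hK N hnor hrad _ (Subgroup.mem_comap.1 hu) (φ x)
    obtain ⟨n3, hn3, h3⟩ := pow_comm K hK N hnor hrad _ (Subgroup.mem_comap.1 hu) (φ d)
    have hval : ((Units.map (ψ : L →* D) u : Dˣ) : D) = φ ((u : L) : E) := rfl
    rw [hval] at h1 h2 h3
    refine ⟨n1 * n2 * n3, by positivity, ?_⟩
    have c1 : Commute (((u : L) : E) ^ (n1 * n2 * n3)) v := by
      rw [mul_assoc, pow_mul]
      apply Commute.pow_left
      apply hinj
      rw [map_mul, map_mul, map_pow]; exact h1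
    have c2 : Commute (((u : L) : E) ^ (n1 * n2 * n3)) x := by
      rw [mul_comm n1, mul_assoc, pow_mul]
      apply Commute.pow_left
      apply hinj
      rw [map_mul, map_mul, map_pow]; exact h2
    have c3 : Commute (((u : L) : E) ^ (n1 * n2 * n3)) d := by
      rw [mul_comm, pow_mul]
      apply Commute.pow_left
      apply hinj
      rw [map_mul, map_mul, map_pow]; exact h3
    have hle : L ≤ cen (((u : L) : E) ^ (n1 * n2 * n3)) := by
      apply Subfield.closure_le.2
      rintro y (rfl | rfl | rfl)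
      · exact c1
      · exact c2
      · exact c3
    rw [Subring.mem_center_iff]
    intro g
    apply Subtype.ext
    have := hle g.2
    exact (show Commute _ (g : E) from this).eq.symm
  have hvx' : (vL : L) * ⟨x, hxL⟩ ≠ ⟨x, hxL⟩ * (vL : L) := by
    intro h
    exact hvx (congrArg Subtype.val h)
  have key := main_nor _ hNL hrL vL (Subgroup.mem_comap.2 hmap) ⟨x, hxL⟩ hvx' ⟨d, hdL⟩
  -- push forward
  have hpush : ∀ z : L, z ∈ CC L → (z : E) ∈ CC E := by
    intro z hz
    refine AddSubgroup.closure_induction (G := L) (p := fun z _ => (z : E) ∈ CC E) ?_ ?_ ?_ ?_ hz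
    · rintro y ⟨a, b, rfl⟩
      exact cc_mem (a : E) (b : E)
    · exact (CC E).zero_mem
    · intro a b _ _ ha hb
      exact (CC E).add_mem ha hb
    · intro a _ ha
      exact (CC E).neg_mem ha
  exact hpush _ key

end Pool.Agent.H415
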