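import Pool.Agent.H465.OC.StmA

/-!
# Project OC, task A1: represented functions form a ring
-/

set_option autoImplicit false

namespace Pool.Agent.H415.OCRelRing

open Polynomial Pool.Agent.H465.OC

theorem main : RelRing := by
  intro p _ B _ _ j c
  refine ⟨?_, ?_, ?_⟩
  · intro M
    refine ⟨X, 1, ?_, ?_, ?_⟩
    · rw [eval_one]
      exact isUnit_one
    · rw [map_one, aeval_X, one_mul, sub_self]
      exact dvd_zero _
    · intro x _
      rw [eval_one, eval_X, one_mul, sub_self]
      exact dvd_zero _
  · intro r M
    refine ⟨C r, 1, ?_, ?_, ?_⟩
    · rw [eval_one]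
      exact isUnit_one
    · rw [map_one, aeval_C, one_mul, sub_self]
      exact dvd_zero _
    · intro x _
      rw [eval_one, eval_C, one_mul, sub_self]
      exact dvd_zero _
  · intro F F' s s' hF hF'
    refine ⟨?_, ?_, ?_⟩
    · intro M
      obtain ⟨g, h, hu, hs, hx⟩ := hF M
      obtain ⟨g', h', hu', hs', hx'⟩ := hF' M
      refine ⟨g * h' + g' * h, h * h', ?_, ?_, ?_⟩
      · rw [eval_mul]
        exact hu.mul hu'
      · have e : aeval j (h * h') * (s + s') - aeval j (g * h' + g' * h) =
            aeval j h' * (aeval j h * s - aeval j g) +
              aeval j h * (aeval j h' * s' - aeval j g') := by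
          simp only [map_add, map_mul]
          ring
        rw [e]
        exact dvd_add (hs.mul_left _) (hs'.mul_left _)
      · intro x hxc
        have e : (h * h').eval x * (F x + F' x) - (g * h' + g' * h).eval x =
            h'.eval x * (h.eval x * F x - g.eval x) +
              h.eval x * (h'.eval x * F' x - g'.eval x) := by
          simp only [eval_add, eval_mul]
          ring
        show (p : ℤ_[p]) ^ M ∣ (h * h').eval x * (F x + F' x) - (g * h' + g' * h).eval x
        rw [e]
        exact dvd_add ((hx x hxc).mul_left _) ((hx' x hxc).mul_left _)
    · intro M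
      obtain ⟨g, h, hu, hs, hx⟩ := hF M
      obtain ⟨g', h', hu', hs', hx'⟩ := hF' M
      refine ⟨g * g', h * h', ?_, ?_, ?_⟩
      · rw [eval_mul]
        exact hu.mul hu'
      · have e : aeval j (h * h') * (s * s') - aeval j (g * g') =
            (aeval j h * s) * (aeval j h' * s' - aeval j g') +
              aeval j g' * (aeval j h * s - aeval j g) := by
          simp only [map_mul]
          ring
        rw [e]
        exact dvd_add (hs'.mul_left _) (hs.mul_left _)
      · intro x hxc
        have e : (h * h').eval x * (F x * F' x) - (g * g').eval x =
            (h.eval x * F x) * (h'.eval x * F' x - g'.eval x) +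
              g'.eval x * (h.eval x * F x - g.eval x) := by
          simp only [eval_mul]
          ring
        show (p : ℤ_[p]) ^ M ∣ (h * h').eval x * (F x * F' x) - (g * g').eval x
        rw [e]
        exact dvd_add ((hx' x hxc).mul_left _) ((hx x hxc).mul_left _)
    · intro M
      obtain ⟨g, h, hu, hs, hx⟩ := hF M
      obtain ⟨g', h', hu', hs', hx'⟩ := hF' M
      refine ⟨g * h' - g' * h, h * h', ?_, ?_, ?_⟩
      · rw [eval_mul]
        exact hu.mul hu'
      · have e : aeval j (h * h') * (s - s') - aeval j (g * h' - g' * h) =
            aeval j h' * (aeval j h * s - aeval j g) -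
              aeval j h * (aeval j h' * s' - aeval j g') := by
          simp only [map_sub, map_mul]
          ring
        rw [e]
        exact dvd_sub (hs.mul_left _) (hs'.mul_left _)
      · intro x hxc
        have e : (h * h').eval x * (F x - F' x) - (g * h' - g' * h).eval x =
            h'.eval x * (h.eval x * F x - g.eval x) -
              h.eval x * (h'.eval x * F' x - g'.eval x) := by
          simp only [eval_sub, eval_mul]
          ring
        show (p : ℤ_[p]) ^ M ∣ (h * h').eval x * (F x - F' x) - (g * h' - g' * h).eval x
        rw [e]
        exact dvd_sub ((hx x hxc).mul_left _) ((hx' x hxc).mul_left _)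

end Pool.Agent.H415.OCRelRing
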