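import Pool.Graph.R_seed8.Helper656.Her.Cubic
import Pool.Agent.H415.Wedd

/-! Division rings all of whose multiplicative commutators are periodic modulo the centre are equal
to the additive group generated by their additive commutators. -/

set_option autoImplicit false

namespace Pool.Agent.H415

open Polynomial Pool.Agent.Helper656.Her

universe u

theorem inv_center' {D : Type u} [DivisionRing D] {a : D} (ha : a ∈ Subring.center D) :
    a⁻¹ ∈ Subring.center D := by
  rw [Subring.mem_center_iff] at ha ⊢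
  intro g
  exact ((show Commute g a from ha g).inv_right₀)

/-- a radical noncentral element has an exponent that is invertible -/
theorem exists_exp {D : Type u} [DivisionRing D] (H : HH D) (R : RR D) {a : D} (n : ℕ)
    (hn : 0 < n) (ha : a ^ n ∈ Subring.center D) :
    ∃ N : ℕ, 0 < N ∧ a ^ N ∈ Subring.center D ∧ (N : D) ≠ 0 := by
  classical
  have hex : ∃ N : ℕ, 0 < N ∧ a ^ N ∈ Subring.center D := ⟨n, hn, ha⟩
  refine ⟨Nat.find hex, (Nat.find_spec hex).1, (Nat.find_spec hex).2, ?_⟩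
  intro hdz
  have hd0 := (Nat.find_spec hex).1
  have hdc := (Nat.find_spec hex).2
  obtain ⟨q, hq⟩ := CharP.exists D
  have hqd : q ∣ Nat.find hex := (CharP.cast_eq_zero_iff D q _).1 hdz
  rcases CharP.char_is_prime_or_zero D q with hp | h0
  · obtain ⟨e, he⟩ := hqd
    have hq0 : (q : D) = 0 := CharP.cast_eq_zero D q
    have he0 : 0 < e := by
      rcases Nat.eq_zero_or_pos e with h | h
      · rw [h, mul_zero] at he; omega
      · exact h
    have hed : e < Nat.find hex := by
      rw [he]; have := hp.two_le; nlinarith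
    apply Nat.find_min hex hed
    refine ⟨he0, ?_⟩
    apply hMp D H R q hp hq0 (a ^ e)
    rw [← pow_mul, mul_comm, ← he]
    exact hdc
  · rw [h0, zero_dvd_iff] at hqd
    omega

theorem rad_mem' {D : Type u} [DivisionRing D] (H : HH D) (R : RR D)
    {a : D} (N : ℕ) (hN : 0 < N) (haN : a ^ N ∈ Subring.center D)
    (hnc : a ∉ Subring.center D) : a ∈ CC D := by
  classical
  have hint : IsIntegral (Subring.center D) a := by
    have h1 : IsIntegral (Subring.center D) (a ^ N) :=
      isIntegral_algebraMap (x := (⟨a ^ N, haN⟩ : Subring.center D))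
    exact IsIntegral.of_pow hN h1
  have hex := exact D R a a N hN haN (Algebra.self_mem_adjoin_singleton _ _) N hN haN
  set d := (minpoly (Subring.center D) a).natDegree with hd
  have hd0 : 0 < d := minpoly.natDegree_pos hint
  have hmin : ∀ g : (Subring.center D)[X], g.Monic → aeval a g = 0 → d ≤ g.natDegree := by
    intro g hg hg0
    exact natDegree_le_natDegree (minpoly.min _ _ hg hg0)
  have hmono : X ^ d - C (⟨a ^ d, hex⟩ : Subring.center D) = minpoly (Subring.center D) a :=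
    monom_minpoly a _ hint rfl
  have hd1 : d ≠ 1 := by
    intro h1
    rw [h1, pow_one] at hex
    exact hnc hex
  have hsm : ∀ e : ℕ, 0 < e → e < d → a ^ e ∉ Subring.center D := by
    intro e he hed hmem
    have h1 : aeval a (X ^ e - C (⟨a ^ e, hmem⟩ : Subring.center D)) = 0 := by
      simp only [map_sub, map_pow, aeval_X, aeval_C]
      exact sub_self _
    have h2 := hmin _ (monic_X_pow_sub_C _ he.ne') h1
    rw [natDegree_X_pow_sub_C] at h2
    omega
  have hdD : (d : D) ≠ 0 := by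
    intro hdz
    obtain ⟨q, hq⟩ := CharP.exists D
    have hqd : q ∣ d := (CharP.cast_eq_zero_iff D q d).1 hdz
    rcases CharP.char_is_prime_or_zero D q with hp | h0
    · obtain ⟨e, he⟩ := hqd
      have hq0 : (q : D) = 0 := CharP.cast_eq_zero D q
      have he0 : 0 < e := by
        rcases Nat.eq_zero_or_pos e with h | h
        · rw [h, mul_zero] at he; omega
        · exact h
      have hed : e < d := by
        rw [he]; have := hp.two_le; nlinarith
      apply hsm e he0 hed
      apply hMp D H R q hp hq0 (a ^ e)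
      rw [← pow_mul, mul_comm, ← he]
      exact hex
    · rw [h0, zero_dvd_iff] at hqd
      omega
  have hw := wedd a (minpoly (Subring.center D) a) (minpoly.monic hint) (minpoly.aeval _ _) hmin
  have hnext : (minpoly (Subring.center D) a).nextCoeff = 0 := by
    rw [nextCoeff_of_natDegree_pos hd0, ← hd, ← hmono, coeff_sub, coeff_X_pow, coeff_C,
      if_neg (by omega), if_neg (by omega), sub_zero]
  rw [hnext, ← hd] at hw
  have h0 : ((0 : Subring.center D) : D) = 0 := rfl
  rw [h0, add_zero] at hw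
  have hdc : (d : D) ∈ Subring.center D := natCast_mem _ d
  have := cc_mul (inv_center' hdc) hw
  rwa [← mul_assoc, inv_mul_cancel₀ hdD, one_mul] at this

/-- the additive commutators form a subspace over the centre -/
def CCs (D : Type u) [DivisionRing D] : Submodule (Subring.center D) D where
  carrier := {d | d ∈ CC D}
  add_mem' := fun ha hb => (CC D).add_mem ha hb
  zero_mem' := (CC D).zero_mem
  smul_mem' := fun c _ hd => cc_mul (f := (c : D)) c.2 hd

theorem center_infinite' {D : Type u} [DivisionRing D] (R : RR D) {v : D} (n : ℕ) (hn : 0 < n)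
    (hc : v ^ n ∈ Subring.center D) (hnc : v ∉ Subring.center D) :
    Infinite (Subring.center D) := by
  by_contra hfin
  rw [not_infinite_iff_finite] at hfin
  have hv0 : v ≠ 0 := by
    rintro rfl; exact hnc (Subring.zero_mem _)
  have hz : (⟨v ^ n, hc⟩ : Subring.center D) ≠ 0 := by
    intro h
    exact pow_ne_zero n hv0 (congrArg Subtype.val h)
  have hu : IsOfFinOrder (Units.mk0 _ hz) := isOfFinOrder_of_finite _
  obtain ⟨m, hm, h1⟩ := isOfFinOrder_iff_pow_eq_one.1 hu
  have h2 : (v ^ n) ^ m = 1 := by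
    have := congrArg (fun t : (Subring.center D)ˣ => ((t : Subring.center D) : D)) h1
    simpa using this
  rw [← pow_mul] at h2
  exact hnc (R v (n * m) (Nat.mul_pos hn hm) h2)

theorem one_mem' {D : Type u} [DivisionRing D] (H : HH D) (R : RR D) {v x : D} (m : ℕ)
    (hm : 0 < m) (hxm : x ^ m ∈ Subring.center D) (hvx : v * x ≠ x * v) : (1 : D) ∈ CC D := by
  classical
  by_contra h1
  have hv0 : v ≠ 0 := by rintro rfl; exact hvx (by simp)
  have hxnc : x ∉ Subring.center D := fun h => hvx (Subring.mem_center_iff.1 h v)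
  haveI := center_infinite' R m hm hxm hxnc
  obtain ⟨τ, hτ1, hτ0⟩ := Submodule.exists_dual_map_eq_bot_of_notMem (p := CCs D) (x := (1 : D))
    h1 inferInstance
  have hτC : ∀ c ∈ CC D, τ c = 0 := by
    intro c hc
    have h2 : τ c ∈ (CCs D).map τ := Submodule.mem_map_of_mem (show c ∈ CCs D from hc)
    rwa [hτ0, Submodule.mem_bot] at h2
  set w := v * x * v⁻¹ - x with hw
  -- the relation
  have hrel : ∀ u : Subring.center D,
      ((x ^ m - (u : D) ^ m) * 1 + ∑ i ∈ Finset.range m, (u : D) ^ (m - 1 - i) * (w * x ^ i))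
        ∈ CC D := by
    intro u
    have hu := Subring.mem_center_iff.1 u.2
    have hxu : x - u ≠ 0 := by
      intro h
      apply hxnc
      rw [sub_eq_zero.1 h]; exact u.2
    have hvxu : v * (x - u) ≠ (x - u) * v := by
      intro h
      apply hvx
      rw [mul_sub, sub_mul, hu v] at h
      exact sub_left_injective h
    -- the commutator
    obtain ⟨n, hn, hyn⟩ := H v (x - u) hv0 hxu
    obtain ⟨y, hy⟩ : ∃ y, y = v * (x - u) * v⁻¹ * (x - u)⁻¹ := ⟨_, rfl⟩
    rw [← hy] at hyn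
    have hy0 : y ≠ 0 := by
      rw [hy]
      exact mul_ne_zero (mul_ne_zero (mul_ne_zero hv0 hxu) (inv_ne_zero hv0)) (inv_ne_zero hxu)
    have hyx : v * (x - u) = y * (x - u) * v := by
      rw [hy, inv_mul_cancel_right₀ hxu, inv_mul_cancel_right₀ hv0]
    have hy1 : y ≠ 1 := by
      intro h
      rw [h, one_mul] at hyx
      exact hvxu hyx
    have hync : y ∉ Subring.center D := fun hc =>
      eigFalse D H R v (x - u) y hv0 hxu hc hy0 hy1 hyx
    have hyC := rad_mem' H R n hn hyn hync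
    have hyw : y * (x - u) = (x - u) + w := by
      rw [hy, inv_mul_cancel_right₀ hxu, mul_sub, sub_mul, hu v, mul_inv_cancel_right₀ hv0, hw]
      abel
    have hcm : x ^ m - (u : D) ^ m ∈ Subring.center D :=
      Subring.sub_mem _ hxm (Subring.pow_mem _ u.2 m)
    have hcomm : Commute x (u : D) := hu x
    have hgs : (x - u) * (∑ i ∈ Finset.range m, x ^ i * (u : D) ^ (m - 1 - i)) = x ^ m - (u : D) ^ m :=
      hcomm.mul_geom_sum₂ m
    have h3 : y * (x ^ m - (u : D) ^ m) = (x ^ m - (u : D) ^ m) +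
        w * (∑ i ∈ Finset.range m, x ^ i * (u : D) ^ (m - 1 - i)) := by
      rw [← hgs, ← mul_assoc, hyw, add_mul]
    have h4 := cc_mul hcm hyC
    rw [← Subring.mem_center_iff.1 hcm y, h3, Finset.mul_sum] at h4
    rw [mul_one]
    have h7 : ∑ i ∈ Finset.range m, (u : D) ^ (m - 1 - i) * (w * x ^ i) =
        ∑ i ∈ Finset.range m, w * (x ^ i * (u : D) ^ (m - 1 - i)) := by
      refine Finset.sum_congr rfl fun i _ => ?_
      have h6 : ((u : D) ^ (m - 1 - i)) ∈ Subring.center D := Subring.pow_mem _ u.2 _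
      rw [← mul_assoc w]
      exact (Subring.mem_center_iff.1 h6 _).symm
    rw [h7]
    exact h4
  -- the polynomial
  let xi : Subring.center D := ⟨x ^ m, hxm⟩
  let P : (Subring.center D)[X] := (C (xi * τ 1) - C (τ 1) * X ^ m) +
    ∑ i ∈ Finset.range m, C (τ (w * x ^ i)) * X ^ (m - 1 - i)
  have hP : P = 0 := by
    apply Polynomial.funext
    intro u
    rw [eval_zero]
    have h2 := hτC _ (hrel u)
    have h3 : ((x ^ m - (u : D) ^ m) * 1 + ∑ i ∈ Finset.range m, (u : D) ^ (m - 1 - i) * (w * x ^ i))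
        = (xi - u ^ m) • (1 : D) + ∑ i ∈ Finset.range m, (u ^ (m - 1 - i)) • (w * x ^ i) := by
      simp only [Subring.smul_def, smul_eq_mul]
      push_cast
      rfl
    rw [h3, map_add, map_smul, map_sum] at h2
    simp only [map_smul, smul_eq_mul] at h2
    simp only [P, eval_add, eval_sub, eval_C, eval_mul, eval_pow, eval_X, eval_finsetSum]
    rw [← h2]
    congr 1
    · ring
    · refine Finset.sum_congr rfl fun i _ => ?_
      ring
  have hc := congrArg (fun p => Polynomial.coeff p m) hP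
  simp only [P, coeff_add, coeff_sub, coeff_C, coeff_C_mul, coeff_X_pow, finsetSum_coeff,
    coeff_zero, if_neg hm.ne', if_true] at hc
  rw [Finset.sum_eq_zero] at hc
  · apply hτ1
    simpa using hc
  · intro i hi
    rw [if_neg, mul_zero]
    omega

theorem rad_all {D : Type u} [DivisionRing D] (H : HH D) (R : RR D) (h1 : (1 : D) ∈ CC D)
    {a : D} (N : ℕ) (hN : 0 < N) (haN : a ^ N ∈ Subring.center D) : a ∈ CC D := by
  by_cases h : a ∈ Subring.center D
  · have := cc_mul h h1
    rwa [mul_one] at this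
  · exact rad_mem' H R N hN haN h

/-- `x w⁻¹` is a sum of commutators when `w = v x v⁻¹ - x`. -/
theorem xw_mem {D : Type u} [DivisionRing D] (H : HH D) (R : RR D) (h1 : (1 : D) ∈ CC D)
    {v x : D} (hvx : v * x ≠ x * v) : x * (v * x * v⁻¹ - x)⁻¹ ∈ CC D := by
  have hv0 : v ≠ 0 := by rintro rfl; exact hvx (by simp)
  have hx0 : x ≠ 0 := by rintro rfl; exact hvx (by simp)
  obtain ⟨m, hm, hym⟩ := H v x hv0 hx0
  obtain ⟨y, hy⟩ : ∃ y, y = v * x * v⁻¹ * x⁻¹ := ⟨_, rfl⟩
  rw [← hy] at hym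
  have hyx : v * x = y * x * v := by
    rw [hy, inv_mul_cancel_right₀ hx0, inv_mul_cancel_right₀ hv0]
  have hy1 : y ≠ 1 := by
    intro h
    rw [h, one_mul] at hyx
    exact hvx hyx
  have hyw : (y - 1)⁻¹ = x * (v * x * v⁻¹ - x)⁻¹ := by
    have h2 : y - 1 = (v * x * v⁻¹ - x) * x⁻¹ := by
      rw [sub_mul, mul_inv_cancel₀ hx0, hy]
    rw [h2, mul_inv_rev, inv_inv]
  rw [← hyw]
  by_cases hbm1 : y ^ m = 1
  · have h2 := R y m hm hbm1
    have := cc_mul (inv_center' (Subring.sub_mem _ h2 (Subring.one_mem _))) h1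
    rwa [mul_one] at this
  · have hne : y ^ m - 1 ≠ 0 := sub_ne_zero.2 hbm1
    have hb1 : y - 1 ≠ 0 := sub_ne_zero.2 hy1
    have hgs : (y - 1) * (∑ i ∈ Finset.range m, y ^ i) = y ^ m - 1 := mul_geom_sum y m
    have hcc : y ^ m - 1 ∈ Subring.center D := Subring.sub_mem _ hym (Subring.one_mem _)
    have h2 : (y - 1)⁻¹ = (y ^ m - 1)⁻¹ * ∑ i ∈ Finset.range m, y ^ i := by
      have h3 : (∑ i ∈ Finset.range m, y ^ i) = (y - 1)⁻¹ * (y ^ m - 1) := by
        rw [← hgs, inv_mul_cancel_left₀ hb1]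
      rw [h3]
      have h4 := Subring.mem_center_iff.1 (inv_center' hcc) ((y - 1)⁻¹ * (y ^ m - 1))
      rw [← h4, mul_assoc, mul_inv_cancel₀ hne, mul_one]
    rw [h2]
    apply cc_mul (inv_center' hcc)
    refine (CC D).sum_mem fun i _ => rad_all H R h1 m hm ?_
    rw [← pow_mul, mul_comm, pow_mul]
    exact Subring.pow_mem _ hym i

/-- membership in the image of `Ad v - 1` -/
def ImV {D : Type u} [DivisionRing D] (v : D) : AddSubgroup D where
  carrier := {w | ∃ x, w = v * x * v⁻¹ - x}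
  add_mem' := by
    rintro _ _ ⟨x, rfl⟩ ⟨y, rfl⟩
    exact ⟨x + y, by rw [mul_add, add_mul]; abel⟩
  zero_mem' := ⟨0, by simp⟩
  neg_mem' := by
    rintro _ ⟨x, rfl⟩
    exact ⟨-x, by rw [mul_neg, neg_mul]; abel⟩

theorem imV_left {D : Type u} [DivisionRing D] {v c w : D} (hc : v * c = c * v)
    (hw : w ∈ ImV v) : c * w ∈ ImV v := by
  obtain ⟨x, rfl⟩ := hw
  refine ⟨c * x, ?_⟩
  rw [← mul_assoc v, hc, mul_sub]
  simp only [mul_assoc]

theorem imV_right {D : Type u} [DivisionRing D] {v c w : D} (_hv : v ≠ 0) (hc : v * c = c * v)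
    (hw : w ∈ ImV v) : w * c ∈ ImV v := by
  obtain ⟨x, rfl⟩ := hw
  refine ⟨x * c, ?_⟩
  have h1 : c * v⁻¹ = v⁻¹ * c := ((show Commute c v from hc.symm).inv_right₀).eq
  rw [sub_mul]
  simp only [mul_assoc]
  rw [h1]

theorem imV_disj {D : Type u} [DivisionRing D] {v w : D} (hv : v ≠ 0) (N : ℕ) (hN : (N : D) ≠ 0)
    (hvN : v ^ N ∈ Subring.center D) (hw : w ∈ ImV v) (hc : v * w = w * v) : w = 0 := by
  obtain ⟨x, rfl⟩ := hw
  obtain ⟨w, hw⟩ : ∃ w, w = v * x * v⁻¹ - x := ⟨_, rfl⟩
  rw [← hw] at hc ⊢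
  have h1 : v * x = (x + w) * v := by
    rw [hw, add_sub_cancel, inv_mul_cancel_right₀ hv]
  have h2 : ∀ k : ℕ, v ^ k * x = (x + k * w) * v ^ k := by
    intro k
    induction k with
    | zero => simp
    | succ k ih =>
      have h3 : v * ((k : D) * w) = (k : D) * w * v := by
        rw [← mul_assoc, ← (Nat.cast_commute k v).eq, mul_assoc, hc, ← mul_assoc]
      rw [pow_succ', mul_assoc, ih, ← mul_assoc, mul_add, h1, h3]
      push_cast
      noncomm_ring
  have h3 := h2 N
  rw [← Subring.mem_center_iff.1 hvN x] at h3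
  have h4 := mul_right_cancel₀ (pow_ne_zero N hv) h3
  have h5 : (N : D) * w = 0 := by
    have : x + N * w = x + 0 := by rw [← h4, add_zero]
    exact add_left_cancel this
  rcases mul_eq_zero.1 h5 with h | h
  · exact absurd h hN
  · exact h

theorem imV_decomp {D : Type u} [DivisionRing D] {v : D} (hv : v ≠ 0) (N : ℕ) (hN : (N : D) ≠ 0)
    (hvN : v ^ N ∈ Subring.center D) (z : D) :
    ∃ c d : D, v * c = c * v ∧ d ∈ ImV v ∧ z = c + d := by
  classical
  set S : D := ∑ i ∈ Finset.range N, v ^ i * z * (v ^ i)⁻¹ with hS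
  have hcN : (N : D) ∈ Subring.center D := natCast_mem _ N
  have hcN' := inv_center' hcN
  have hSv : v * S = S * v := by
    have h1 : v * S * v⁻¹ = S := by
      rw [hS, Finset.mul_sum, Finset.sum_mul]
      have h2 : ∀ i ∈ Finset.range N, v * (v ^ i * z * (v ^ i)⁻¹) * v⁻¹ =
          v ^ (i + 1) * z * (v ^ (i + 1))⁻¹ := by
        intro i _
        rw [pow_succ', mul_inv_rev]
        simp only [mul_assoc]
      rw [Finset.sum_congr rfl h2]
      have h3 := Finset.sum_range_succ (fun i => v ^ i * z * (v ^ i)⁻¹) N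
      have h4 := Finset.sum_range_succ' (fun i => v ^ i * z * (v ^ i)⁻¹) N
      rw [h3] at h4
      have h5 : v ^ N * z * (v ^ N)⁻¹ = v ^ 0 * z * (v ^ 0)⁻¹ := by
        rw [← Subring.mem_center_iff.1 hvN z, mul_inv_cancel_right₀ (pow_ne_zero N hv)]
        simp
      rw [h5] at h4
      exact (add_right_cancel h4).symm
    nth_rewrite 2 [← h1]
    rw [inv_mul_cancel_right₀ hv]
  have hpart : ∀ i : ℕ, z - v ^ i * z * (v ^ i)⁻¹ ∈ ImV v := by
    intro i
    induction i with
    | zero => simp [(ImV v).zero_mem]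
    | succ i ih =>
      have h1 : z - v ^ (i + 1) * z * (v ^ (i + 1))⁻¹ = (z - v ^ i * z * (v ^ i)⁻¹) -
          (v * (v ^ i * z * (v ^ i)⁻¹) * v⁻¹ - v ^ i * z * (v ^ i)⁻¹) := by
        have h2 : v * (v ^ i * z * (v ^ i)⁻¹) * v⁻¹ = v ^ (i + 1) * z * (v ^ (i + 1))⁻¹ := by
          rw [pow_succ', mul_inv_rev]
          simp only [mul_assoc]
        rw [h2]; abel
      rw [h1]
      exact (ImV v).sub_mem ih ⟨_, rfl⟩
  refine ⟨(N : D)⁻¹ * S, z - (N : D)⁻¹ * S, ?_, ?_, by abel⟩
  · rw [← mul_assoc, Subring.mem_center_iff.1 hcN' v, mul_assoc, hSv, mul_assoc]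
  · have h1 : z - (N : D)⁻¹ * S = (N : D)⁻¹ * ∑ i ∈ Finset.range N, (z - v ^ i * z * (v ^ i)⁻¹) := by
      rw [Finset.sum_sub_distrib, Finset.sum_const, Finset.card_range, nsmul_eq_mul, mul_sub,
        inv_mul_cancel_left₀ hN]
    rw [h1]
    exact imV_left (Subring.mem_center_iff.1 hcN' v) ((ImV v).sum_mem fun i _ => hpart i)

theorem hua_cl {D : Type u} [DivisionRing D] (A : AddSubgroup D) (hA : ∀ w ∈ A, w⁻¹ ∈ A)
    {a b : D} (ha : a ∈ A) (hb : b ∈ A) : a * b * a ∈ A := by
  by_cases ha0 : a = 0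
  · rw [ha0]; simp [A.zero_mem]
  by_cases hb0 : b = 0
  · rw [hb0]; simp [A.zero_mem]
  by_cases hab : b⁻¹ = a
  · rw [← hab, inv_mul_cancel₀ hb0, one_mul, hab]; exact ha
  have hs : b⁻¹ - a ≠ 0 := sub_ne_zero.2 hab
  have h1 : a⁻¹ + (b⁻¹ - a)⁻¹ ∈ A :=
    A.add_mem (hA _ ha) (hA _ (A.sub_mem (hA _ hb) ha))
  have h2 : a⁻¹ + (b⁻¹ - a)⁻¹ = a⁻¹ * b⁻¹ * (b⁻¹ - a)⁻¹ := by
    have : a⁻¹ * b⁻¹ * (b⁻¹ - a)⁻¹ = a⁻¹ * ((b⁻¹ - a) + a) * (b⁻¹ - a)⁻¹ := by
      rw [sub_add_cancel]
    rw [this, mul_add, add_mul, inv_mul_cancel₀ ha0, mul_assoc, mul_inv_cancel₀ hs, mul_one,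
      one_mul]
  have h3 := hA _ h1
  rw [h2, mul_inv_rev, mul_inv_rev, inv_inv, inv_inv, inv_inv, sub_mul, ← mul_assoc,
    inv_mul_cancel₀ hb0, one_mul] at h3
  have h4 := A.sub_mem ha h3
  rw [sub_sub_cancel, ← mul_assoc] at h4
  exact h4

theorem main_per {D : Type u} [DivisionRing D] (H : HH D) {a₀ b₀ : D} (hab : a₀ * b₀ ≠ b₀ * a₀)
    (z : D) : z ∈ CC D := by
  classical
  have R := hR D H
  -- a noncentral commutator
  obtain ⟨p, q, hp, hq, hnc⟩ : ∃ p q : D, p ≠ 0 ∧ q ≠ 0 ∧ p * q * p⁻¹ * q⁻¹ ∉ Subring.center D := by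
    by_contra hcon
    push Not at hcon
    exact hab (hA D hcon a₀ b₀)
  obtain ⟨n, hn, hvn⟩ := H p q hp hq
  obtain ⟨v, hv⟩ : ∃ v, v = p * q * p⁻¹ * q⁻¹ := ⟨_, rfl⟩
  rw [← hv] at hnc hvn
  have hv0 : v ≠ 0 := by rintro h; exact hnc (h ▸ Subring.zero_mem _)
  obtain ⟨N, hN, hvN, hND⟩ := exists_exp H R n hn hvn
  obtain ⟨x, hx⟩ : ∃ x, x * v ≠ v * x := by
    by_contra hcon
    push Not at hcon
    exact hnc (Subring.mem_center_iff.2 hcon)
  have h1 : (1 : D) ∈ CC D := one_mem' H R N hN hvN hx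
  -- an element of the image with inverse outside
  obtain ⟨w, hw, hwi⟩ : ∃ w ∈ ImV v, w⁻¹ ∉ ImV v := by
    by_contra hcon
    push Not at hcon
    set a := v * x * v⁻¹ - x with ha
    have haI : a ∈ ImV v := ⟨x, ha⟩
    have ha0 : a ≠ 0 := by
      intro h
      rw [ha, sub_eq_zero] at h
      apply hx
      nth_rewrite 1 [← h]
      rw [inv_mul_cancel_right₀ hv0]
    obtain ⟨y, hy⟩ : ∃ y, y = a⁻¹ * v * a * v⁻¹ := ⟨_, rfl⟩
    have hby : ∀ b ∈ ImV v, b * y ∈ ImV v := by
      intro b hb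
      have k1 : a⁻¹ * b * a⁻¹ ∈ ImV v := hua_cl _ hcon (hcon _ haI) hb
      have k2 : a⁻¹ * b * a⁻¹ * v ∈ ImV v := imV_right hv0 rfl k1
      have k3 := hua_cl _ hcon haI k2
      have k4 := imV_right hv0 (c := v⁻¹) (by rw [mul_inv_cancel₀ hv0, inv_mul_cancel₀ hv0]) k3
      have k5 : a * (a⁻¹ * b * a⁻¹ * v) * a * v⁻¹ = b * y := by
        rw [hy]
        simp only [mul_assoc]
        rw [mul_inv_cancel_left₀ ha0]
      rwa [k5] at k4
    obtain ⟨c, d, hc, hd, hyd⟩ := imV_decomp hv0 N hND hvN y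
    have hone : (1 : D) ∉ ImV v := by
      intro h
      exact one_ne_zero (imV_disj hv0 N hND hvN h (by simp))
    have hd0 : d = 0 := by
      by_contra hd0
      apply hone
      have k1 := hby _ (hcon _ hd)
      have k2 : d⁻¹ * y = d⁻¹ * c + 1 := by
        rw [hyd, mul_add, inv_mul_cancel₀ hd0]
      rw [k2] at k1
      have k3 := (ImV v).sub_mem k1 (imV_right hv0 hc (hcon _ hd))
      rwa [add_sub_cancel_left] at k3
    rw [hd0, add_zero] at hyd
    rw [← hyd] at hc
    have hva : v * a = a * y * v := by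
      rw [hy]
      simp only [mul_assoc]
      rw [mul_inv_cancel_left₀ ha0, inv_mul_cancel₀ hv0, mul_one]
    have hpow : ∀ k : ℕ, v ^ k * a = a * y ^ k * v ^ k := by
      intro k
      induction k with
      | zero => simp
      | succ k ih =>
        have hck : v * y ^ k = y ^ k * v := ((show Commute v y from hc).pow_right k).eq
        calc v ^ (k + 1) * a = v * (v ^ k * a) := by rw [pow_succ', mul_assoc]
          _ = (v * a) * y ^ k * v ^ k := by rw [ih]; simp only [mul_assoc]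
          _ = a * y * (v * y ^ k) * v ^ k := by rw [hva]; simp only [mul_assoc]
          _ = a * y ^ (k + 1) * v ^ (k + 1) := by
            rw [hck, pow_succ' y, pow_succ' v]; simp only [mul_assoc]
    have hyN : y ^ N = 1 := by
      have k1 := hpow N
      rw [← Subring.mem_center_iff.1 hvN a] at k1
      have k2 := mul_right_cancel₀ (pow_ne_zero N hv0) k1
      have k3 : a * 1 = a * y ^ N := by rw [mul_one]; exact k2
      exact (mul_left_cancel₀ ha0 k3).symm
    have hyc := R y N hN hyN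
    have hy0 : y ≠ 0 := by
      intro h
      rw [h, zero_pow hN.ne'] at hyN
      exact zero_ne_one hyN
    by_cases hy1 : y = 1
    · rw [hy1, mul_one] at hva
      exact ha0 (imV_disj hv0 N hND hvN haI hva)
    · refine eigFalse D H R v a y hv0 ha0 hyc hy0 hy1 ?_
      rw [hva, Subring.mem_center_iff.1 hyc a]
  obtain ⟨x₁, hx₁⟩ := hw
  have hw0 : w ≠ 0 := by
    intro h
    apply hwi
    rw [h, inv_zero]
    exact (ImV v).zero_mem
  have hvx₁ : v * x₁ ≠ x₁ * v := by
    intro h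
    apply hw0
    rw [hx₁, h, mul_inv_cancel_right₀ hv0, sub_self]
  -- `c w⁻¹ ∈ CC D`
  have hcw : ∀ c : D, v * c = c * v → c * w⁻¹ ∈ CC D := by
    intro c hc
    have k1 := xw_mem H R h1 hvx₁
    have k2 : x₁ * w⁻¹ ∈ CC D := by rwa [← hx₁] at k1
    have k3 : v * (x₁ + c) ≠ (x₁ + c) * v := by
      intro h
      apply hvx₁
      rw [mul_add, add_mul, hc] at h
      exact add_right_cancel h
    have k4 := xw_mem H R h1 k3
    have k5 : v * (x₁ + c) * v⁻¹ - (x₁ + c) = w := by
      rw [mul_add, add_mul, hc, mul_inv_cancel_right₀ hv0, hx₁]; abel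
    rw [k5] at k4
    have k6 := (CC D).sub_mem k4 k2
    rwa [add_mul, add_sub_cancel_left] at k6
  obtain ⟨c₀, d₀, hc₀, hd₀, hwd⟩ := imV_decomp hv0 N hND hvN w⁻¹
  have hc₀0 : c₀ ≠ 0 := by
    intro h
    apply hwi
    rw [hwd, h, zero_add]
    exact hd₀
  have hIm : ∀ d ∈ ImV v, d ∈ CC D := by
    rintro _ ⟨x, rfl⟩
    exact cc_conj x v hv0
  have hcent : ∀ c : D, v * c = c * v → c ∈ CC D := by
    intro c hc
    have hci : v * c₀⁻¹ = c₀⁻¹ * v := ((show Commute v c₀ from hc₀).inv_right₀).eq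
    have he : v * (c * c₀⁻¹) = c * c₀⁻¹ * v := by
      rw [← mul_assoc, hc, mul_assoc, hci, mul_assoc]
    have k1 := hcw _ he
    rw [hwd, mul_add, inv_mul_cancel_right₀ hc₀0] at k1
    have k2 := (CC D).sub_mem k1 (hIm _ (imV_left he hd₀))
    rwa [add_sub_cancel_right] at k2
  obtain ⟨c, d, hc, hd, rfl⟩ := imV_decomp hv0 N hND hvN z
  exact (CC D).add_mem (hcent c hc) (hIm d hd)

end Pool.Agent.H415
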