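import Pool.Agent.H724.ST.Stm

/-! Project ST (helper724), part ST-PC: the pieces of `L` (helper415). -/

set_option autoImplicit false

namespace Pool.Agent.H415.ST_PC

open Pool.Agent
open Pool.Agent.H724.ST

theorem ar_eq (N x q : ℕ) (hq : q ≤ N) :
    (x + 1) * (N + 1) - q = (N + 1) * x + (N + 1 - q) := by
  have h : (x + 1) * (N + 1) = (N + 1) * x + (N + 1) := by ring
  omega

theorem ar_mod (N x q : ℕ) (h1 : 1 ≤ q) (hq : q ≤ N) :
    ((x + 1) * (N + 1) - q) % (N + 1) = N + 1 - q := by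
  rw [ar_eq N x q hq, Nat.mul_add_mod, Nat.mod_eq_of_lt (by omega)]

theorem ar_div (N x q : ℕ) (h1 : 1 ≤ q) (hq : q ≤ N) :
    ((x + 1) * (N + 1) - q) / (N + 1) = x := by
  rw [ar_eq N x q hq, Nat.mul_add_div (by omega), Nat.div_eq_of_lt (by omega), add_zero]

theorem le_E (C : Chk) (x q : ℕ) (hx : x < C.p) : (x + 1) * (C.N + 1) - q ≤ C.E :=
  (Nat.sub_le _ _).trans (Nat.mul_le_mul_right _ hx)

theorem pc (h1 : H724.ST.S_SC) : H724.ST.S_PC := by
  intro C hC
  obtain ⟨-, -, -, -, -, s6, s7, -⟩ := h1 C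
  have hE : C.N + 1 ≤ C.E := by
    have := Nat.mul_le_mul_right (C.N + 1) hC.hp
    rw [one_mul] at this
    exact this
  have hN := hC.hN
  have p2 : ∀ u v, (¬ OK C u ∨ ¬ OK C v) → Lp C u v := by
    intro u v h
    rcases h with h | h <;> rw [OK, not_not] at h <;> simp [Lp, acc, h]
  have hb : ∀ x, x < C.p → sc C (blk C x) = (1, (x + 1) * (C.N + 1) - 1, 0, 1) := by
    intro x hx
    exact s6 ((x + 1) * (C.N + 1) - 1) 1 (le_E C x 1 hx) (by omega)
  have hm1 : ∀ x, ((x + 1) * (C.N + 1) - 1) % (C.N + 1) = C.N := by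
    intro x
    rw [ar_mod C.N x 1 le_rfl hN]
    omega
  refine ⟨fun x hx => ⟨?_, ?_⟩, p2, ?_, ?_⟩
  · rw [Lp, hb x hx, show sc C [] = (0, 0, 0, 0) from rfl]
    simp [acc, hm1 x]
  · rw [Lp, hb x hx, show sc C [] = (0, 0, 0, 0) from rfl]
    simp [acc, hm1 x]
  · intro q x y q' hq1 hqN hx hy hq' hor
    have hle : q' ≤ C.E := by
      rcases hor with h | h
      · omega
      · have := hC.hd q x y
        omega
    rw [Lp, s6 _ q' (le_E C x q hx) hle, s6 _ q' (le_E C y q hy) hle]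
    have e1 : C.N + 1 - (C.N + 1 - q) = q := by omega
    have e2 : ¬ C.N + 1 - q = 0 := by omega
    have e3 : ¬ q' = 0 := by omega
    simp only [acc, ar_mod C.N x q hq1 hqN, ar_mod C.N y q hq1 hqN, ar_div C.N x q hq1 hqN,
      ar_div C.N y q hq1 hqN, e1]
    simp [e2, e3, hor]
  · intro q x y z z' hq1 hqN hx hy h0
    by_cases hu : OK C (rn ((x + 1) * (C.N + 1) - q) ++ true :: z)
    · by_cases hv : OK C (rn ((y + 1) * (C.N + 1) - q) ++ true :: z')
      · obtain ⟨-, u2, u3⟩ := s7 _ _ _ hu rfl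
        obtain ⟨-, v2, v3⟩ := s7 _ _ _ hv rfl
        have e1 : C.N + 1 - (C.N + 1 - q) = q := by omega
        have e2 : ¬ C.N + 1 - q = 0 := by omega
        rw [Lp]
        simp only [acc, u2, v2, ar_mod C.N x q hq1 hqN, ar_mod C.N y q hq1 hqN,
          ar_div C.N x q hq1 hqN, ar_div C.N y q hq1 hqN, e1]
        rcases u3 with u3 | u3 <;> rcases v3 with v3 | v3 <;> simp [u3, v3, e2, h0]
      · exact p2 _ _ (Or.inr hv)
    · exact p2 _ _ (Or.inl hu)

end Pool.Agent.H415.ST_PC
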