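import Mathlib
import Pool.Agent.H812.Tm.Spec1

/-!
# Project TM of helper812: bounded slopes of the level functions
-/

set_option autoImplicit false

open Real Filter Topology
open scoped ContDiff

namespace Pool.Agent.H415.TmSSlope

open Pool.Agent.W811.Stu Pool.Agent.H812.Tm

lemma U_open : IsOpen U := by
  unfold U
  exact isOpen_lt (continuous_fst.abs) continuous_const

/-- the `z`-derivative of a function of two variables -/
lemma hasDerivAt_dz {f : ℝ × ℝ → ℝ} {v : ℝ × ℝ} (h : DifferentiableAt ℝ f v) :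
    HasDerivAt (fun s => f (s, v.2)) (dz f v) v.1 := by
  have h1 : HasFDerivAt f (fderiv ℝ f v) ((fun s : ℝ => (s, v.2)) v.1) := h.hasFDerivAt
  have h2 : HasDerivAt (fun s : ℝ => (s, v.2)) ((1 : ℝ), (0 : ℝ)) v.1 :=
    (hasDerivAt_id v.1).prodMk (hasDerivAt_const v.1 v.2)
  exact h1.comp_hasDerivAt v.1 h2

/-- derivative of `B` -/
lemma hasDerivAt_B (δ z : ℝ) (hz : 0 < 1 - z ^ 2) :
    HasDerivAt (Bf δ) (z * δ ^ 2 / (Bf δ z * (1 - z ^ 2) ^ 2)) z := by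
  have hnum : 0 < 1 + δ ^ 2 - z ^ 2 := by nlinarith [sq_nonneg δ]
  have hq : 0 < (1 + δ ^ 2 - z ^ 2) / (1 - z ^ 2) := div_pos hnum hz
  have h1 : HasDerivAt (fun s : ℝ => 1 + δ ^ 2 - s ^ 2) (-(2 * z)) z := by
    have := ((hasDerivAt_pow 2 z).const_sub (1 + δ ^ 2))
    simpa using this
  have h2 : HasDerivAt (fun s : ℝ => 1 - s ^ 2) (-(2 * z)) z := by
    have := ((hasDerivAt_pow 2 z).const_sub (1 : ℝ))
    simpa using this
  have h3 : HasDerivAt (fun s => √((1 + δ ^ 2 - s ^ 2) / (1 - s ^ 2)))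
      ((-(2 * z) * (1 - z ^ 2) - (1 + δ ^ 2 - z ^ 2) * -(2 * z)) / (1 - z ^ 2) ^ 2 /
      (2 * √((1 + δ ^ 2 - z ^ 2) / (1 - z ^ 2)))) z := (h1.div h2 hz.ne').sqrt hq.ne'
  have hB : Bf δ = fun s => √((1 + δ ^ 2 - s ^ 2) / (1 - s ^ 2)) := rfl
  rw [hB]
  refine h3.congr_deriv ?_
  have hs : √((1 + δ ^ 2 - z ^ 2) / (1 - z ^ 2)) ≠ 0 := (Real.sqrt_pos.2 hq).ne'
  have hz' := hz.ne'
  field_simp
  ring

lemma hasDerivAt_w (z : ℝ) (hz : 0 < 1 - z ^ 2) :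
    HasDerivAt (fun s => √(1 - s ^ 2)) (-(z / √(1 - z ^ 2))) z := by
  have h2 : HasDerivAt (fun s : ℝ => 1 - s ^ 2) (-(2 * z)) z := by
    have := ((hasDerivAt_pow 2 z).const_sub (1 : ℝ))
    simpa using this
  refine (h2.sqrt hz.ne').congr_deriv ?_
  have hs : √(1 - z ^ 2) ≠ 0 := (Real.sqrt_pos.2 hz).ne'
  field_simp

lemma B_sq (δ z : ℝ) (hz : 0 < 1 - z ^ 2) : Bf δ z ^ 2 * (1 - z ^ 2) = 1 + δ ^ 2 - z ^ 2 := by
  have hnum : 0 < 1 + δ ^ 2 - z ^ 2 := by nlinarith [sq_nonneg δ]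
  unfold Bf
  rw [Real.sq_sqrt (div_pos hnum hz).le, div_mul_cancel₀ _ hz.ne']

lemma B_ge (δ z : ℝ) (hz : 0 < 1 - z ^ 2) : 1 ≤ Bf δ z := by
  unfold Bf
  rw [Real.one_le_sqrt, le_div_iff₀ hz]
  nlinarith [sq_nonneg δ]

/-- the `z`-derivative of the parametrisation -/
lemma hasDer_ze (δ : ℝ) (v : ℝ × ℝ) (hz : 0 < 1 - v.1 ^ 2) :
    HasDer (fun s => ze δ (s, v.2)) ⟨1,
      (v.1 * δ ^ 2 / (Bf δ v.1 * (1 - v.1 ^ 2) ^ 2)) * cos v.2,
      (v.1 * δ ^ 2 / (Bf δ v.1 * (1 - v.1 ^ 2) ^ 2)) *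
          (v.1 * cos v.2 + √(1 - v.1 ^ 2) * sin v.2) +
        Bf δ v.1 * (cos v.2 + -(v.1 / √(1 - v.1 ^ 2)) * sin v.2)⟩ v.1 := by
  refine ⟨hasDerivAt_id v.1, ?_, ?_⟩
  · exact (hasDerivAt_B δ v.1 hz).mul_const (cos v.2)
  · have h1 : HasDerivAt (fun s : ℝ => s * cos v.2 + √(1 - s ^ 2) * sin v.2)
        (cos v.2 + -(v.1 / √(1 - v.1 ^ 2)) * sin v.2) v.1 := by
      have h2 : HasDerivAt (fun s : ℝ => s * cos v.2 + √(1 - s ^ 2) * sin v.2)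
          (1 * cos v.2 + -(v.1 / √(1 - v.1 ^ 2)) * sin v.2) v.1 :=
        ((hasDerivAt_id v.1).mul_const (cos v.2)).add
          ((hasDerivAt_w v.1 hz).mul_const (sin v.2))
      rwa [one_mul] at h2
    exact (hasDerivAt_B δ v.1 hz).mul h1

/-- lower bound for the gradient -/
lemma grad_low (δ : ℝ) (v : ℝ × ℝ) (hz : 0 < 1 - v.1 ^ 2) :
    (1 - v.1 ^ 2) ^ 2 / 3 ≤ gX (ze δ v) ^ 2 + gB (ze δ v) ^ 2 := by
  have hB := B_sq δ v.1 hz
  have hw : √(1 - v.1 ^ 2) ^ 2 = 1 - v.1 ^ 2 := Real.sq_sqrt hz.le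
  have hcs := Real.sin_sq_add_cos_sq v.2
  unfold gX gB ze
  simp only
  generalize Bf δ v.1 = b at *
  generalize √(1 - v.1 ^ 2) = w at *
  generalize sin v.2 = s at *
  generalize cos v.2 = c at *
  generalize v.1 = z at *
  have e : (b * (z * c + w * s) - b * c * z) ^ 2 +
      (b * c - b * (z * c + w * s) * z) ^ 2 = (b ^ 2 * w ^ 2) * (s ^ 2 + (w * c - z * s) ^ 2) := by
    have h1 : b * c - b * (z * c + w * s) * z = b * (w ^ 2 * c - w * z * s) := by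
      rw [hw]; ring
    rw [h1]
    ring
  rw [e, hw, hB]
  have h2 : 1 - z ^ 2 ≤ 3 * (s ^ 2 + (w * c - z * s) ^ 2) := by
    have h3 : w ^ 2 * c ^ 2 ≤ 2 * (w * c - z * s) ^ 2 + 2 * (z ^ 2 * s ^ 2) := by
      nlinarith [sq_nonneg ((w * c - z * s) - z * s)]
    have h4 : z ^ 2 * s ^ 2 ≤ s ^ 2 := by nlinarith [sq_nonneg s]
    have h5 : w ^ 2 * s ^ 2 + z ^ 2 * s ^ 2 = s ^ 2 := by rw [hw]; ring
    have h6 : w ^ 2 = w ^ 2 * c ^ 2 + w ^ 2 * s ^ 2 := by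
      have : w ^ 2 = w ^ 2 * (s ^ 2 + c ^ 2) := by rw [hcs, mul_one]
      linarith
    nlinarith [sq_nonneg (w * c - z * s)]
  have h7 : 1 - z ^ 2 ≤ 1 + δ ^ 2 - z ^ 2 := by nlinarith [sq_nonneg δ]
  have h8 : 0 ≤ s ^ 2 + (w * c - z * s) ^ 2 := by positivity
  calc (1 - z ^ 2) ^ 2 / 3 = (1 - z ^ 2) * ((1 - z ^ 2) / 3) := by ring
    _ ≤ (1 - z ^ 2) * (s ^ 2 + (w * c - z * s) ^ 2) :=
        mul_le_mul_of_nonneg_left (by linarith) hz.le
    _ ≤ (1 + δ ^ 2 - z ^ 2) * (s ^ 2 + (w * c - z * s) ^ 2) :=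
        mul_le_mul_of_nonneg_right h7 h8

/-- bounds for the `z`-derivatives of the coordinates -/
lemma der_bd (δ q : ℝ) (v : ℝ × ℝ) (hq : 0 < q) (hz : q ≤ 1 - v.1 ^ 2) :
    |(v.1 * δ ^ 2 / (Bf δ v.1 * (1 - v.1 ^ 2) ^ 2)) * cos v.2| ≤ δ ^ 2 / q ^ 2 ∧
    |(v.1 * δ ^ 2 / (Bf δ v.1 * (1 - v.1 ^ 2) ^ 2)) *
          (v.1 * cos v.2 + √(1 - v.1 ^ 2) * sin v.2) +
        Bf δ v.1 * (cos v.2 + -(v.1 / √(1 - v.1 ^ 2)) * sin v.2)| ≤
      2 * (δ ^ 2 / q ^ 2) + (1 + δ ^ 2 / q) * (1 + 1 / q) := by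
  have hz0 : 0 < 1 - v.1 ^ 2 := lt_of_lt_of_le hq hz
  have hB := B_sq δ v.1 hz0
  have hB1 := B_ge δ v.1 hz0
  have hw : √(1 - v.1 ^ 2) ^ 2 = 1 - v.1 ^ 2 := Real.sq_sqrt hz0.le
  have hw0 : 0 < √(1 - v.1 ^ 2) := Real.sqrt_pos.2 hz0
  have hw1 : √(1 - v.1 ^ 2) ≤ 1 := by
    rw [Real.sqrt_le_one]
    nlinarith [sq_nonneg v.1]
  have hs : |sin v.2| ≤ 1 := Real.abs_sin_le_one _
  have hc : |cos v.2| ≤ 1 := Real.abs_cos_le_one _
  have hv : |v.1| ≤ 1 := by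
    rw [← sq_le_one_iff_abs_le_one]
    linarith
  have hBle : Bf δ v.1 ≤ 1 + δ ^ 2 / q := by
    have h1 : Bf δ v.1 ≤ Bf δ v.1 ^ 2 := by nlinarith
    have h2 : Bf δ v.1 ^ 2 = 1 + δ ^ 2 / (1 - v.1 ^ 2) := by
      field_simp
      linarith
    have h3 : δ ^ 2 / (1 - v.1 ^ 2) ≤ δ ^ 2 / q :=
      div_le_div_of_nonneg_left (by positivity) hq hz
    linarith
  have hD : |v.1 * δ ^ 2 / (Bf δ v.1 * (1 - v.1 ^ 2) ^ 2)| ≤ δ ^ 2 / q ^ 2 := by
    rw [abs_div, abs_mul, abs_of_nonneg (sq_nonneg δ),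
      abs_of_pos (mul_pos (by linarith) (pow_pos hz0 2))]
    have h1 : |v.1| * δ ^ 2 ≤ δ ^ 2 := by nlinarith [sq_nonneg δ]
    have h2 : q ^ 2 ≤ Bf δ v.1 * (1 - v.1 ^ 2) ^ 2 := by
      have h3 : q ^ 2 ≤ (1 - v.1 ^ 2) ^ 2 := pow_le_pow_left₀ hq.le hz 2
      have h4 : 0 ≤ (1 - v.1 ^ 2) ^ 2 := sq_nonneg _
      nlinarith
    exact div_le_div₀ (sq_nonneg δ) h1 (pow_pos hq 2) h2
  have hD0 : 0 ≤ δ ^ 2 / q ^ 2 := by positivity
  have hw' : |-(v.1 / √(1 - v.1 ^ 2))| ≤ 1 / q := by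
    rw [abs_neg, abs_div, abs_of_pos hw0]
    refine div_le_div₀ (by norm_num) hv hq ?_
    nlinarith
  generalize v.1 * δ ^ 2 / (Bf δ v.1 * (1 - v.1 ^ 2) ^ 2) = D at *
  generalize -(v.1 / √(1 - v.1 ^ 2)) = w' at *
  refine ⟨?_, ?_⟩
  · rw [abs_mul]
    calc |D| * |cos v.2| ≤ δ ^ 2 / q ^ 2 * 1 := mul_le_mul hD hc (abs_nonneg _) hD0
      _ = δ ^ 2 / q ^ 2 := mul_one _
  · refine (abs_add_le _ _).trans ?_
    rw [abs_mul, abs_mul]
    have e1 : |v.1 * cos v.2 + √(1 - v.1 ^ 2) * sin v.2| ≤ 2 := by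
      refine (abs_add_le _ _).trans ?_
      rw [abs_mul, abs_mul, abs_of_pos hw0]
      have a1 : |v.1| * |cos v.2| ≤ 1 * 1 := mul_le_mul hv hc (abs_nonneg _) (by norm_num)
      have a2 : √(1 - v.1 ^ 2) * |sin v.2| ≤ 1 * 1 :=
        mul_le_mul hw1 hs (abs_nonneg _) (by norm_num)
      linarith
    have e2 : |cos v.2 + w' * sin v.2| ≤ 1 + 1 / q := by
      refine (abs_add_le _ _).trans ?_
      rw [abs_mul]
      have a2 : |w'| * |sin v.2| ≤ 1 / q * 1 :=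
        mul_le_mul hw' hs (abs_nonneg _) (by positivity)
      linarith
    have e3 : |D| * |v.1 * cos v.2 + √(1 - v.1 ^ 2) * sin v.2| ≤ δ ^ 2 / q ^ 2 * 2 :=
      mul_le_mul hD e1 (abs_nonneg _) hD0
    have e4 : |Bf δ v.1| * |cos v.2 + w' * sin v.2| ≤ (1 + δ ^ 2 / q) * (1 + 1 / q) := by
      rw [abs_of_pos (by linarith)]
      exact mul_le_mul hBle e2 (abs_nonneg _) (by positivity)
    linarith

theorem tSSlope (h1 : SCoord) (h2 : SDt) : SSlope := by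
  intro δ r hδ hr
  by_cases hr0 : r < 0
  · refine ⟨1, one_pos, fun d _ m _ v hv => ?_⟩
    exact absurd (hv.trans_lt hr0) (not_lt.2 (abs_nonneg _))
  push Not at hr0
  set q : ℝ := 1 - r ^ 2 with hq
  have hq0 : 0 < q := by rw [hq]; nlinarith
  set M : ℝ := 2 * (δ ^ 2 / q ^ 2) + (1 + δ ^ 2 / q) * (1 + 1 / q) with hM
  have hM0 : 0 < M := by rw [hM]; positivity
  have hN := N0_ge hδ zero_le_one (show (1 : ℝ) < 1 + δ ^ 2 by
    have : 0 < δ ^ 2 := by positivity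
    linarith)
  refine ⟨(2 * N0 δ 1 + 2 * M) * (2 / q), by positivity, fun d hd m hm v hv hy => ?_⟩
  have hv2 : v.1 ^ 2 ≤ r ^ 2 := by
    rw [← sq_abs v.1]
    exact pow_le_pow_left₀ (abs_nonneg _) hv 2
  have hqz : q ≤ 1 - v.1 ^ 2 := by rw [hq]; linarith
  have hz0 : 0 < 1 - v.1 ^ 2 := lt_of_lt_of_le hq0 hqz
  have hvU : v ∈ U := lt_of_le_of_lt hv hr
  have hS : OnS δ (ze δ v) := (h1 δ).1 v hvU
  obtain ⟨g1, -, g3⟩ := h2 δ d m
  have hdiff : DifferentiableAt ℝ (Yf δ d m) v :=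
    ((g1 v hvU).contDiffAt (U_open.mem_nhds hvU)).differentiableAt (by simp)
  have hdt := g3 v hvU
  -- the derivative in the direction `z`
  have k1 := hasDerivAt_dz hdiff
  have k2 := ((hasDer_ze δ v hz0).orb d m).2.1
  have k3 := k1.unique k2
  obtain ⟨b1, b2⟩ := der_bd δ q v hq0 hqz
  obtain ⟨c1, c2, -⟩ := cmpY (κ := 1) hδ zero_le_one (by
    have : 0 < δ ^ 2 := by positivity
    linarith) hd hm hS (by show v.1 ^ 2 ≤ 1; linarith) (by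
      have e : (orb d (ze δ v) m).y = Yf δ d m v := rfl
      rw [e, ← sq_abs, ← cc_sq δ]
      exact pow_lt_pow_left₀ hy (abs_nonneg _) two_ne_zero)
  have hgrad := grad_low δ v hz0
  have tanU := hasDer_ze δ v hz0
  generalize (v.1 * δ ^ 2 / (Bf δ v.1 * (1 - v.1 ^ 2) ^ 2)) * cos v.2 = yz at *
  generalize (v.1 * δ ^ 2 / (Bf δ v.1 * (1 - v.1 ^ 2) ^ 2)) *
          (v.1 * cos v.2 + √(1 - v.1 ^ 2) * sin v.2) +
        Bf δ v.1 * (cos v.2 + -(v.1 / √(1 - v.1 ^ 2)) * sin v.2) = xz at *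
  -- tangency
  have htan : gA (ze δ v) + gB (ze δ v) * yz + gX (ze δ v) * xz = 0 := by
    obtain ⟨t1, t2, t3⟩ := tanU
    have hF : HasDerivAt (fun s => (ze δ (s, v.2)).x ^ 2 + (ze δ (s, v.2)).y ^ 2 +
        (ze δ (s, v.2)).z ^ 2 - 2 * (ze δ (s, v.2)).x * (ze δ (s, v.2)).y * (ze δ (s, v.2)).z)
        (2 * (gA (ze δ v) + gB (ze δ v) * yz + gX (ze δ v) * xz)) v.1 := by
      have := (((t3.pow 2).add (t2.pow 2)).add (t1.pow 2)).sub
        (((t3.const_mul 2).mul t2).mul t1)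
      refine this.congr_deriv ?_
      unfold gA gB gX
      simp only [Pi.mul_apply, Prod.mk.eta]
      push_cast
      ring
    have hG : (fun s => (ze δ (s, v.2)).x ^ 2 + (ze δ (s, v.2)).y ^ 2 +
        (ze δ (s, v.2)).z ^ 2 - 2 * (ze δ (s, v.2)).x * (ze δ (s, v.2)).y * (ze δ (s, v.2)).z)
        =ᶠ[𝓝 v.1] fun _ => 1 + δ ^ 2 := by
      have ho : IsOpen {s : ℝ | |s| < 1} := isOpen_lt continuous_abs continuous_const
      filter_upwards [ho.mem_nhds (show |v.1| < 1 from hvU)] with s hs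
      exact (h1 δ).1 (s, v.2) hs
    have h3 := hF.unique ((hasDerivAt_const v.1 (1 + δ ^ 2)).congr_of_eventuallyEq hG)
    linarith
  set p := ze δ v with hp
  have m1 : gX p * dz (Yf δ d m) v = (dorb d p (fH p) m).y + yz * Vy d m p := by
    have e : lc (gX p) ⟨1, yz, xz⟩ 0 ⟨0, 0, 0⟩ = lc 1 (fH p) yz (fV p) := by
      unfold lc fH fV
      ext
      · simp
      · simp only; ring
      · simp only; linear_combination htan
    have e2 := congrArg (fun u => (dorb d p u m).y) e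
    simp only [dorb_lc] at e2
    rw [k3]
    simp only [lc] at e2
    unfold Vy
    linarith
  have m2 : -gB p * dz (Yf δ d m) v = (dorb d p (fK p) m).y + xz * Vy d m p := by
    have e : lc (-gB p) ⟨1, yz, xz⟩ 0 ⟨0, 0, 0⟩ = lc 1 (fK p) xz (fV p) := by
      unfold lc fK fV
      ext
      · simp
      · simp only; linear_combination -htan
      · simp only; ring
    have e2 := congrArg (fun u => (dorb d p u m).y) e
    simp only [dorb_lc] at e2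
    rw [k3]
    simp only [lc] at e2
    unfold Vy
    linarith
  have hVy : |Vy d m p| ≤ |dt (Yf δ d m) v| := by
    rw [hdt, abs_div, abs_neg, abs_of_pos (Real.sqrt_pos.2 hz0)]
    rw [le_div_iff₀ (Real.sqrt_pos.2 hz0)]
    have : √(1 - v.1 ^ 2) ≤ 1 := by
      rw [Real.sqrt_le_one]
      nlinarith [sq_nonneg v.1]
    nlinarith [abs_nonneg (Vy d m p)]
  have n1 : |gX p| * |dz (Yf δ d m) v| ≤ (N0 δ 1 + M) * |Vy d m p| := by
    rw [← abs_mul, m1]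
    refine (abs_add_le _ _).trans ?_
    rw [abs_mul]
    have hyz : |yz| ≤ M := by
      have : 0 ≤ δ ^ 2 / q ^ 2 := by positivity
      have : 0 ≤ (1 + δ ^ 2 / q) * (1 + 1 / q) := by positivity
      rw [hM]; linarith
    have := mul_le_mul_of_nonneg_right hyz (abs_nonneg (Vy d m p))
    linarith
  have n2 : |gB p| * |dz (Yf δ d m) v| ≤ (N0 δ 1 + M) * |Vy d m p| := by
    rw [← abs_neg (gB p), ← abs_mul, m2]
    refine (abs_add_le _ _).trans ?_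
    rw [abs_mul]
    have := mul_le_mul_of_nonneg_right b2 (abs_nonneg (Vy d m p))
    linarith
  have n3 : q / 2 ≤ |gX p| + |gB p| := by
    have h4 : (q / 2) ^ 2 ≤ (|gX p| + |gB p|) ^ 2 := by
      have h5 : q ^ 2 ≤ (1 - v.1 ^ 2) ^ 2 := pow_le_pow_left₀ hq0.le hqz 2
      have h6 : (|gX p| + |gB p|) ^ 2 = gX p ^ 2 + gB p ^ 2 + 2 * (|gX p| * |gB p|) := by
        rw [add_sq, sq_abs, sq_abs]; ring
      have h7 : 0 ≤ |gX p| * |gB p| := by positivity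
      nlinarith
    exact (pow_le_pow_iff_left₀ (by positivity) (by positivity) two_ne_zero).1 h4
  have n4 : (q / 2) * |dz (Yf δ d m) v| ≤ (2 * N0 δ 1 + 2 * M) * |dt (Yf δ d m) v| := by
    calc (q / 2) * |dz (Yf δ d m) v| ≤ (|gX p| + |gB p|) * |dz (Yf δ d m) v| :=
          mul_le_mul_of_nonneg_right n3 (abs_nonneg _)
      _ ≤ (2 * N0 δ 1 + 2 * M) * |Vy d m p| := by linarith
      _ ≤ (2 * N0 δ 1 + 2 * M) * |dt (Yf δ d m) v| :=
          mul_le_mul_of_nonneg_left hVy (by positivity)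
  have hq2 : 0 < q / 2 := by positivity
  calc |dz (Yf δ d m) v| = (2 / q) * ((q / 2) * |dz (Yf δ d m) v|) := by
        field_simp
    _ ≤ (2 / q) * ((2 * N0 δ 1 + 2 * M) * |dt (Yf δ d m) v|) :=
        mul_le_mul_of_nonneg_left n4 (by positivity)
    _ = (2 * N0 δ 1 + 2 * M) * (2 / q) * |dt (Yf δ d m) v| := by ring

end Pool.Agent.H415.TmSSlope
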